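import Mathlib

set_option autoImplicit false

namespace Pool.Agent.H709Z.BL

open Matrix
open scoped ComplexOrder

/-- square complex matrices -/
abbrev Mat (n : ℕ) := Matrix (Fin n) (Fin n) ℂ

variable {n : ℕ}

/-- real diagonal matrix -/
noncomputable def D (x : Fin n → ℝ) : Mat n := diagonal (fun i => ((x i : ℝ) : ℂ))

/-- sesquilinear pairing -/
noncomputable def br (v w : Fin n → ℂ) : ℂ := star v ⬝ᵥ w

/-- quadratic form -/
noncomputable def q (M : Mat n) (v : Fin n → ℂ) : ℝ := (br v (M *ᵥ v)).re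

/-- squared norm -/
noncomputable def nsq (v : Fin n → ℂ) : ℝ := ∑ i, Complex.normSq (v i)

/-- unitary matrices -/
def IsU (U : Mat n) : Prop := Uᴴ * U = 1

/-- conjugated diagonal matrix -/
noncomputable def Cj (U : Mat n) (x : Fin n → ℝ) : Mat n := U * D x * Uᴴ

/-- number of entries above `t` -/
noncomputable def cnt (x : Fin n → ℝ) (t : ℝ) : ℕ := (Finset.univ.filter (fun i => t < x i)).card

theorem IsU.mul_ct {U : Mat n} (h : IsU U) : U * Uᴴ = 1 := mul_eq_one_comm.1 h

theorem IsU.mul {U V : Mat n} (h : IsU U) (h' : IsU V) : IsU (U * V) := by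
  unfold IsU at *
  rw [conjTranspose_mul, Matrix.mul_assoc, ← Matrix.mul_assoc Uᴴ, h, Matrix.one_mul, h']

theorem IsU.ct {U : Mat n} (h : IsU U) : IsU Uᴴ := by
  unfold IsU
  rw [conjTranspose_conjTranspose]
  exact h.mul_ct

theorem IsU.mem {U : Mat n} (h : IsU U) : U ∈ Matrix.unitaryGroup (Fin n) ℂ :=
  Matrix.mem_unitaryGroup_iff'.2 h

theorem IsU.entry {U : Mat n} (h : IsU U) (i j : Fin n) : ‖U i j‖ ≤ 1 :=
  entry_norm_bound_of_unitary h.mem i j

theorem br_add_right (u v w : Fin n → ℂ) : br u (v + w) = br u v + br u w := by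
  simp [br]

theorem br_add_left (u v w : Fin n → ℂ) : br (u + v) w = br u w + br v w := by
  simp [br]

theorem br_sub_right (u v w : Fin n → ℂ) : br u (v - w) = br u v - br u w := by
  simp [br]

theorem br_sub_left (u v w : Fin n → ℂ) : br (u - v) w = br u w - br v w := by
  simp [br]

theorem br_neg_right (u v : Fin n → ℂ) : br u (-v) = - br u v := by
  simp [br]

theorem br_neg_left (u v : Fin n → ℂ) : br (-u) v = - br u v := by
  simp [br]

theorem br_smul_right (c : ℂ) (u v : Fin n → ℂ) : br u (c • v) = c * br u v := by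
  simp [br]

theorem br_smul_left (c : ℂ) (u v : Fin n → ℂ) : br (c • u) v = star c * br u v := by
  simp [br]

theorem br_rsmul_right (c : ℝ) (u v : Fin n → ℂ) : br u (c • v) = (c : ℂ) * br u v := by
  rw [← br_smul_right]; rfl

theorem br_rsmul_left (c : ℝ) (u v : Fin n → ℂ) : br (c • u) v = (c : ℂ) * br u v := by
  have : c • u = (c : ℂ) • u := rfl
  rw [this, br_smul_left]
  simp

theorem br_zero_right (u : Fin n → ℂ) : br u 0 = 0 := by simp [br]

theorem br_zero_left (u : Fin n → ℂ) : br 0 u = 0 := by simp [br]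

theorem br_mulVec (M : Mat n) (u v : Fin n → ℂ) : br u (M *ᵥ v) = br (Mᴴ *ᵥ u) v := by
  simp only [br, star_mulVec, conjTranspose_conjTranspose, dotProduct_mulVec]

theorem br_conj (u v : Fin n → ℂ) : star (br u v) = br v u := by
  simp only [br]
  rw [star_dotProduct, star_star]

theorem br_re_comm (u v : Fin n → ℂ) : (br u v).re = (br v u).re := by
  rw [← br_conj u v]; simp

theorem br_eq_sum (u v : Fin n → ℂ) : br u v = ∑ i, star (u i) * v i := by
  simp [br, dotProduct]

theorem br_self (v : Fin n → ℂ) : br v v = (nsq v : ℂ) := by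
  rw [br_eq_sum, nsq]
  push_cast
  refine Finset.sum_congr rfl (fun i _ => ?_)
  rw [Complex.normSq_eq_conj_mul_self]; rfl

theorem br_self_re (v : Fin n → ℂ) : (br v v).re = nsq v := by
  rw [br_self]; simp

theorem nsq_nonneg (v : Fin n → ℂ) : 0 ≤ nsq v :=
  Finset.sum_nonneg (fun _ _ => Complex.normSq_nonneg _)

theorem nsq_eq_zero {v : Fin n → ℂ} (h : nsq v = 0) : v = 0 := by
  funext i
  have := (Finset.sum_eq_zero_iff_of_nonneg (fun i _ => Complex.normSq_nonneg (v i))).1 h i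
    (Finset.mem_univ i)
  exact Complex.normSq_eq_zero.1 this

theorem nsq_pos {v : Fin n → ℂ} (h : v ≠ 0) : 0 < nsq v :=
  lt_of_le_of_ne (nsq_nonneg v) (fun h' => h (nsq_eq_zero h'.symm))

theorem q_add (M N : Mat n) (v : Fin n → ℂ) : q (M + N) v = q M v + q N v := by
  simp [q, add_mulVec, br_add_right]

theorem q_sub (M N : Mat n) (v : Fin n → ℂ) : q (M - N) v = q M v - q N v := by
  simp [q, sub_mulVec, br_sub_right]

theorem q_smul (c : ℝ) (M : Mat n) (v : Fin n → ℂ) : q (c • M) v = c * q M v := by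
  simp [q, smul_mulVec, br_rsmul_right]

theorem q_one (v : Fin n → ℂ) : q 1 v = nsq v := by
  simp [q, br_self_re]

theorem q_conj (G M : Mat n) (v : Fin n → ℂ) : q (G * M * Gᴴ) v = q M (Gᴴ *ᵥ v) := by
  simp only [q, ← mulVec_mulVec]
  rw [br_mulVec]

theorem D_mulVec (x : Fin n → ℝ) (v : Fin n → ℂ) (i : Fin n) : (D x *ᵥ v) i = x i * v i := by
  simp [D, mulVec_diagonal]

theorem q_D (x : Fin n → ℝ) (v : Fin n → ℂ) : q (D x) v = ∑ i, x i * Complex.normSq (v i) := by
  simp only [q, br_eq_sum, D_mulVec, Complex.re_sum]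
  refine Finset.sum_congr rfl (fun i _ => ?_)
  simp [Complex.normSq_apply]
  ring

theorem D_ct (x : Fin n → ℝ) : (D x)ᴴ = D x := by
  simp [D, diagonal_conjTranspose]

theorem D_mul (x y : Fin n → ℝ) : D x * D y = D (fun i => x i * y i) := by
  simp [D, diagonal_mul_diagonal]

theorem D_sub (x y : Fin n → ℝ) : D x - D y = D (fun i => x i - y i) := by
  simp [D, diagonal_sub]

theorem D_add (x y : Fin n → ℝ) : D x + D y = D (fun i => x i + y i) := by
  simp [D, diagonal_add]

theorem D_const (c : ℝ) : D (fun _ : Fin n => c) = c • (1 : Mat n) := by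
  ext i j
  by_cases h : i = j
  · subst h; simp [D]
  · simp [D, h]

theorem nsq_unitary {U : Mat n} (h : IsU U) (v : Fin n → ℂ) : nsq (U *ᵥ v) = nsq v := by
  rw [← br_self_re, br_mulVec, mulVec_mulVec, h, one_mulVec, br_self_re]

theorem Cj_herm (U : Mat n) (x : Fin n → ℝ) : (Cj U x).IsHermitian := by
  unfold Cj IsHermitian
  rw [conjTranspose_mul, conjTranspose_mul, conjTranspose_conjTranspose, D_ct, Matrix.mul_assoc]

theorem q_Cj (U : Mat n) (x : Fin n → ℝ) (v : Fin n → ℂ) :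
    q (Cj U x) v = ∑ i, x i * Complex.normSq ((Uᴴ *ᵥ v) i) := by
  rw [Cj, q_conj, q_D]

theorem Cj_sub (U : Mat n) (x y : Fin n → ℝ) : Cj U x - Cj U y = Cj U (fun i => x i - y i) := by
  simp only [Cj, ← D_sub, Matrix.mul_sub, Matrix.sub_mul]

theorem Cj_add (U : Mat n) (x y : Fin n → ℝ) : Cj U x + Cj U y = Cj U (fun i => x i + y i) := by
  simp only [Cj, ← D_add, Matrix.mul_add, Matrix.add_mul]

theorem Cj_const {U : Mat n} (h : IsU U) (c : ℝ) : Cj U (fun _ => c) = c • (1 : Mat n) := by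
  simp [Cj, D_const, h.mul_ct]

theorem Cj_mul {U : Mat n} (h : IsU U) (x y : Fin n → ℝ) :
    Cj U x * Cj U y = Cj U (fun i => x i * y i) := by
  have : Cj U x * Cj U y = U * D x * (Uᴴ * U) * D y * Uᴴ := by
    simp only [Cj, Matrix.mul_assoc]
  rw [this, h, Matrix.mul_one, Cj, ← D_mul]
  simp only [Matrix.mul_assoc]

theorem Cj_conj (W U : Mat n) (x : Fin n → ℝ) : W * Cj U x * Wᴴ = Cj (W * U) x := by
  simp only [Cj, conjTranspose_mul, Matrix.mul_assoc]

theorem psd_iff {M : Mat n} : M.PosSemidef ↔ M.IsHermitian ∧ ∀ v, 0 ≤ q M v := by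
  rw [posSemidef_iff_dotProduct_mulVec]
  refine and_congr_right (fun hM => forall_congr' (fun v => ?_))
  rw [Complex.nonneg_iff]
  have := hM.im_star_dotProduct_mulVec_self v
  simp only [RCLike.im_to_complex] at this
  simp [q, br, this]

theorem psd_q {M : Mat n} (h : M.PosSemidef) (v : Fin n → ℂ) : 0 ≤ q M v := (psd_iff.1 h).2 v

theorem psd_zero {M : Mat n} (h : M.PosSemidef) {v : Fin n → ℂ} (hv : q M v ≤ 0) : M *ᵥ v = 0 := by
  rw [← h.dotProduct_mulVec_zero_iff]
  have h1 := psd_q h v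
  have h2 := h.1.im_star_dotProduct_mulVec_self v
  simp only [RCLike.im_to_complex] at h2
  apply Complex.ext
  · have : q M v = 0 := le_antisymm hv h1
    simpa [q, br] using this
  · simpa using h2

theorem Cj_psd (U : Mat n) {x : Fin n → ℝ} (h : ∀ i, 0 ≤ x i) : (Cj U x).PosSemidef :=
  psd_iff.2 ⟨Cj_herm U x, fun v => by
    rw [q_Cj]
    exact Finset.sum_nonneg (fun i _ => mul_nonneg (h i) (Complex.normSq_nonneg _))⟩

theorem spectral {X : Mat n} (h : X.IsHermitian) : ∃ U x, IsU U ∧ X = Cj U x := by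
  refine ⟨h.eigenvectorUnitary, h.eigenvalues, Matrix.mem_unitaryGroup_iff'.1
    h.eigenvectorUnitary.2, ?_⟩
  conv_lhs => rw [h.spectral_theorem]
  rfl

/-- counting lemma -/
theorem cnt_le {U : Mat n} (hU : IsU U) (x : Fin n → ℝ) (G : Mat n) (J : Finset (Fin n)) (t : ℝ)
    (h : ∀ v, (∀ j ∈ J, (G *ᵥ v) j = 0) → q (Cj U x) v ≤ t * nsq v) : cnt x t ≤ J.card := by
  classical
  by_contra hcon
  push Not at hcon
  set I := Finset.univ.filter (fun i => t < x i) with hI
  let ext : (I → ℂ) →ₗ[ℂ] (Fin n → ℂ) :=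
    { toFun := fun c i => if h : i ∈ I then c ⟨i, h⟩ else 0
      map_add' := by
        intro c c'
        funext i
        by_cases h : i ∈ I <;> simp [h]
      map_smul' := by
        intro r c
        funext i
        by_cases h : i ∈ I <;> simp [h] }
  let φ : (I → ℂ) →ₗ[ℂ] (J → ℂ) :=
    (LinearMap.funLeft ℂ ℂ (Subtype.val : J → Fin n)) ∘ₗ (G * U).mulVecLin ∘ₗ ext
  have hker : LinearMap.ker φ ≠ ⊥ := by
    apply LinearMap.ker_ne_bot_of_finrank_lt
    simpa [cnt, ← hI] using hcon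
  obtain ⟨c, hc, hc0⟩ := (Submodule.ne_bot_iff _).1 hker
  have hw : ext c ≠ 0 := by
    intro h0
    apply hc0
    funext i
    have := congrFun h0 i.1
    simpa [ext, i.2] using this
  have h1 := h (U *ᵥ ext c) (by
    intro j hj
    have := congrFun (LinearMap.mem_ker.1 hc) ⟨j, hj⟩
    simpa [φ, LinearMap.funLeft_apply] using this)
  rw [q_Cj, mulVec_mulVec, hU, one_mulVec, nsq_unitary hU, nsq, Finset.mul_sum] at h1
  obtain ⟨i0, hi0⟩ : ∃ i, ext c i ≠ 0 := by
    by_contra h2
    push Not at h2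
    exact hw (funext h2)
  have hmem : ∀ i, ext c i ≠ 0 → t < x i := by
    intro i hi
    by_contra h3
    apply hi
    have : i ∉ I := by simp [hI, h3]
    simp [ext, this]
  have h2 : ∑ i, t * Complex.normSq (ext c i) < ∑ i, x i * Complex.normSq (ext c i) := by
    apply Finset.sum_lt_sum
    · intro i _
      by_cases hi : ext c i = 0
      · simp [hi]
      · exact mul_le_mul_of_nonneg_right (hmem i hi).le (Complex.normSq_nonneg _)
    · exact ⟨i0, Finset.mem_univ _,
        mul_lt_mul_of_pos_right (hmem i0 hi0) (Complex.normSq_pos.2 hi0)⟩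
  linarith

theorem cnt_le_of_le {U W : Mat n} (hU : IsU U) (hW : IsU W) {x y : Fin n → ℝ}
    (h : (Cj W y - Cj U x).PosSemidef) (t : ℝ) : cnt x t ≤ cnt y t := by
  apply cnt_le hU x Wᴴ _ t
  intro v hv
  have h1 := psd_q h v
  rw [q_sub] at h1
  have h2 : q (Cj W y) v ≤ t * nsq v := by
    rw [q_Cj, ← nsq_unitary hW.ct v, nsq, Finset.mul_sum]
    apply Finset.sum_le_sum
    intro i _
    by_cases hi : t < y i
    · rw [hv i (by simp [hi])]; simp
    · exact mul_le_mul_of_nonneg_right (not_lt.1 hi) (Complex.normSq_nonneg _)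
  linarith

theorem le_of_cnt {x y : Fin n → ℝ} (h : ∀ t, cnt x t ≤ cnt y t) (σ τ : Equiv.Perm (Fin n))
    (hσ : Monotone (x ∘ σ)) (hτ : Monotone (y ∘ τ)) (i : Fin n) : x (σ i) ≤ y (τ i) := by
  by_contra hcon
  push Not at hcon
  have h1 : (Finset.Ici i).card ≤ cnt x (y (τ i)) := by
    unfold cnt
    apply Finset.card_le_card_of_injOn σ
    · intro j hj
      simp only [Finset.coe_Ici, Set.mem_Ici] at hj
      simp only [Finset.coe_filter, Finset.mem_univ, true_and, Set.mem_ofPred_eq]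
      exact lt_of_lt_of_le hcon (hσ hj)
    · exact σ.injective.injOn
  have h2 : cnt y (y (τ i)) ≤ (Finset.Ioi i).card := by
    unfold cnt
    apply Finset.card_le_card_of_injOn τ.symm
    · intro j hj
      simp only [Finset.coe_filter, Finset.mem_univ, true_and, Set.mem_ofPred_eq] at hj
      simp only [Finset.coe_Ioi, Set.mem_Ioi]
      by_contra h3
      push Not at h3
      have := hτ h3
      simp only [Function.comp, Equiv.apply_symm_apply] at this
      linarith
    · exact τ.symm.injective.injOn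
  have h3 := h (y (τ i))
  rw [Fin.card_Ici] at h1
  rw [Fin.card_Ioi] at h2
  have := i.2
  omega

theorem IsU.perm {U : Mat n} (h : IsU U) (σ : Equiv.Perm (Fin n)) : IsU (U.submatrix id σ) := by
  unfold IsU at *
  rw [conjTranspose_submatrix, ← submatrix_mul _ _ _ id _ Function.bijective_id, h]
  exact submatrix_one_equiv σ

theorem Cj_apply (U : Mat n) (x : Fin n → ℝ) (i k : Fin n) :
    Cj U x i k = ∑ j, U i j * (x j : ℂ) * star (U k j) := by
  simp [Cj, D, mul_apply, diagonal_apply]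

theorem Cj_perm (U : Mat n) (x : Fin n → ℝ) (σ : Equiv.Perm (Fin n)) :
    Cj (U.submatrix id σ) (x ∘ σ) = Cj U x := by
  ext i k
  rw [Cj_apply, Cj_apply]
  exact Equiv.sum_comp σ (fun j => U i j * (x j : ℂ) * star (U k j))

/-- two-sided comparison -/
theorem exists_perm_two {x y : Fin n → ℝ} {ε : ℝ} (h : ∀ t, cnt x t ≤ cnt y t)
    (h' : ∀ t, cnt y t ≤ cnt x (t - ε)) :
    ∃ σ : Equiv.Perm (Fin n), ∀ i, x (σ i) ≤ y i ∧ y i ≤ x (σ i) + ε := by
  refine ⟨(Tuple.sort y).symm.trans (Tuple.sort x), fun i => ⟨?_, ?_⟩⟩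
  · have := le_of_cnt h _ _ (Tuple.monotone_sort x) (Tuple.monotone_sort y) ((Tuple.sort y).symm i)
    simpa using this
  · have h2 : ∀ t, cnt y t ≤ cnt (fun i => x i + ε) t := by
      intro t
      refine le_trans (h' t) (le_of_eq ?_)
      unfold cnt
      congr 1
      ext j
      simp [sub_lt_iff_lt_add]
    have h3 : Monotone ((fun i => x i + ε) ∘ Tuple.sort x) := by
      intro a b hab
      have := Tuple.monotone_sort x hab
      simp only [Function.comp] at this ⊢
      linarith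
    have := le_of_cnt h2 _ _ (Tuple.monotone_sort y) h3 ((Tuple.sort y).symm i)
    simpa using this

theorem exists_perm {x y : Fin n → ℝ} (h : ∀ t, cnt x t ≤ cnt y t) :
    ∃ σ : Equiv.Perm (Fin n), ∀ i, x (σ i) ≤ y i := by
  refine ⟨(Tuple.sort y).symm.trans (Tuple.sort x), fun i => ?_⟩
  have := le_of_cnt h _ _ (Tuple.monotone_sort x) (Tuple.monotone_sort y) ((Tuple.sort y).symm i)
  simpa using this

/-- `X` is dominated by a unitary conjugate of `D a`. -/
def Dom (X : Mat n) (a : Fin n → ℝ) : Prop := ∃ W, IsU W ∧ (Cj W a - X).PosSemidef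

theorem dom_of_cnt {U : Mat n} (hU : IsU U) {x a : Fin n → ℝ} (h : ∀ t, cnt x t ≤ cnt a t) :
    Dom (Cj U x) a := by
  obtain ⟨σ, hσ⟩ := exists_perm h
  refine ⟨U.submatrix id σ, hU.perm σ, ?_⟩
  rw [← Cj_perm U x σ, Cj_sub]
  exact Cj_psd _ (fun i => by simpa using hσ i)

theorem Dom.cnt {U : Mat n} (hU : IsU U) {x a : Fin n → ℝ} (h : Dom (Cj U x) a) (t : ℝ) :
    cnt x t ≤ cnt a t := by
  obtain ⟨W, hW, h⟩ := h
  exact cnt_le_of_le hU hW h t

theorem Dom.herm {X : Mat n} {a : Fin n → ℝ} (h : Dom X a) : X.IsHermitian := by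
  obtain ⟨W, -, h⟩ := h
  have := (Cj_herm W a).sub h.1
  simpa using this

theorem Dom.conj {X W : Mat n} {a : Fin n → ℝ} (h : Dom X a) (hW : IsU W) :
    Dom (W * X * Wᴴ) a := by
  obtain ⟨U, hU, h⟩ := h
  refine ⟨W * U, hW.mul hU, ?_⟩
  rw [← Cj_conj]
  have := h.mul_mul_conjTranspose_same W
  rwa [Matrix.mul_sub, Matrix.sub_mul] at this

theorem Dom.sub {X P : Mat n} {a : Fin n → ℝ} (h : Dom X a) (hP : P.PosSemidef) :
    Dom (X - P) a := by
  obtain ⟨U, hU, h⟩ := h
  refine ⟨U, hU, ?_⟩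
  have := h.add hP
  convert this using 1
  abel

end Pool.Agent.H709Z.BL
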