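import Mathlib
import Pool.Agent.H709Z.BLBasic

set_option autoImplicit false

namespace Pool.Agent.H709Z.BL

open Matrix
open scoped ComplexOrder

variable {n : ℕ}

theorem supergrad {f : ℝ → ℝ} (hc : ConcaveOn ℝ (Set.Ici 0) f) (hm : MonotoneOn f (Set.Ici 0))
    {s : ℝ} (hs : 0 < s) : ∃ m, 0 ≤ m ∧ ∀ y, 0 ≤ y → f y ≤ f s + m * (y - s) := by
  let S : Set ℝ := {r | ∃ y, s < y ∧ r = (f y - f s) / (y - s)}
  have hub : ∀ x, 0 ≤ x → x < s → ∀ r ∈ S, r ≤ (f s - f x) / (s - x) := by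
    rintro x hx hxs r ⟨y, hy, rfl⟩
    exact hc.slope_anti_adjacent hx (le_of_lt (lt_trans hs hy) : (0 : ℝ) ≤ y) hxs hy
  have hbdd : BddAbove S := ⟨_, hub 0 le_rfl hs⟩
  have hne : S.Nonempty := ⟨_, s + 1, by linarith, rfl⟩
  refine ⟨sSup S, ?_, fun y hy => ?_⟩
  · refine le_trans ?_ (le_csSup hbdd ⟨s + 1, by linarith, rfl⟩)
    apply div_nonneg
    · have := hm (le_of_lt hs : (0 : ℝ) ≤ s) (by linarith : (0 : ℝ) ≤ s + 1) (by linarith)
      linarith
    · linarith
  · rcases lt_trichotomy y s with h | h | h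
    · have h1 := csSup_le hne (hub y hy h)
      rw [le_div_iff₀ (by linarith)] at h1
      linarith
    · rw [h]; simp
    · have h1 := le_csSup hbdd ⟨y, h, rfl⟩
      rw [div_le_iff₀ (by linarith)] at h1
      linarith

theorem q_sub_vec {A : Mat n} (hA : A.IsHermitian) (u w : Fin n → ℂ) :
    q A (u - w) = q A u - 2 * (br u (A *ᵥ w)).re + q A w := by
  have h1 : (br w (A *ᵥ u)).re = (br u (A *ᵥ w)).re := by
    rw [br_mulVec, hA.eq, br_re_comm]
  simp only [q, mulVec_sub, br_sub_left, br_sub_right, Complex.sub_re, h1]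
  ring

theorem nsq_sub (u w : Fin n → ℂ) : nsq (u - w) = nsq u - 2 * (br u w).re + nsq w := by
  have := q_sub_vec (isHermitian_one (n := Fin n) (α := ℂ)) u w
  simpa only [q_one, one_mulVec] using this

theorem nsq_rsmul (c : ℝ) (u : Fin n → ℂ) : nsq (c • u) = c ^ 2 * nsq u := by
  rw [← br_self_re, br_rsmul_left, br_rsmul_right, br_self]
  simp
  ring

theorem nsq_mulVec (M : Mat n) (v : Fin n → ℂ) : nsq (M *ᵥ v) = q (Mᴴ * M) v := by
  rw [← br_self_re, q, ← mulVec_mulVec, br_mulVec Mᴴ, conjTranspose_conjTranspose]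

theorem ab_dom {f : ℝ → ℝ} (hc : ConcaveOn ℝ (Set.Ici 0) f) (hm : MonotoneOn f (Set.Ici 0))
    (h0 : f 0 = 0) {Q U : Mat n} (hQ : IsU Q) (hU : IsU U) {γ α : Fin n → ℝ} (hγ : ∀ i, 0 ≤ γ i)
    (hα : ∀ i, 0 ≤ α i) (hle : (Cj Q γ - Cj U α).PosSemidef) :
    Dom (Cj Q (fun i => Real.sqrt (f (γ i) / γ i)) * Cj U α *
      Cj Q (fun i => Real.sqrt (f (γ i) / γ i))) (fun i => f (α i)) := by
  classical
  have hf0 : ∀ y, 0 ≤ y → 0 ≤ f y := fun y hy => by
    have := hm (le_refl (0 : ℝ)) hy hy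
    linarith
  set H := Cj Q (fun i => Real.sqrt (f (γ i) / γ i)) with hH
  set A := Cj U α with hA
  have hHh : Hᴴ = H := Cj_herm _ _
  have hAh : A.IsHermitian := Cj_herm _ _
  have hApsd : A.PosSemidef := Cj_psd _ hα
  have hHAH : (H * A * H).IsHermitian := by
    have := isHermitian_mul_mul_conjTranspose H hAh
    rwa [hHh] at this
  obtain ⟨W, x, hW, hx⟩ := spectral hHAH
  rw [hx]
  apply dom_of_cnt hW
  intro t
  by_cases ht : t < 0
  · unfold cnt
    apply Finset.card_le_card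
    intro i _
    simp only [Finset.mem_filter, Finset.mem_univ, true_and]
    exact lt_of_lt_of_le ht (hf0 _ (hα i))
  push Not at ht
  obtain ⟨s, hs0, hfs, hs⟩ : ∃ s, 0 ≤ s ∧ f s ≤ t ∧ ∀ i, f (α i) ≤ t → α i ≤ s := by
    by_cases hne : (Finset.univ.filter (fun i => f (α i) ≤ t)).Nonempty
    · obtain ⟨j, hj, hmax⟩ := Finset.exists_max_image _ α hne
      simp only [Finset.mem_filter, Finset.mem_univ, true_and] at hj hmax
      exact ⟨α j, hα j, hj, hmax⟩
    · refine ⟨0, le_rfl, by rw [h0]; exact ht, fun i hi => ?_⟩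
      exact absurd ⟨i, by simp [hi]⟩ hne
  apply cnt_le hW x (Uᴴ * H) _ t
  intro v hv
  rw [← hx]
  set w := H *ᵥ v with hw
  have hc0 : ∀ j, (Uᴴ *ᵥ w) j = 0 ∨ α j ≤ s := by
    intro j
    by_cases hj : t < f (α j)
    · left
      have := hv j (by simp [hj])
      rwa [← mulVec_mulVec] at this
    · exact Or.inr (hs j (not_lt.1 hj))
  have e0 : q (H * A * H) v = q A w := by
    have := q_conj H A v
    rwa [hHh] at this
  have hq0 : 0 ≤ q A w := psd_q hApsd w
  have hv0 := nsq_nonneg v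
  rcases eq_or_lt_of_le hs0 with hs1 | hs1
  · have : q A w ≤ 0 := by
      rw [hA, q_Cj]
      apply Finset.sum_nonpos
      intro j _
      rcases hc0 j with h | h
      · rw [h]; simp
      · have : α j = 0 := le_antisymm (by linarith) (hα j)
        rw [this]; simp
    rw [e0]
    nlinarith
  obtain ⟨m, hm0, hmf⟩ := supergrad hc hm hs1
  have hint : 0 ≤ f s - m * s := by
    have := hmf 0 le_rfl
    rw [h0] at this
    linarith
  set z := A *ᵥ w with hz
  have e1 : nsq z ≤ s * q A w := by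
    rw [hz, nsq_mulVec, hAh.eq, hA, Cj_mul hU, q_Cj, q_Cj, Finset.mul_sum]
    apply Finset.sum_le_sum
    intro j _
    rcases hc0 j with h | h
    · rw [h]; simp
    · have h1 := Complex.normSq_nonneg ((Uᴴ *ᵥ w) j)
      have h2 := hα j
      have h3 : α j * α j ≤ s * α j := mul_le_mul_of_nonneg_right h h2
      nlinarith
  set Cp := Cj Q (fun i => (γ i)⁻¹) with hCp
  have hCph : Cpᴴ = Cp := Cj_herm _ _
  have e2 : q Cp z ≤ q A w := by
    have h1 := psd_q hApsd (Cp *ᵥ z - w)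
    rw [q_sub_vec hAh] at h1
    have h2 : (br (Cp *ᵥ z) (A *ᵥ w)).re = q Cp z := by
      rw [← hz, br_re_comm]; rfl
    have h3 := psd_q hle (Cp *ᵥ z)
    rw [q_sub] at h3
    have h4 : q (Cj Q γ) (Cp *ᵥ z) = q Cp z := by
      conv_lhs => rw [← hCph]
      rw [← q_conj, hCph, hCp, Cj_mul hQ, Cj_mul hQ]
      congr 2
      funext i
      by_cases hi : γ i = 0
      · simp [hi]
      · field_simp
    linarith
  have e3 : nsq (H *ᵥ z) ≤ f s * q A w := by
    have h1 : nsq (H *ᵥ z) ≤ (f s - m * s) * q Cp z + m * nsq z := by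
      rw [nsq_mulVec, hHh, hH, Cj_mul hQ, q_Cj, hCp, q_Cj, ← nsq_unitary hQ.ct z, nsq,
        Finset.mul_sum, Finset.mul_sum, ← Finset.sum_add_distrib]
      apply Finset.sum_le_sum
      intro i _
      have h2 := Complex.normSq_nonneg ((Qᴴ *ᵥ z) i)
      have h3 : Real.sqrt (f (γ i) / γ i) * Real.sqrt (f (γ i) / γ i) ≤
          (f s - m * s) * (γ i)⁻¹ + m := by
        rw [Real.mul_self_sqrt (div_nonneg (hf0 _ (hγ i)) (hγ i))]
        rcases eq_or_lt_of_le (hγ i) with h4 | h4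
        · rw [← h4]; simpa using hm0
        · rw [div_le_iff₀ h4]
          have h5 := hmf (γ i) (hγ i)
          have h6 : ((f s - m * s) * (γ i)⁻¹ + m) * γ i = f s - m * s + m * γ i := by
            field_simp
          linarith
      nlinarith
    have h2 : (f s - m * s) * q Cp z ≤ (f s - m * s) * q A w := mul_le_mul_of_nonneg_left e2 hint
    have h3 : m * nsq z ≤ m * (s * q A w) := mul_le_mul_of_nonneg_left e1 hm0
    linarith
  have e4 : (br v (H *ᵥ z)).re = q A w := by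
    rw [← e0, hz, hw, mulVec_mulVec, mulVec_mulVec]; rfl
  rw [e0]
  by_contra hcon
  push Not at hcon
  have hvpos : 0 < nsq v := by
    apply nsq_pos
    rintro rfl
    simp [hw, q, br, nsq] at hcon
  set l := q A w / nsq v with hl
  have hl1 : l * nsq v = q A w := by rw [hl]; field_simp
  have hl2 : t < l := by rw [hl, lt_div_iff₀ hvpos]; exact hcon
  have h5 := nsq_nonneg (l • v - H *ᵥ z)
  rw [nsq_sub, nsq_rsmul, br_rsmul_left] at h5
  simp only [Complex.mul_re, Complex.ofReal_re, Complex.ofReal_im, zero_mul, sub_zero, e4] at h5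
  have hqpos : 0 < q A w := by nlinarith
  have h6 : l ^ 2 * nsq v = l * q A w := by rw [← hl1]; ring
  nlinarith

end Pool.Agent.H709Z.BL
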