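import Mathlib
import Pool.Agent.H709Z.BLConcave

set_option autoImplicit false

namespace Pool.Agent.H709Z.BL

open Matrix Filter Topology
open scoped ComplexOrder

variable {n : ℕ}

/-- real trace pairing -/
noncomputable def ip (A B : Mat n) : ℝ := (A * B).trace.re

theorem ip_comm (A B : Mat n) : ip A B = ip B A := by
  unfold ip; rw [trace_mul_comm]

theorem ip_add_right (A B C : Mat n) : ip A (B + C) = ip A B + ip A C := by
  simp [ip, Matrix.mul_add]

theorem ip_sub_right (A B C : Mat n) : ip A (B - C) = ip A B - ip A C := by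
  simp [ip, Matrix.mul_sub]

theorem ip_smul_right (c : ℝ) (A B : Mat n) : ip A (c • B) = c * ip A B := by
  simp [ip]

theorem ip_sub_self (A B : Mat n) : ip (A - B) (A - B) = ip A A - 2 * ip A B + ip B B := by
  rw [ip_sub_right, ip_comm (A - B), ip_comm (A - B), ip_sub_right, ip_sub_right, ip_comm B A]
  ring

theorem ip_smul_self (c : ℝ) (A : Mat n) : ip (c • A) (c • A) = c ^ 2 * ip A A := by
  rw [ip_smul_right, ip_comm, ip_smul_right]; ring

theorem ip_ct_self (Z : Mat n) : ip Zᴴ Z = ∑ j, ∑ i, Complex.normSq (Z i j) := by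
  simp only [ip, trace, diag_apply, mul_apply, conjTranspose_apply, Complex.re_sum]
  refine Finset.sum_congr rfl (fun j _ => Finset.sum_congr rfl (fun i _ => ?_))
  simp [Complex.normSq_apply]

theorem ip_self_nonneg {Z : Mat n} (h : Z.IsHermitian) : 0 ≤ ip Z Z := by
  have := ip_ct_self Z
  rw [h.eq] at this
  rw [this]
  exact Finset.sum_nonneg (fun _ _ => Finset.sum_nonneg (fun _ _ => Complex.normSq_nonneg _))

theorem normSq_le_ip {Z : Mat n} (h : Z.IsHermitian) (i j : Fin n) :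
    Complex.normSq (Z i j) ≤ ip Z Z := by
  have := ip_ct_self Z
  rw [h.eq] at this
  rw [this]
  refine le_trans ?_ (Finset.single_le_sum (f := fun j => ∑ i, Complex.normSq (Z i j))
    (fun _ _ => Finset.sum_nonneg (fun _ _ => Complex.normSq_nonneg _)) (Finset.mem_univ j))
  exact Finset.single_le_sum (f := fun i => Complex.normSq (Z i j))
    (fun _ _ => Complex.normSq_nonneg _) (Finset.mem_univ i)

theorem eq_zero_of_ip {Z : Mat n} (h : ip Zᴴ Z ≤ 0) : Z = 0 := by
  rw [ip_ct_self] at h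
  ext i j
  have h1 : ∑ i, Complex.normSq (Z i j) ≤ 0 :=
    le_trans (Finset.single_le_sum (f := fun j => ∑ i, Complex.normSq (Z i j))
      (fun _ _ => Finset.sum_nonneg (fun _ _ => Complex.normSq_nonneg _)) (Finset.mem_univ j)) h
  have h2 : Complex.normSq (Z i j) ≤ 0 :=
    le_trans (Finset.single_le_sum (f := fun i => Complex.normSq (Z i j))
      (fun _ _ => Complex.normSq_nonneg _) (Finset.mem_univ i)) h1
  exact Complex.normSq_eq_zero.1 (le_antisymm h2 (Complex.normSq_nonneg _))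

theorem continuous_ip : Continuous (fun p : Mat n × Mat n => ip p.1 p.2) := by
  unfold ip
  exact Complex.continuous_re.comp (continuous_fst.matrix_mul continuous_snd).matrix_trace

theorem ContinuousAt.ip' {A B : ℝ → Mat n} (hA : ContinuousAt A 0) (hB : ContinuousAt B 0) :
    ContinuousAt (fun τ => ip (A τ) (B τ)) 0 :=
  (continuous_ip.continuousAt (x := (A 0, B 0))).comp₂ hA hB

theorem lim_nonneg {g : ℝ → ℝ} (hg : ContinuousAt g 0) (h : ∀ᶠ τ in 𝓝[>] (0 : ℝ), 0 ≤ g τ) :
    0 ≤ g 0 :=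
  ge_of_tendsto (hg.tendsto.mono_left nhdsWithin_le_nhds) h

theorem cayley {K : Mat n} (hK : Kᴴ = -K) : ∃ E : ℝ → Mat n, ContinuousAt E 0 ∧ E 0 = K * K ∧
    ∀ᶠ τ in 𝓝 (0 : ℝ), IsU (1 + (2 * τ) • K + (2 * τ ^ 2) • E τ) := by
  have hc : Continuous (fun τ : ℝ => (1 : Mat n) - τ • K) :=
    continuous_const.sub (continuous_id.smul continuous_const)
  have hJ : ContinuousAt (fun τ : ℝ => ((1 : Mat n) - τ • K)⁻¹) 0 := by
    apply ContinuousAt.comp (g := fun A : Mat n => A⁻¹) _ hc.continuousAt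
    apply continuousAt_matrix_inv
    simp only [zero_smul, sub_zero, det_one]
    rw [Ring.inverse_eq_inv']
    exact continuousAt_inv₀ one_ne_zero
  refine ⟨fun τ => K * K * ((1 : Mat n) - τ • K)⁻¹, continuousAt_const.mul hJ, by simp, ?_⟩
  have hdet : ∀ᶠ τ in 𝓝 (0 : ℝ), ((1 : Mat n) - τ • K).det ≠ 0 := by
    apply hc.matrix_det.continuousAt.eventually_ne
    simp
  filter_upwards [hdet] with τ hτ
  set J := ((1 : Mat n) - τ • K)⁻¹ with hJdef
  have h1 : (1 - τ • K) * J = 1 := mul_nonsing_inv _ (isUnit_iff_ne_zero.2 hτ)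
  have h2 : J = 1 + τ • (K * J) := by
    rw [Matrix.sub_mul, Matrix.one_mul, Matrix.smul_mul] at h1
    rw [← h1]; abel
  have h3 : 1 + (2 * τ) • K + (2 * τ ^ 2) • (K * K * J) = (1 + τ • K) * J := by
    have h4 : K * J = K + τ • (K * K * J) := by
      conv_lhs => rw [h2]
      rw [Matrix.mul_add, Matrix.mul_one, Matrix.mul_smul, Matrix.mul_assoc]
    rw [Matrix.add_mul, Matrix.one_mul, Matrix.smul_mul]
    conv_rhs => rw [h2]
    rw [h4]
    have h5 : K * (1 + τ • (K + τ • (K * K * J))) = K + τ • (K * K * J) := by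
      rw [← h4, ← h2, h4]
    rw [h5]
    module
  rw [h3]
  unfold IsU
  have h6 : ((1 : Mat n) + τ • K)ᴴ = 1 - τ • K := by
    rw [conjTranspose_add, conjTranspose_one, conjTranspose_smul, hK]
    simp [sub_eq_add_neg]
  have h7 : ((1 : Mat n) - τ • K)ᴴ = 1 + τ • K := by
    rw [← h6, conjTranspose_conjTranspose]
  have h8 : Jᴴ * (1 + τ • K) = 1 := by
    rw [← h7, ← conjTranspose_mul, h1, conjTranspose_one]
  have h9 : ((1 : Mat n) - τ • K) * (1 + τ • K) = (1 + τ • K) * (1 - τ • K) := by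
    simp only [Matrix.mul_add, Matrix.add_mul, Matrix.mul_sub, Matrix.sub_mul, Matrix.one_mul,
      Matrix.mul_one]
    abel
  rw [conjTranspose_mul, h6]
  calc Jᴴ * (1 - τ • K) * ((1 + τ • K) * J) = Jᴴ * ((1 - τ • K) * (1 + τ • K)) * J := by
        simp only [Matrix.mul_assoc]
    _ = (Jᴴ * (1 + τ • K)) * ((1 - τ • K) * J) := by
        rw [h9]; simp only [Matrix.mul_assoc]
    _ = 1 := by rw [h8, h1, Matrix.one_mul]

/-- second order remainder -/
noncomputable def G2 (K X E : Mat n) (τ : ℝ) : Mat n :=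
  (2 : ℝ) • (E * X) + (2 : ℝ) • (X * Eᴴ) - (4 : ℝ) • (K * X * K) +
    τ • ((4 : ℝ) • (K * X * Eᴴ) - (4 : ℝ) • (E * X * K)) + (τ ^ 2) • ((4 : ℝ) • (E * X * Eᴴ))

/-- double commutator -/
noncomputable def S2 (K X : Mat n) : Mat n := K * K * X + X * (K * K) - (2 : ℝ) • (K * X * K)

theorem expand {K : Mat n} (hK : Kᴴ = -K) (X E : Mat n) (τ : ℝ) :
    (1 + (2 * τ) • K + (2 * τ ^ 2) • E) * X * (1 + (2 * τ) • K + (2 * τ ^ 2) • E)ᴴ - X =
      (2 * τ) • (K * X - X * K) + (τ ^ 2) • G2 K X E τ := by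
  simp only [conjTranspose_add, conjTranspose_one, conjTranspose_smul, hK, star_trivial, G2,
    Matrix.mul_add, Matrix.add_mul, Matrix.one_mul, Matrix.mul_one, Matrix.smul_mul,
    Matrix.mul_smul, Matrix.mul_neg, smul_neg]
  module

theorem G2_cont {K X : Mat n} {E : ℝ → Mat n} (hE : ContinuousAt E 0) :
    ContinuousAt (fun τ => G2 K X (E τ) τ) 0 := by
  have h : Continuous (fun p : Mat n × ℝ => G2 K X p.1 p.2) := by
    unfold G2
    fun_prop
  exact (h.continuousAt (x := (E 0, 0))).comp₂ (f := fun p : Mat n × ℝ => G2 K X p.1 p.2) hE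
    continuousAt_id

theorem G2_zero {K : Mat n} (hK : Kᴴ = -K) (X : Mat n) :
    G2 K X (K * K) 0 = (2 : ℝ) • S2 K X := by
  simp only [G2, S2, conjTranspose_mul, hK, Matrix.mul_neg, Matrix.neg_mul, neg_neg]
  module

theorem rot1 {R Y : Mat n} (hR : R.IsHermitian) (hY : Y.IsHermitian)
    (h : ∀ W, IsU W → ip R R ≤ ip (R - (W * Y * Wᴴ - Y)) (R - (W * Y * Wᴴ - Y))) :
    R * Y = Y * R := by
  set K := R * Y - Y * R with hKdef
  have hK : Kᴴ = -K := by
    rw [hKdef, conjTranspose_sub, conjTranspose_mul, conjTranspose_mul, hR.eq, hY.eq, neg_sub]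
  obtain ⟨E, hE, -, hU⟩ := cayley hK
  let Δ : ℝ → Mat n := fun τ => (2 : ℝ) • (K * Y - Y * K) + τ • G2 K Y (E τ) τ
  have hΔ : ContinuousAt Δ 0 := continuousAt_const.add (continuousAt_id.smul (G2_cont hE))
  have h1 := lim_nonneg (g := fun τ => -2 * ip R (Δ τ) + τ * ip (Δ τ) (Δ τ))
    ((continuousAt_const.mul (ContinuousAt.ip' continuousAt_const hΔ)).add
      (continuousAt_id.mul (ContinuousAt.ip' hΔ hΔ))) (by
      filter_upwards [nhdsWithin_le_nhds hU, self_mem_nhdsWithin] with τ hτ hpos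
      have h2 := h _ hτ
      have h3 : (2 * τ) • (K * Y - Y * K) + (τ ^ 2) • G2 K Y (E τ) τ = τ • Δ τ := by
        simp only [Δ]
        module
      rw [expand hK, h3, ip_sub_self, ip_smul_self, ip_smul_right] at h2
      have hpos' : (0 : ℝ) < τ := hpos
      have h4 : 0 ≤ τ * (-2 * ip R (Δ τ) + τ * ip (Δ τ) (Δ τ)) := by nlinarith
      exact nonneg_of_mul_nonneg_right h4 hpos' |> fun h => h)
  simp only [Δ, zero_smul, add_zero, zero_mul, ip_smul_right] at h1
  have h5 : ip R (K * Y - Y * K) = ip Kᴴ K := by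
    rw [hK]
    unfold ip
    congr 1
    rw [Matrix.mul_sub, trace_sub, ← Matrix.mul_assoc, trace_mul_cycle, ← Matrix.mul_assoc,
      ← trace_sub, ← Matrix.sub_mul, hKdef, neg_sub]
  have h6 : K = 0 := eq_zero_of_ip (by linarith)
  exact sub_eq_zero.1 h6

theorem rot2 {R X Y K L : Mat n} (hK : Kᴴ = -K) (hL : Lᴴ = -L)
    (h0 : (K * X - X * K) + (L * Y - Y * L) = 0)
    (h : ∀ W W', IsU W → IsU W' → ip R R ≤ ip (R - ((W * X * Wᴴ - X) + (W' * Y * W'ᴴ - Y)))
      (R - ((W * X * Wᴴ - X) + (W' * Y * W'ᴴ - Y)))) :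
    ip R (S2 K X) + ip R (S2 L Y) ≤ 0 := by
  obtain ⟨E, hE, hE0, hU⟩ := cayley hK
  obtain ⟨E', hE', hE0', hU'⟩ := cayley hL
  let Δ : ℝ → Mat n := fun τ => G2 K X (E τ) τ + G2 L Y (E' τ) τ
  have hΔ : ContinuousAt Δ 0 := (G2_cont hE).add (G2_cont hE')
  have h1 := lim_nonneg (g := fun τ => -2 * ip R (Δ τ) + τ ^ 2 * ip (Δ τ) (Δ τ))
    ((continuousAt_const.mul (ContinuousAt.ip' continuousAt_const hΔ)).add
      ((continuousAt_id.pow 2).mul (ContinuousAt.ip' hΔ hΔ))) (by
      filter_upwards [nhdsWithin_le_nhds hU, nhdsWithin_le_nhds hU', self_mem_nhdsWithin]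
        with τ hτ hτ' hpos
      have h2 := h _ _ hτ hτ'
      have h3 : (2 * τ) • (K * X - X * K) + (τ ^ 2) • G2 K X (E τ) τ +
          ((2 * τ) • (L * Y - Y * L) + (τ ^ 2) • G2 L Y (E' τ) τ) =
          (2 * τ) • ((K * X - X * K) + (L * Y - Y * L)) + (τ ^ 2) • Δ τ := by
        simp only [Δ]
        module
      rw [expand hK, expand hL, h3, h0, smul_zero, zero_add, ip_sub_self, ip_smul_self,
        ip_smul_right] at h2
      have hpos' : (0 : ℝ) < τ ^ 2 := pow_pos hpos 2
      have h4 : 0 ≤ τ ^ 2 * (-2 * ip R (Δ τ) + τ ^ 2 * ip (Δ τ) (Δ τ)) := by nlinarith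
      exact nonneg_of_mul_nonneg_right h4 hpos' |> fun h => h)
  simp only [Δ, hE0, hE0', G2_zero hK, G2_zero hL, ip_add_right, ip_smul_right] at h1
  linarith

/-- outer product -/
noncomputable def out (a b : Fin n → ℂ) : Mat n := vecMulVec a (star b)

theorem out_ct (a b : Fin n → ℂ) : (out a b)ᴴ = out b a := by
  simp [out, conjTranspose_vecMulVec]

theorem mul_out (M : Mat n) (a b : Fin n → ℂ) : M * out a b = out (M *ᵥ a) b := by
  simp [out, mul_vecMulVec]

theorem out_mul (M : Mat n) (a b : Fin n → ℂ) : out a b * M = out a (Mᴴ *ᵥ b) := by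
  simp [out, vecMulVec_mul, star_mulVec]

theorem out_mulVec (a b v : Fin n → ℂ) : out a b *ᵥ v = br b v • a := by
  simp [out, vecMulVec_mulVec, br]

theorem trace_out (a b : Fin n → ℂ) : (out a b).trace = br b a := by
  simp [out, trace_vecMulVec, br, dotProduct_comm]

theorem out_psd (a : Fin n → ℂ) : (out a a).PosSemidef := posSemidef_vecMulVec_self_star a

theorem ip_out (R : Mat n) (a b : Fin n → ℂ) : ip R (out a b) = (br b (R *ᵥ a)).re := by
  rw [ip, mul_out, trace_out]

theorem q_out (a v : Fin n → ℂ) : q (out a a) v = Complex.normSq (br a v) := by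
  rw [q, out_mulVec, br_smul_right, ← br_conj a v, Complex.normSq_apply]
  simp

theorem out_smul_left (c : ℂ) (a b : Fin n → ℂ) : out (c • a) b = c • out a b := by
  simp [out]

theorem out_smul_right (c : ℂ) (a b : Fin n → ℂ) : out a (c • b) = star c • out a b := by
  simp [out]

theorem out_add_left (a a' b : Fin n → ℂ) : out (a + a') b = out a b + out a' b := by
  simp [out, add_vecMulVec]

theorem out_add_right (a b b' : Fin n → ℂ) : out a (b + b') = out a b + out a b' := by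
  simp [out, vecMulVec_add]

theorem out_sub_left (a a' b : Fin n → ℂ) : out (a - a') b = out a b - out a' b := by
  simp [out, sub_vecMulVec]

theorem out_sub_right (a b b' : Fin n → ℂ) : out a (b - b') = out a b - out a b' := by
  simp [out, vecMulVec_sub]

theorem skew_out (k u : Fin n → ℂ) : (out k u - out u k)ᴴ = -(out k u - out u k) := by
  rw [conjTranspose_sub, out_ct, out_ct, neg_sub]

theorem comm_out {X : Mat n} (hX : X.IsHermitian) {u : Fin n → ℂ} {μ : ℝ}
    (hu : X *ᵥ u = (μ : ℂ) • u) (k : Fin n → ℂ) :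
    (out k u - out u k) * X - X * (out k u - out u k) =
      -(out (X *ᵥ k - (μ : ℂ) • k) u + out u (X *ᵥ k - (μ : ℂ) • k)) := by
  simp only [Matrix.mul_sub, Matrix.sub_mul, mul_out, out_mul, hX.eq, hu, out_smul_left,
    out_smul_right, out_sub_left, out_sub_right]
  have : star (μ : ℂ) = μ := by simp
  rw [this]
  abel

theorem ip_S2 {R X : Mat n} (hR : R.IsHermitian) (hX : X.IsHermitian) {u : Fin n → ℂ} {μ : ℝ}
    (hu : X *ᵥ u = (μ : ℂ) • u) (hRu : R *ᵥ u = 0) (hn : br u u = 1) (k : Fin n → ℂ) :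
    ip R (S2 (out k u - out u k) X) = -2 * (br (R *ᵥ k) (X *ᵥ k - (μ : ℂ) • k)).re := by
  set K := out k u - out u k with hK
  have hKs : Kᴴ = -K := skew_out k u
  have e1 : R * K = out (R *ᵥ k) u := by
    rw [hK, Matrix.mul_sub, mul_out, mul_out, hRu]
    simp [out]
  have e2 : K * R = -out u (R *ᵥ k) := by
    rw [hK, Matrix.sub_mul, out_mul, out_mul, hR.eq, hRu]
    simp [out]
  have e3 : K *ᵥ u = k - br k u • u := by
    rw [hK, sub_mulVec, out_mulVec, out_mulVec, hn, one_smul]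
  have e4 : br u (R *ᵥ k) = 0 := by rw [br_mulVec, hR.eq, hRu, br_zero_left]
  have e4' : br (R *ᵥ k) u = 0 := by rw [← br_conj, e4]; simp
  have t1 : (R * (K * K * X)).trace = -br (X *ᵥ k) (R *ᵥ k) := by
    rw [← Matrix.mul_assoc, ← Matrix.mul_assoc, e1, out_mul, out_mul, trace_out, hKs, hX.eq,
      neg_mulVec, e3, mulVec_neg, mulVec_sub, mulVec_smul, hu, br_neg_left, br_sub_left,
      br_smul_left, br_smul_left, e4]
    simp
  have t2 : (R * (X * (K * K))).trace = -br (R *ᵥ k) (X *ᵥ k) := by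
    have : (R * (X * (K * K))).trace = (X * (K * (K * R))).trace := by
      rw [trace_mul_comm]; simp only [Matrix.mul_assoc]
    rw [this, e2, Matrix.mul_neg, Matrix.mul_neg, mul_out, mul_out, trace_neg, trace_out, e3,
      mulVec_sub, mulVec_smul, hu, br_sub_right, br_smul_right, br_smul_right, e4']
    simp
  have t3 : (R * (K * X * K)).trace = -(μ : ℂ) * br k (R *ᵥ k) := by
    rw [← Matrix.mul_assoc, ← Matrix.mul_assoc, e1, out_mul, out_mul, trace_out, hKs, hX.eq, hu,
      neg_mulVec, mulVec_smul, e3, br_neg_left, br_smul_left, br_sub_left, br_smul_left, e4]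
    simp
  unfold S2
  rw [ip_sub_right, ip_add_right, ip_smul_right]
  unfold ip
  rw [t1, t2, t3, br_sub_right, br_smul_right]
  have r1 := br_re_comm (X *ᵥ k) (R *ᵥ k)
  have r2 := br_re_comm k (R *ᵥ k)
  simp only [Complex.neg_re, Complex.sub_re, Complex.mul_re, Complex.ofReal_re, Complex.ofReal_im,
    Complex.neg_im, neg_zero, zero_mul, sub_zero, r1, r2]
  ring

end Pool.Agent.H709Z.BL
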