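import Mathlib
import Pool.Agent.H709Z.BLRot

set_option autoImplicit false

namespace Pool.Agent.H709Z.BL

open Matrix Filter Topology
open scoped ComplexOrder

variable {n : ℕ}

theorem lin_nonneg {A B δ : ℝ} (hδ : 0 < δ) (h : ∀ t, 0 < t → t ≤ δ → 0 ≤ t * A + t ^ 2 * B) :
    0 ≤ A := by
  have h1 := lim_nonneg (g := fun t => A + t * B) (by fun_prop) (by
    filter_upwards [Ioc_mem_nhdsGT hδ] with t ht
    have h2 := h t ht.1 ht.2
    have h3 : 0 ≤ t * (A + t * B) := by nlinarith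
    exact nonneg_of_mul_nonneg_right h3 ht.1 |> fun h => h)
  simpa using h1

theorem isClosed_psd : IsClosed {M : Mat n | M.PosSemidef} := by
  have : {M : Mat n | M.PosSemidef} = {M : Mat n | Mᴴ = M} ∩ ⋂ v, {M : Mat n | 0 ≤ q M v} := by
    ext M
    simp only [Set.mem_ofPred_eq, Set.mem_inter_iff, Set.mem_iInter, psd_iff]
    rfl
  rw [this]
  refine (isClosed_eq continuous_id.matrix_conjTranspose continuous_id).inter
    (isClosed_iInter (fun v => isClosed_le continuous_const ?_))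
  unfold q br
  fun_prop

theorem isClosed_isU : IsClosed {M : Mat n | IsU M} :=
  isClosed_eq (continuous_id.matrix_conjTranspose.matrix_mul continuous_id) continuous_const

theorem continuous_Cj (a : Fin n → ℝ) : Continuous (fun U : Mat n => Cj U a) := by
  unfold Cj
  fun_prop

/-- column of a matrix -/
noncomputable def col (U : Mat n) (i : Fin n) : Fin n → ℂ := U *ᵥ Pi.single i 1

theorem ct_col {U : Mat n} (hU : IsU U) (i : Fin n) : Uᴴ *ᵥ col U i = Pi.single i 1 := by
  rw [col, mulVec_mulVec, hU, one_mulVec]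

theorem nsq_col {U : Mat n} (hU : IsU U) (i : Fin n) : nsq (col U i) = 1 := by
  rw [col, nsq_unitary hU, nsq, Finset.sum_eq_single i] <;> simp +contextual

theorem Cj_col {U : Mat n} (hU : IsU U) (x : Fin n → ℝ) (i : Fin n) :
    Cj U x *ᵥ col U i = (x i : ℂ) • col U i := by
  rw [Cj, ← mulVec_mulVec, ct_col hU, ← mulVec_mulVec, col, ← mulVec_smul]
  congr 1
  funext j
  rw [D_mulVec]
  by_cases h : j = i
  · subst h; simp
  · simp [h]

theorem q_col {U : Mat n} (hU : IsU U) (x : Fin n → ℝ) (i : Fin n) :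
    q (Cj U x) (col U i) = x i := by
  rw [q, Cj_col hU, br_smul_right, br_self, nsq_col hU]
  simp

theorem trace_Cj {U : Mat n} (hU : IsU U) (x : Fin n → ℝ) : (Cj U x).trace.re = ∑ i, x i := by
  rw [Cj, trace_mul_cycle, hU, Matrix.one_mul, D, trace_diagonal]
  simp

theorem entry_le_trace {Y : Mat n} (hY : Y.PosSemidef) (i j : Fin n) : ‖Y i j‖ ≤ Y.trace.re := by
  obtain ⟨V, y, hV, rfl⟩ := spectral hY.1
  rw [trace_Cj hV, Cj_apply]
  refine le_trans (norm_sum_le _ _) (Finset.sum_le_sum (fun k _ => ?_))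
  have h1 : 0 ≤ y k := by rw [← q_col hV y k]; exact psd_q hY _
  rw [norm_mul, norm_mul, norm_star, Complex.norm_real, Real.norm_of_nonneg h1]
  have h2 := hV.entry i k
  have h3 := hV.entry j k
  have h4 := norm_nonneg (V i k)
  have h5 := norm_nonneg (V j k)
  calc ‖V i k‖ * y k * ‖V j k‖ ≤ 1 * y k * 1 := by gcongr
    _ = y k := by ring

theorem trace_re_nonneg {Y : Mat n} (hY : Y.PosSemidef) : 0 ≤ Y.trace.re :=
  (Complex.nonneg_iff.1 hY.trace_nonneg).1

/-- penalised objective -/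
noncomputable def Fo (Ct : Mat n) (ρ : ℝ) (X Y : Mat n) : ℝ :=
  ip (Ct - X - Y) (Ct - X - Y) + 2 * ρ * Y.trace.re

theorem exists_min {Ct : Mat n} (hC : Ct.IsHermitian) {ρ : ℝ} (hρ : 0 < ρ) {a b : Fin n → ℝ}
    {X0 Y0 : Mat n} (h1 : Dom X0 a) (h2 : Y0.PosSemidef) (h3 : Dom Y0 b) :
    ∃ X Y : Mat n, Dom X a ∧ Y.PosSemidef ∧ Dom Y b ∧
      ∀ X' Y', Dom X' a → Y'.PosSemidef → Dom Y' b → Fo Ct ρ X Y ≤ Fo Ct ρ X' Y' := by
  set F0 := Fo Ct ρ X0 Y0 with hF0
  let S : Set (Mat n × Mat n × Mat n × Mat n) := {p | IsU p.1 ∧ IsU p.2.1 ∧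
    (Cj p.1 a - p.2.2.1).PosSemidef ∧ p.2.2.2.PosSemidef ∧ (Cj p.2.1 b - p.2.2.2).PosSemidef ∧
    Fo Ct ρ p.2.2.1 p.2.2.2 ≤ F0}
  have hcont : Continuous (fun p : Mat n × Mat n × Mat n × Mat n => Fo Ct ρ p.2.2.1 p.2.2.2) := by
    unfold Fo ip
    fun_prop
  have hclosed : IsClosed S := by
    refine IsClosed.inter (isClosed_isU.preimage continuous_fst) (IsClosed.inter
      (isClosed_isU.preimage (continuous_fst.comp continuous_snd)) (IsClosed.inter ?_
      (IsClosed.inter ?_ (IsClosed.inter ?_ (isClosed_le hcont continuous_const)))))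
    · exact isClosed_psd.preimage (f := fun p : Mat n × Mat n × Mat n × Mat n => Cj p.1 a - p.2.2.1)
        (((continuous_Cj a).comp continuous_fst).sub (by fun_prop))
    · exact isClosed_psd.preimage (f := fun p : Mat n × Mat n × Mat n × Mat n => p.2.2.2)
        (by fun_prop)
    · exact isClosed_psd.preimage
        (f := fun p : Mat n × Mat n × Mat n × Mat n => Cj p.2.1 b - p.2.2.2)
        (((continuous_Cj b).comp (continuous_fst.comp continuous_snd)).sub (by fun_prop))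
  let c0 : ℝ := ∑ i, ∑ j, ‖Ct i j‖
  let B : Set (Mat n) := (Metric.closedBall (0 : ℂ) (1 + c0 + |F0 / (2 * ρ)| + |F0|)).matrix
  have hB : IsCompact B := (isCompact_closedBall _ _).matrix
  have hc0 : ∀ i j, ‖Ct i j‖ ≤ c0 := by
    intro i j
    refine le_trans ?_ (Finset.single_le_sum (f := fun i => ∑ j, ‖Ct i j‖)
      (fun _ _ => Finset.sum_nonneg (fun _ _ => norm_nonneg _)) (Finset.mem_univ i))
    exact Finset.single_le_sum (f := fun j => ‖Ct i j‖) (fun _ _ => norm_nonneg _)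
      (Finset.mem_univ j)
  have hc0' : 0 ≤ c0 := Finset.sum_nonneg (fun _ _ => Finset.sum_nonneg (fun _ _ => norm_nonneg _))
  have ha1 := abs_nonneg (F0 / (2 * ρ))
  have ha2 := abs_nonneg F0
  have hsub : S ⊆ B ×ˢ B ×ˢ B ×ˢ B := by
    rintro ⟨U, V, X, Y⟩ ⟨hU, hV, hX, hY, hYb, hF⟩
    simp only at hU hV hX hY hYb hF
    have hXh : X.IsHermitian := Dom.herm ⟨U, hU, hX⟩
    have hRh : (Ct - X - Y).IsHermitian := (hC.sub hXh).sub hY.1
    have e1 := ip_self_nonneg hRh
    have e2 := trace_re_nonneg hY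
    unfold Fo at hF
    have e3 : Y.trace.re ≤ |F0 / (2 * ρ)| := by
      refine le_trans ?_ (le_abs_self _)
      rw [le_div_iff₀ (by linarith)]
      linarith
    have e4 : ip (Ct - X - Y) (Ct - X - Y) ≤ |F0| := by
      refine le_trans ?_ (le_abs_self _)
      nlinarith
    refine ⟨fun i j => ?_, fun i j => ?_, fun i j => ?_, fun i j => ?_⟩ <;>
      rw [mem_closedBall_zero_iff]
    · have := hU.entry i j
      simp only at *
      linarith
    · have := hV.entry i j
      simp only at *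
      linarith
    · have e5 := normSq_le_ip hRh i j
      rw [Complex.normSq_eq_norm_sq] at e5
      have e6 : ‖(Ct - X - Y) i j‖ ≤ 1 + |F0| := by nlinarith [norm_nonneg ((Ct - X - Y) i j)]
      have e7 : X i j = Ct i j - Y i j - (Ct - X - Y) i j := by simp
      have e8 := entry_le_trace hY i j
      have e9 := hc0 i j
      have e10 := norm_sub_le (Ct i j - Y i j) ((Ct - X - Y) i j)
      have e11 := norm_sub_le (Ct i j) (Y i j)
      simp only at *
      rw [e7]
      linarith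
    · have e8 := entry_le_trace hY i j
      simp only at *
      linarith
  have hS : IsCompact S := (hB.prod (hB.prod (hB.prod hB))).of_isClosed_subset hclosed hsub
  obtain ⟨U0, hU0, hU0'⟩ := h1
  obtain ⟨V0, hV0, hV0'⟩ := h3
  have hne : S.Nonempty := ⟨(U0, V0, X0, Y0), hU0, hV0, hU0', h2, hV0', le_rfl⟩
  obtain ⟨⟨U, V, X, Y⟩, ⟨hU, hV, hX, hY, hYb, hF⟩, hmin⟩ :=
    hS.exists_isMinOn hne hcont.continuousOn
  refine ⟨X, Y, ⟨U, hU, hX⟩, hY, ⟨V, hV, hYb⟩, ?_⟩
  rintro X' Y' ⟨U', hU', hX'⟩ hY' ⟨V', hV', hYb'⟩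
  by_cases hle : Fo Ct ρ X' Y' ≤ F0
  · exact hmin (a := (U', V', X', Y')) ⟨hU', hV', hX', hY', hYb', hle⟩
  · exact le_trans hF (le_of_lt (not_le.1 hle))

theorem q_le_of_ip {R : Mat n} (hR : R.IsHermitian) {ε : ℝ} (hε : 0 < ε) (h : ip R R ≤ ε ^ 2)
    (v : Fin n → ℂ) : q R v ≤ ε * nsq v := by
  by_cases hv : v = 0
  · simp [hv, q, br, nsq]
  have hpos := nsq_pos hv
  have h1 : (R - (ε / nsq v) • out v v).IsHermitian := by
    refine hR.sub ?_
    unfold IsHermitian
    rw [conjTranspose_smul, out_ct]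
    simp
  have h2 := ip_self_nonneg h1
  have h3 : ip (out v v) (out v v) = nsq v ^ 2 := by
    rw [ip_out, out_mulVec, br_smul_right, br_self]
    simp [sq]
  have h4 : ip R (out v v) = q R v := ip_out R v v
  rw [ip_sub_self, ip_smul_self, ip_smul_right, h3, h4] at h2
  have h5 : (ε / nsq v) ^ 2 * nsq v ^ 2 = ε ^ 2 := by field_simp
  rw [h5] at h2
  have h6 : ε / nsq v * q R v ≤ ε ^ 2 := by linarith
  rw [div_mul_eq_mul_div, div_le_iff₀ hpos] at h6
  nlinarith

theorem psd_sub_out {Y : Mat n} (hY : Y.PosSemidef) (l : Fin n → ℂ) {t : ℝ} (ht : 0 < t)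
    (ht' : t * q Y l ≤ 1) : (Y - t • out (Y *ᵥ l) (Y *ᵥ l)).PosSemidef := by
  refine psd_iff.2 ⟨hY.1.sub ?_, fun w => ?_⟩
  · unfold IsHermitian
    rw [conjTranspose_smul, out_ct]
    simp
  rw [q_sub, q_smul, q_out]
  set β := br (Y *ᵥ l) w with hβ
  have h1 := psd_q hY (w - ((t : ℂ) * β) • l)
  rw [q_sub_vec hY.1] at h1
  have h2 : (br w (Y *ᵥ (((t : ℂ) * β) • l))).re = t * Complex.normSq β := by
    rw [mulVec_smul, br_smul_right, ← br_conj, ← hβ, Complex.normSq_apply]
    simp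
    ring
  have h3 : q Y (((t : ℂ) * β) • l) = t ^ 2 * Complex.normSq β * q Y l := by
    rw [q, mulVec_smul, br_smul_left, br_smul_right, ← mul_assoc]
    have : star ((t : ℂ) * β) * ((t : ℂ) * β) = ((t ^ 2 * Complex.normSq β : ℝ) : ℂ) := by
      push_cast
      rw [Complex.normSq_eq_conj_mul_self]
      simp
      ring
    rw [this, Complex.re_ofReal_mul]
    rfl
  rw [h2, h3] at h1
  have h4 := Complex.normSq_nonneg β
  have h5 : t ^ 2 * Complex.normSq β * q Y l ≤ t * Complex.normSq β := by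
    have : t ^ 2 * Complex.normSq β * q Y l = (t * Complex.normSq β) * (t * q Y l) := by ring
    rw [this]
    exact mul_le_of_le_one_right (mul_nonneg ht.le h4) ht'
  linarith

theorem Cj_single {U : Mat n} (x : Fin n → ℝ) (i : Fin n) (δ : ℝ) :
    Cj U (fun j => x j + if j = i then δ else 0) = Cj U x + δ • out (col U i) (col U i) := by
  rw [← Cj_add]
  congr 1
  ext k l
  rw [Cj_apply, Finset.sum_eq_single i]
  · simp [out, col, vecMulVec_apply]
    ring
  · intro j _ hj
    simp [hj]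
  · simp

end Pool.Agent.H709Z.BL
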