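import Mathlib
import Pool.Agent.H709Z.BLMin

set_option autoImplicit false

namespace Pool.Agent.H709Z.BL

open Matrix Filter Topology
open scoped ComplexOrder

variable {n : ℕ}

theorem cnt_anti (x : Fin n → ℝ) {s t : ℝ} (h : s ≤ t) : cnt x t ≤ cnt x s := by
  unfold cnt
  apply Finset.card_le_card
  intro i hi
  simp only [Finset.mem_filter, Finset.mem_univ, true_and] at hi ⊢
  linarith

theorem herm_smul_one (c : ℝ) : (c • (1 : Mat n)).IsHermitian := by
  unfold IsHermitian
  rw [conjTranspose_smul, conjTranspose_one]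
  simp

/-- the inertia argument at a minimiser -/
theorem inertia {U R Y : Mat n} (hU : IsU U) {x : Fin n → ℝ} (hR : R.PosSemidef)
    (hY : Y.IsHermitian) (hcomm : R * Y = Y * R) (hker : ∀ l, R *ᵥ l = 0 → Y *ᵥ l = 0)
    (i0 : Fin n) (hslack : ∀ i, x i = x i0 → R *ᵥ col U i = 0)
    (h : ∀ W W', IsU W → IsU W' → ip R R ≤
      ip (R - ((W * Cj U x * Wᴴ - Cj U x) + (W' * Y * W'ᴴ - Y)))
      (R - ((W * Cj U x * Wᴴ - Cj U x) + (W' * Y * W'ᴴ - Y)))) :
    ∃ G : Mat n, ∀ v, (∀ j, x i0 < x j → (G *ᵥ v) j = 0) →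
      q (Cj U x) v + q Y v ≤ x i0 * nsq v := by
  set μ := x i0 with hμ
  set M := Cj U (fun i => x i - μ) with hM
  set Mp := Cj U (fun i => (x i - μ)⁻¹) with hMp
  have hMh : Mᴴ = M := Cj_herm _ _
  have hMph : Mpᴴ = Mp := Cj_herm _ _
  have hXM : M = Cj U x - μ • (1 : Mat n) := by rw [← Cj_const hU, Cj_sub]
  have hMv : ∀ k, Cj U x *ᵥ k - (μ : ℂ) • k = M *ᵥ k := by
    intro k
    rw [hXM, sub_mulVec, smul_mulVec, one_mulVec]
    rfl
  have hYP : Y * Cj U (fun i => if x i = μ then 1 else 0) = 0 := by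
    have : Y * U * D (fun i => if x i = μ then 1 else 0) = 0 := by
      ext k j
      rw [D, mul_diagonal]
      by_cases hj : x j = μ
      · have h1 := congrFun (hker _ (hslack j hj)) k
        rw [col, mulVec_mulVec] at h1
        simp only [mulVec_single_one, Pi.zero_apply] at h1
        have h2 : (Y * U) k j = 0 := h1
        simp [h2]
      · simp [hj]
    rw [Cj, ← Matrix.mul_assoc, ← Matrix.mul_assoc, this, Matrix.zero_mul]
  have hMpM : Mp * M = 1 - Cj U (fun i => if x i = μ then 1 else 0) := by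
    have h1 : (1 : Mat n) = Cj U (fun _ => 1) := by rw [Cj_const hU, one_smul]
    rw [hMp, hM, Cj_mul hU, h1, Cj_sub]
    congr 1
    funext i
    by_cases hi : x i = μ
    · simp [hi]
    · have : x i - μ ≠ 0 := sub_ne_zero.2 hi
      simp [hi, this]
  have hYMpM : Y * Mp * M = Y := by
    rw [Matrix.mul_assoc, hMpM, Matrix.mul_sub, hYP, Matrix.mul_one, sub_zero]
  have hMMpY : M * Mp * Y = Y := by
    have := congrArg conjTranspose hYMpM
    rwa [conjTranspose_mul, conjTranspose_mul, hMh, hMph, hY.eq, ← Matrix.mul_assoc] at this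
  set T := Y + Y * Mp * Y with hT
  have hTh : T.IsHermitian := by
    refine hY.add ?_
    have := isHermitian_mul_mul_conjTranspose Y (Cj_herm U (fun i => (x i - μ)⁻¹))
    rwa [hY.eq] at this
  have hTpsd : T.PosSemidef := by
    obtain ⟨W, θ, hW, hTW⟩ := spectral hTh
    rw [hTW]
    apply Cj_psd
    intro j
    by_contra hneg
    push Not at hneg
    set l := col W j with hl
    have hTl : T *ᵥ l = (θ j : ℂ) • l := by rw [hTW]; exact Cj_col hW θ j
    set u := col U i0 with hu
    have hu1 : br u u = 1 := by rw [br_self, nsq_col hU]; simp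
    have hXu : Cj U x *ᵥ u = (μ : ℂ) • u := Cj_col hU x i0
    have hRu : R *ᵥ u = 0 := hslack i0 rfl
    have hYu : Y *ᵥ u = ((0 : ℝ) : ℂ) • u := by rw [hker u hRu]; simp
    set k := -(Mp *ᵥ (Y *ᵥ l)) with hk
    have hMk : M *ᵥ k = -(Y *ᵥ l) := by
      rw [hk, mulVec_neg, mulVec_mulVec, mulVec_mulVec, hMMpY]
    have h1 := rot2 (skew_out k u) (skew_out l u) (by
      rw [comm_out (Cj_herm U x) hXu, comm_out hY hYu, hMv, hMk]
      simp [out]
      abel) h
    rw [ip_S2 hR.1 (Cj_herm U x) hXu hRu hu1, ip_S2 hR.1 hY hYu hRu hu1, hMv, hMk] at h1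
    have h2 : (br (R *ᵥ k) (-(Y *ᵥ l))).re = (br (R *ᵥ l) ((Y * Mp * Y) *ᵥ l)).re := by
      rw [hk, mulVec_neg, br_neg_left, br_neg_right, neg_neg, br_mulVec, hY.eq, mulVec_mulVec,
        ← hcomm, ← mulVec_mulVec, br_re_comm, br_mulVec, hR.1.eq]
      simp only [mulVec_mulVec, Matrix.mul_assoc]
    have h3 : (br (R *ᵥ l) (T *ᵥ l)).re = θ j * q R l := by
      rw [hTl, br_smul_right, Complex.re_ofReal_mul, br_re_comm]
      rfl
    rw [hT, add_mulVec, br_add_right, Complex.add_re] at h3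
    simp only [Complex.ofReal_zero, zero_smul, sub_zero] at h1
    rw [h2] at h1
    have h4 : q R l ≤ 0 := by
      by_contra h5
      push Not at h5
      nlinarith
    have h5 : Y *ᵥ l = 0 := hker l (psd_zero hR h4)
    have h6 : T *ᵥ l = 0 := by
      rw [hT, add_mulVec, ← mulVec_mulVec, h5]; simp
    rw [h6] at hTl
    have h7 : l = 0 := by
      rcases smul_eq_zero.1 hTl.symm with h8 | h8
      · exact absurd (Complex.ofReal_eq_zero.1 h8) (ne_of_lt hneg)
      · exact h8
    have h8 := nsq_col hW j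
    rw [← hl, h7] at h8
    simp [nsq] at h8
  refine ⟨Uᴴ * (1 + Mp * Y), fun v hv => ?_⟩
  have h1 : q M ((1 + Mp * Y) *ᵥ v) ≤ 0 := by
    rw [hM, q_Cj, mulVec_mulVec]
    apply Finset.sum_nonpos
    intro j _
    by_cases hj : μ < x j
    · rw [hv j hj]; simp
    · exact mul_nonpos_of_nonpos_of_nonneg (by linarith) (Complex.normSq_nonneg _)
  have h2 : (1 + Mp * Y)ᴴ = 1 + Y * Mp := by
    rw [conjTranspose_add, conjTranspose_one, conjTranspose_mul, hMph, hY.eq]
  have h3 := q_conj (1 + Mp * Y)ᴴ M v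
  rw [conjTranspose_conjTranspose, h2] at h3
  have h4 : (1 + Y * Mp) * M * (1 + Mp * Y) = M + Y + T := by
    rw [Matrix.add_mul, Matrix.one_mul, hYMpM, Matrix.mul_add, Matrix.mul_one, Matrix.add_mul,
      ← Matrix.mul_assoc, hMMpY, hT, Matrix.mul_assoc]
  rw [h4, q_add, q_add, hXM, q_sub, q_smul, q_one, ← hXM] at h3
  have h5 := psd_q hTpsd v
  linarith

theorem approx {Q : Mat n} (hQ : IsU Q) {g a b : Fin n → ℝ} {X0 Y0 : Mat n}
    (hsum : X0 + Y0 = Cj Q g) (h1 : Dom X0 a) (h2 : Y0.PosSemidef) (h3 : Dom Y0 b)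
    (hag : ∀ t, cnt a t ≤ cnt g t) {ε : ℝ} (hε : 0 < ε) :
    ∃ U V, IsU U ∧ IsU V ∧ (Cj Q g - Cj U a + (2 * ε) • (1 : Mat n)).PosSemidef ∧
      (Cj V b - (Cj Q g - Cj U a) + (2 * ε) • (1 : Mat n)).PosSemidef := by
  classical
  obtain ⟨ρ, hρ, hρε, hρ2⟩ : ∃ ρ : ℝ, 0 < ρ ∧ ρ ≤ ε ∧ ρ ^ 2 * n + 2 * ρ * Y0.trace.re ≤ ε ^ 2 := by
    have e1 := trace_re_nonneg h2
    have e2 : (0 : ℝ) ≤ n := Nat.cast_nonneg n
    have e3 : 0 < (n : ℝ) + 2 * Y0.trace.re + 1 := by linarith
    refine ⟨min (min 1 ε) (ε ^ 2 / (n + 2 * Y0.trace.re + 1)),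
      lt_min (lt_min one_pos hε) (by positivity), le_trans (min_le_left _ _) (min_le_right _ _), ?_⟩
    set ρ := min (min 1 ε) (ε ^ 2 / (n + 2 * Y0.trace.re + 1)) with hρ
    have f0 : 0 < ρ := lt_min (lt_min one_pos hε) (by positivity)
    have f1 : ρ ≤ 1 := le_trans (min_le_left _ _) (min_le_left _ _)
    have f2 : ρ ≤ ε ^ 2 / (n + 2 * Y0.trace.re + 1) := min_le_right _ _
    rw [le_div_iff₀ e3] at f2
    have f3 : ρ ^ 2 * n ≤ ρ * n := by
      apply mul_le_mul_of_nonneg_right _ e2
      nlinarith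
    nlinarith
  set C := Cj Q g with hC
  have hCt : (C + ρ • (1 : Mat n)).IsHermitian := (Cj_herm Q g).add (herm_smul_one ρ)
  obtain ⟨X, Y, hX, hY, hYb, hmin⟩ := exists_min hCt hρ h1 h2 h3
  set R := C + ρ • (1 : Mat n) - X - Y with hR
  have hRh : R.IsHermitian := (hCt.sub hX.herm).sub hY.1
  have hpert : ∀ ΔX ΔY : Mat n, Dom (X + ΔX) a → (Y + ΔY).PosSemidef → Dom (Y + ΔY) b →
      ip R R ≤ ip (R - (ΔX + ΔY)) (R - (ΔX + ΔY)) + 2 * ρ * ΔY.trace.re := by
    intro ΔX ΔY e1 e2 e3
    have := hmin _ _ e1 e2 e3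
    unfold Fo at this
    have e4 : C + ρ • (1 : Mat n) - (X + ΔX) - (Y + ΔY) = R - (ΔX + ΔY) := by
      rw [hR]; abel
    rw [e4, ← hR, trace_add, Complex.add_re] at this
    linarith
  have hsmall : ip R R ≤ ε ^ 2 := by
    have := hmin _ _ h1 h2 h3
    unfold Fo at this
    have e4 : C + ρ • (1 : Mat n) - X0 - Y0 = ρ • (1 : Mat n) := by
      rw [← hsum]; abel
    have e5 : ip (1 : Mat n) 1 = n := by simp [ip]
    rw [e4, ip_smul_self, e5, ← hR] at this
    have e6 := trace_re_nonneg hY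
    nlinarith
  have hRε := q_le_of_ip hRh hε hsmall
  have hRpsd : R.PosSemidef := by
    refine psd_iff.2 ⟨hRh, fun w => ?_⟩
    have := lin_nonneg (A := 2 * q R w) (B := ip (out w w) (out w w)) one_pos (by
      intro t ht _
      have e1 := hpert ((-t) • out w w) 0 (by
        have := hX.sub ((out_psd w).smul ht.le)
        rwa [neg_smul, ← sub_eq_add_neg]) (by rwa [add_zero]) (by rwa [add_zero])
      rw [add_zero, ip_sub_self R, ip_smul_self, ip_smul_right, ip_out] at e1
      simp only [trace_zero, Complex.zero_re, mul_zero, add_zero] at e1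
      unfold q
      nlinarith)
    linarith
  have hrot : ∀ W W', IsU W → IsU W' → ip R R ≤
      ip (R - ((W * X * Wᴴ - X) + (W' * Y * W'ᴴ - Y)))
      (R - ((W * X * Wᴴ - X) + (W' * Y * W'ᴴ - Y))) := by
    intro W W' hW hW'
    have e1 := hpert (W * X * Wᴴ - X) (W' * Y * W'ᴴ - Y) (by
      rw [add_sub_cancel]; exact hX.conj hW) (by
      rw [add_sub_cancel]; exact hY.mul_mul_conjTranspose_same W') (by
      rw [add_sub_cancel]; exact hYb.conj hW')
    have e2 : (W' * Y * W'ᴴ - Y).trace = 0 := by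
      rw [trace_sub, trace_mul_cycle, hW', Matrix.one_mul, sub_self]
    rw [e2] at e1
    simpa using e1
  have hcomm : R * Y = Y * R := by
    apply rot1 hRh hY.1
    intro W hW
    have := hrot 1 W (by simp [IsU]) hW
    simpa using this
  have hker : ∀ l, R *ᵥ l = 0 → Y *ᵥ l = 0 := by
    intro l hl
    have e0 := psd_q hY l
    have e1 : q R (Y *ᵥ l) = 0 := by
      rw [q, mulVec_mulVec, hcomm, ← mulVec_mulVec, hl, mulVec_zero, br_zero_right]
      simp
    have := lin_nonneg (A := -(2 * ρ * nsq (Y *ᵥ l)))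
      (B := ip (out (Y *ᵥ l) (Y *ᵥ l)) (out (Y *ᵥ l) (Y *ᵥ l))) (δ := 1 / (q Y l + 1))
      (by positivity) (by
      intro t ht ht'
      rw [le_div_iff₀ (by linarith)] at ht'
      have e2 := hpert 0 ((-t) • out (Y *ᵥ l) (Y *ᵥ l)) (by rwa [add_zero]) (by
        have := psd_sub_out hY l ht (by nlinarith)
        rwa [neg_smul, ← sub_eq_add_neg]) (by
        have := hYb.sub ((out_psd (Y *ᵥ l)).smul ht.le)
        rwa [neg_smul, ← sub_eq_add_neg])
      rw [zero_add, ip_sub_self R, ip_smul_self, ip_smul_right, ip_out, trace_smul, trace_out,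
        br_self] at e2
      unfold q at e1
      rw [e1] at e2
      simp only [Complex.real_smul, Complex.mul_re, Complex.ofReal_re, Complex.ofReal_im,
        mul_zero, sub_zero] at e2
      nlinarith)
    apply nsq_eq_zero
    have e3 := nsq_nonneg (Y *ᵥ l)
    nlinarith
  obtain ⟨U, x, hU, hXU⟩ := spectral hX.herm
  have hxa : ∀ t, cnt x t ≤ cnt a t := by
    rw [hXU] at hX
    exact hX.cnt hU
  have hax : ∀ t, cnt a t ≤ cnt x (t - ε) := by
    intro t
    by_contra hcon
    push Not at hcon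
    have hne : (Finset.univ.filter (fun i => x i ≤ t - ε)).Nonempty := by
      by_contra h4
      rw [Finset.not_nonempty_iff_eq_empty, Finset.filter_eq_empty_iff] at h4
      have : cnt a t ≤ cnt x (t - ε) := by
        unfold cnt
        apply Finset.card_le_card
        intro i _
        simp only [Finset.mem_filter, Finset.mem_univ, true_and]
        exact not_le.1 (h4 (Finset.mem_univ i))
      omega
    obtain ⟨i0, hi0, hmax⟩ := Finset.exists_max_image _ x hne
    simp only [Finset.mem_filter, Finset.mem_univ, true_and] at hi0 hmax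
    have hcnt : cnt x (x i0) = cnt x (t - ε) := by
      unfold cnt
      congr 1
      ext j
      simp only [Finset.mem_filter, Finset.mem_univ, true_and]
      constructor
      · intro hj
        by_contra h5
        have := hmax j (not_lt.1 h5)
        linarith
      · intro hj; linarith
    have hslack : ∀ i, x i = x i0 → R *ᵥ col U i = 0 := by
      intro i hi
      apply psd_zero hRpsd
      have := lin_nonneg (A := -(2 * q R (col U i)))
        (B := ip (out (col U i) (col U i)) (out (col U i) (col U i))) hε (by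
        intro δ hδ hδ'
        have e2 := hpert (δ • out (col U i) (col U i)) 0 (by
          rw [hXU, ← Cj_single]
          apply dom_of_cnt hU
          intro s
          by_cases hs : x i ≤ s ∧ s < x i + δ
          · have f1 : cnt (fun j => x j + if j = i then δ else 0) s ≤ cnt x s + 1 := by
              unfold cnt
              refine le_trans (Finset.card_le_card (t := insert i
                (Finset.univ.filter (fun j => s < x j))) ?_) (Finset.card_insert_le _ _)
              intro j hj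
              simp only [Finset.mem_filter, Finset.mem_univ, true_and, Finset.mem_insert] at hj ⊢
              by_cases hji : j = i
              · exact Or.inl hji
              · right; simpa [hji] using hj
            have f2 : cnt x s ≤ cnt x (x i0) := cnt_anti x (by rw [← hi]; exact hs.1)
            have f3 : cnt a t ≤ cnt a s := cnt_anti a (by linarith [hs.2])
            omega
          · refine le_trans ?_ (hxa s)
            unfold cnt
            apply Finset.card_le_card
            intro j hj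
            simp only [Finset.mem_filter, Finset.mem_univ, true_and] at hj ⊢
            by_cases hji : j = i
            · subst hji
              simp only [if_true] at hj
              by_contra h6
              exact hs ⟨not_lt.1 h6, hj⟩
            · simpa [hji] using hj) (by rwa [add_zero]) (by rwa [add_zero])
        rw [add_zero, ip_sub_self R, ip_smul_self, ip_smul_right, ip_out] at e2
        simp only [trace_zero, Complex.zero_re, mul_zero, add_zero] at e2
        unfold q
        nlinarith)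
      linarith
    obtain ⟨G, hG⟩ := inertia hU hRpsd hY.1 hcomm hker i0 hslack (by rw [← hXU]; exact hrot)
    have h7 : cnt g t ≤ cnt x (x i0) := by
      apply cnt_le hQ g G _ t
      intro v hv
      have f1 := hG v (fun j hj => hv j (by simp [hj]))
      have f2 := hRε v
      have f3 : q R v = q C v + ρ * nsq v - q X v - q Y v := by
        rw [hR, q_sub, q_sub, q_add, q_smul, q_one]
      have f4 := nsq_nonneg v
      rw [← hXU] at f1
      rw [← hC]
      nlinarith
    have := hag t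
    omega
  obtain ⟨σ, hσ⟩ := exists_perm_two hxa hax
  obtain ⟨V, hV, hVb⟩ := hYb
  have hU' := hU.perm σ
  have hXU' : X = Cj (U.submatrix id σ) (x ∘ σ) := by rw [Cj_perm]; exact hXU
  set U' := U.submatrix id σ
  have p1 : (Cj U' a - X).PosSemidef := by
    rw [hXU', Cj_sub]
    exact Cj_psd _ (fun i => by simpa using (hσ i).1)
  have p2 : (X + ε • (1 : Mat n) - Cj U' a).PosSemidef := by
    rw [hXU', ← Cj_const hU', Cj_add, Cj_sub]
    exact Cj_psd _ (fun i => by simpa using (hσ i).2)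
  have p3 : (ε • (1 : Mat n) - R).PosSemidef :=
    psd_iff.2 ⟨(herm_smul_one ε).sub hRh, fun v => by
      rw [q_sub, q_smul, q_one]; linarith [hRε v]⟩
  refine ⟨U', V, hU', hV, ?_, ?_⟩
  · have := ((p2.add hY).add hRpsd).add (PosSemidef.one.smul (sub_nonneg.2 hρε))
    convert this using 1
    rw [hR]
    module
  · have := ((hVb.add p1).add p3).add (PosSemidef.one.smul (add_pos hε hρ).le)
    convert this using 1
    rw [hR]
    module

theorem psd_of_eps {M : Mat n}
    (h : ∀ m : ℕ, (M + (2 * (1 / ((m : ℝ) + 1))) • (1 : Mat n)).PosSemidef) : M.PosSemidef := by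
  have h1 : Tendsto (fun m : ℕ => M + (2 * (1 / ((m : ℝ) + 1))) • (1 : Mat n)) atTop
      (𝓝 (M + (2 * (0 : ℝ)) • (1 : Mat n))) :=
    tendsto_const_nhds.add ((tendsto_one_div_add_atTop_nhds_zero_nat.const_mul 2).smul_const _)
  have h2 := isClosed_psd.mem_of_tendsto h1 (Eventually.of_forall h)
  simpa using h2

theorem exact_sol {Q : Mat n} (hQ : IsU Q) {g a b : Fin n → ℝ} {X0 Y0 : Mat n}
    (hsum : X0 + Y0 = Cj Q g) (h1 : Dom X0 a) (h2 : Y0.PosSemidef) (h3 : Dom Y0 b)
    (hag : ∀ t, cnt a t ≤ cnt g t) :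
    ∃ U V, IsU U ∧ IsU V ∧ (Cj Q g - Cj U a).PosSemidef ∧
      (Cj V b - (Cj Q g - Cj U a)).PosSemidef := by
  let S : ℕ → Set (Mat n × Mat n) := fun m => {p | IsU p.1 ∧ IsU p.2 ∧
    (Cj Q g - Cj p.1 a + (2 * (1 / ((m : ℝ) + 1))) • (1 : Mat n)).PosSemidef ∧
    (Cj p.2 b - (Cj Q g - Cj p.1 a) + (2 * (1 / ((m : ℝ) + 1))) • (1 : Mat n)).PosSemidef}
  have hclosed : ∀ m, IsClosed (S m) := by
    intro m
    refine IsClosed.inter (isClosed_isU.preimage continuous_fst) (IsClosed.inter
      (isClosed_isU.preimage continuous_snd) (IsClosed.inter ?_ ?_))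
    · exact isClosed_psd.preimage (f := fun p : Mat n × Mat n =>
        Cj Q g - Cj p.1 a + (2 * (1 / ((m : ℝ) + 1))) • (1 : Mat n))
        ((continuous_const.sub ((continuous_Cj a).comp continuous_fst)).add continuous_const)
    · exact isClosed_psd.preimage (f := fun p : Mat n × Mat n =>
        Cj p.2 b - (Cj Q g - Cj p.1 a) + (2 * (1 / ((m : ℝ) + 1))) • (1 : Mat n))
        ((((continuous_Cj b).comp continuous_snd).sub
          (continuous_const.sub ((continuous_Cj a).comp continuous_fst))).add continuous_const)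
  have hB : IsCompact ((Metric.closedBall (0 : ℂ) 1).matrix : Set (Mat n)) :=
    (isCompact_closedBall _ _).matrix
  have hcomp : IsCompact (S 0) := by
    refine (hB.prod hB).of_isClosed_subset (hclosed 0) ?_
    rintro ⟨U, V⟩ ⟨hU, hV, -⟩
    exact ⟨fun i j => mem_closedBall_zero_iff.2 (hU.entry i j),
      fun i j => mem_closedBall_zero_iff.2 (hV.entry i j)⟩
  have hmono : ∀ m, S (m + 1) ⊆ S m := by
    rintro m ⟨U, V⟩ ⟨hU, hV, e1, e2⟩
    have hle : 0 ≤ 2 * (1 / ((m : ℝ) + 1)) - 2 * (1 / (((m + 1 : ℕ) : ℝ) + 1)) := by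
      have : 1 / (((m + 1 : ℕ) : ℝ) + 1) ≤ 1 / ((m : ℝ) + 1) := by
        apply one_div_le_one_div_of_le
        · positivity
        · push_cast; linarith
      linarith
    refine ⟨hU, hV, ?_, ?_⟩
    · have := e1.add (PosSemidef.one.smul hle)
      convert this using 1
      module
    · have := e2.add (PosSemidef.one.smul hle)
      convert this using 1
      module
  have hne : ∀ m, (S m).Nonempty := by
    intro m
    obtain ⟨U, V, hU, hV, e1, e2⟩ := approx hQ hsum h1 h2 h3 hag
      (ε := 1 / ((m : ℝ) + 1)) (by positivity)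
    exact ⟨(U, V), hU, hV, e1, e2⟩
  obtain ⟨⟨U, V⟩, hp⟩ := IsCompact.nonempty_iInter_of_sequence_nonempty_isCompact_isClosed S hmono
    hne hcomp hclosed
  rw [Set.mem_iInter] at hp
  exact ⟨U, V, (hp 0).1, (hp 0).2.1, psd_of_eps (fun m => (hp m).2.2.1),
    psd_of_eps (fun m => (hp m).2.2.2)⟩

theorem main {f : ℝ → ℝ} (hc : ConcaveOn ℝ (Set.Ici 0) f) (hm : MonotoneOn f (Set.Ici 0))
    (h0 : 0 ≤ f 0) {Q UA UB : Mat n} (hQ : IsU Q) (hUA : IsU UA) (hUB : IsU UB)
    {γ α β : Fin n → ℝ} (hγ : ∀ i, 0 ≤ γ i) (hα : ∀ i, 0 ≤ α i) (hβ : ∀ i, 0 ≤ β i)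
    (hsum : Cj UA α + Cj UB β = Cj Q γ) :
    ∃ U V, IsU U ∧ IsU V ∧
      (Cj Q (fun i => f (γ i)) - U * Cj UA (fun i => f (α i)) * Uᴴ).PosSemidef ∧
      (V * Cj UB (fun i => f (β i)) * Vᴴ -
        (Cj Q (fun i => f (γ i)) - U * Cj UA (fun i => f (α i)) * Uᴴ)).PosSemidef := by
  let g : ℝ → ℝ := fun t => f t - f 0
  have hgc : ConcaveOn ℝ (Set.Ici 0) g := hc.sub (convexOn_const _ (convex_Ici 0))
  have hgm : MonotoneOn g (Set.Ici 0) := fun x hx y hy hxy => by
    have := hm hx hy hxy
    simp only [g]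
    linarith
  have hg0 : g 0 = 0 := by simp [g]
  have hA : (Cj Q γ - Cj UA α).PosSemidef := by
    rw [← hsum, add_sub_cancel_left]; exact Cj_psd _ hβ
  have hB : (Cj Q γ - Cj UB β).PosSemidef := by
    rw [← hsum, add_sub_cancel_right]; exact Cj_psd _ hα
  have d1 := ab_dom hgc hgm hg0 hQ hUA hγ hα hA
  have d2 := ab_dom hgc hgm hg0 hQ hUB hγ hβ hB
  set H := Cj Q (fun i => Real.sqrt (g (γ i) / γ i)) with hH
  have hHh : Hᴴ = H := Cj_herm _ _
  have hs : H * Cj UA α * H + H * Cj UB β * H = Cj Q (fun i => g (γ i)) := by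
    rw [← Matrix.add_mul, ← Matrix.mul_add, hsum, hH, Cj_mul hQ, Cj_mul hQ]
    congr 1
    funext i
    have e1 : 0 ≤ g (γ i) := by
      have := hgm (le_refl (0 : ℝ)) (hγ i) (hγ i)
      linarith
    rw [mul_right_comm, Real.mul_self_sqrt (div_nonneg e1 (hγ i))]
    by_cases hi : γ i = 0
    · rw [hi, hg0]; simp
    · field_simp
  have hYpsd : (H * Cj UB β * H).PosSemidef := by
    have := (Cj_psd UB hβ).mul_mul_conjTranspose_same H
    rwa [hHh] at this
  have hag : ∀ t, cnt (fun i => g (α i)) t ≤ cnt (fun i => g (γ i)) t := by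
    obtain ⟨σ, hσ⟩ := exists_perm (cnt_le_of_le hUA hQ hA)
    intro t
    unfold cnt
    apply Finset.card_le_card_of_injOn σ.symm
    · intro i hi
      simp only [Finset.coe_filter, Finset.mem_univ, true_and, Set.mem_ofPred_eq] at hi ⊢
      have e1 := hσ (σ.symm i)
      rw [Equiv.apply_symm_apply] at e1
      exact lt_of_lt_of_le hi (hgm (hα i) (hγ _) e1)
    · exact σ.symm.injective.injOn
  obtain ⟨U, V, hU, hV, e1, e2⟩ := exact_sol hQ hs d1 hYpsd d2 hag
  have k1 : ∀ {W : Mat n}, IsU W → ∀ x : Fin n → ℝ,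
      Cj W (fun i => f (x i)) = Cj W (fun i => g (x i)) + f 0 • (1 : Mat n) := by
    intro W hW x
    rw [← Cj_const hW, Cj_add]
    congr 1
    funext i
    simp [g]
  have k2 : ∀ {W W' : Mat n}, IsU W' → W * W'ᴴ * W' = W := by
    intro W W' hW'
    rw [Matrix.mul_assoc, hW', Matrix.mul_one]
  refine ⟨U * UAᴴ, V * UBᴴ, hU.mul hUA.ct, hV.mul hUB.ct, ?_, ?_⟩
  · rw [Cj_conj, k2 hUA, k1 hQ, k1 hU]
    convert e1 using 1
    abel
  · rw [Cj_conj, Cj_conj, k2 hUA, k2 hUB, k1 hQ, k1 hU, k1 hV]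
    have := e2.add (PosSemidef.one.smul h0)
    convert this using 1
    abel

end Pool.Agent.H709Z.BL
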