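import Mathlib

set_option autoImplicit false

open Matrix

namespace Pool.Agent.H709Z.CP5

/-- the circulant matrix with first row (8,5,1,1,5) -/
def A : Matrix (Fin 5) (Fin 5) ℝ :=
  !![8,5,1,1,5; 5,8,5,1,1; 1,5,8,5,1; 1,1,5,8,5; 5,1,1,5,8]

/-- the Horn matrix -/
def H : Matrix (Fin 5) (Fin 5) ℝ :=
  !![1,-1,1,1,-1; -1,1,-1,1,1; 1,-1,1,-1,1; 1,1,-1,1,-1; -1,1,1,-1,1]

noncomputable def B : Matrix (Fin 5) (Fin 5) ℝ :=
  !![(√5+1)/2, 0, 0, (√5-1)/2, √5;
     √5, (√5+1)/2, 0, 0, (√5-1)/2;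
     (√5-1)/2, √5, (√5+1)/2, 0, 0;
     0, (√5-1)/2, √5, (√5+1)/2, 0;
     0, 0, (√5-1)/2, √5, (√5+1)/2]

theorem s5 : (√5 : ℝ) * √5 = 5 := Real.mul_self_sqrt (by norm_num)

theorem s5_ge : (1 : ℝ) ≤ √5 := by
  rw [Real.le_sqrt (by norm_num) (by norm_num)]; norm_num

theorem B_nonneg : ∀ i j, 0 ≤ B i j := by
  have := s5_ge
  intro i j
  fin_cases i <;> fin_cases j <;> simp [B] <;> linarith

theorem A_eq : A = B * Bᵀ := by
  have h := s5
  ext i j
  fin_cases i <;> fin_cases j <;>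
    simp [A, B, Matrix.mul_apply, Fin.sum_univ_five] <;> nlinarith

theorem A_rat : ∀ i j, ∃ q : ℚ, A i j = (q : ℝ) := by
  intro i j
  refine ⟨(!![8,5,1,1,5; 5,8,5,1,1; 1,5,8,5,1; 1,1,5,8,5; 5,1,1,5,8] :
    Matrix (Fin 5) (Fin 5) ℚ) i j, ?_⟩
  fin_cases i <;> fin_cases j <;> simp [A]

theorem A_pos : ∀ i j, 0 < A i j := by
  intro i j
  fin_cases i <;> fin_cases j <;> simp [A]

theorem A_posDef : A.PosDef := by
  refine Matrix.PosDef.of_dotProduct_mulVec_pos ?_ ?_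
  · ext i j
    fin_cases i <;> fin_cases j <;> simp [A]
  · intro x hx
    have hq : star x ⬝ᵥ A *ᵥ x =
        ((x 0 + x 1) + (x 1 + x 2)) ^ 2 + ((x 1 + x 2) + (x 2 + x 3)) ^ 2
        + ((x 2 + x 3) + (x 3 + x 4)) ^ 2 + ((x 3 + x 4) + (x 4 + x 0)) ^ 2
        + ((x 4 + x 0) + (x 0 + x 1)) ^ 2 +
        ((x 0 + x 1) ^ 2 + (x 1 + x 2) ^ 2 + (x 2 + x 3) ^ 2 + (x 3 + x 4) ^ 2 + (x 4 + x 0) ^ 2) := by
      simp [A, dotProduct, Matrix.mulVec, Fin.sum_univ_five]
      ring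
    rw [hq]
    by_contra hcon
    have key : ∀ a b c d e t : ℝ, 0 ≤ t → ¬ 0 < t + (a ^ 2 + b ^ 2 + c ^ 2 + d ^ 2 + e ^ 2) →
        a = 0 ∧ b = 0 ∧ c = 0 ∧ d = 0 ∧ e = 0 := by
      intro a b c d e t ht h
      have ha := sq_nonneg a
      have hb := sq_nonneg b
      have hc := sq_nonneg c
      have hd := sq_nonneg d
      have he := sq_nonneg e
      refine ⟨?_, ?_, ?_, ?_, ?_⟩ <;> apply pow_eq_zero_iff (two_ne_zero) |>.1 <;> linarith
    obtain ⟨h0, h1, h2, h3, h4⟩ := key _ _ _ _ _ _ (by positivity) hcon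
    apply hx
    ext i
    fin_cases i <;> simp <;> linarith

/-- the Horn form -/
def horn (v : Fin 5 → ℝ) : ℝ := ∑ i, ∑ l, H i l * (v i * v l)

theorem horn_eq1 (v : Fin 5 → ℝ) : horn v =
    (v 0 - v 1 + v 2 + v 3 - v 4) ^ 2 + 4 * (v 1 * v 3) + 4 * (v 2 * (v 4 - v 3)) := by
  simp [horn, H, Fin.sum_univ_five]; ring

theorem horn_eq2 (v : Fin 5 → ℝ) : horn v =
    (v 0 - v 1 + v 2 - v 3 + v 4) ^ 2 + 4 * (v 1 * v 4) + 4 * (v 0 * (v 3 - v 4)) := by
  simp [horn, H, Fin.sum_univ_five]; ring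

theorem horn_nonneg (v : Fin 5 → ℝ) (hv : ∀ i, 0 ≤ v i) : 0 ≤ horn v := by
  rcases le_total (v 3) (v 4) with h | h
  · rw [horn_eq1]
    have := mul_nonneg (hv 1) (hv 3)
    have := mul_nonneg (hv 2) (sub_nonneg.2 h)
    positivity
  · rw [horn_eq2]
    have := mul_nonneg (hv 1) (hv 4)
    have := mul_nonneg (hv 0) (sub_nonneg.2 h)
    positivity

theorem pair_eq {m : ℕ} (C : Matrix (Fin 5) (Fin m) ℝ) :
    ∑ i, ∑ l, H i l * (C * Cᵀ) i l = ∑ j, horn (fun i => C i j) := by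
  simp only [horn, Matrix.mul_apply, Matrix.transpose_apply, Finset.mul_sum]
  rw [Finset.sum_comm (s := Finset.univ (α := Fin m))]
  refine Finset.sum_congr rfl fun i _ => ?_
  rw [Finset.sum_comm]

theorem pair_A : ∑ i, ∑ l, H i l * A i l = 0 := by
  simp [H, A, Fin.sum_univ_five]; norm_num

theorem A_bdry : ∀ ε : ℝ, 0 < ε → ∃ S : Matrix (Fin 5) (Fin 5) ℝ, Sᵀ = S ∧
    (∀ i j, |S i j - A i j| < ε) ∧
    ¬ ∃ m : ℕ, ∃ C : Matrix (Fin 5) (Fin m) ℝ, (∀ i j, 0 ≤ C i j) ∧ S = C * Cᵀ := by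
  intro ε hε
  refine ⟨A - (ε / 2) • (1 : Matrix (Fin 5) (Fin 5) ℝ), ?_, ?_, ?_⟩
  · have : Aᵀ = A := by
      ext i j
      fin_cases i <;> fin_cases j <;> simp [A]
    rw [Matrix.transpose_sub, Matrix.transpose_smul, Matrix.transpose_one, this]
  · intro i j
    simp only [Matrix.sub_apply, Matrix.smul_apply, Matrix.one_apply, smul_eq_mul]
    split_ifs
    · rw [abs_lt]; constructor <;> linarith
    · simpa using hε
  · rintro ⟨m, C, hC, hS⟩
    have h1 := pair_eq C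
    rw [← hS] at h1
    have h2 : 0 ≤ ∑ j, horn (fun i => C i j) :=
      Finset.sum_nonneg fun j _ => horn_nonneg _ fun i => hC i j
    have h3 : ∑ i, ∑ l, H i l * (A - (ε / 2) • (1 : Matrix (Fin 5) (Fin 5) ℝ)) i l = -(5 * (ε / 2)) := by
      simp [H, A, Fin.sum_univ_five, Matrix.one_apply]; ring
    linarith

theorem irr : ¬ ∃ r : ℚ, B 0 0 * B 1 0 = (r : ℝ) := by
  rintro ⟨r, hr⟩
  have h5 : Irrational (√5 : ℝ) := by
    have : Nat.Prime 5 := by norm_num
    simpa using this.irrational_sqrt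
  apply h5
  refine ⟨2 * r - 5, ?_⟩
  have h := s5
  simp [B] at hr
  push_cast
  nlinarith

/-- zeros of the Horn form: in the coordinates `c = U⁻¹ v` they are nonnegative and supported on
two cyclically adjacent indices -/
theorem horn_zero (v : Fin 5 → ℝ) (hv : ∀ i, 0 ≤ v i) (h : horn v = 0) :
    (v 0 + v 1 - v 2 + v 3 - v 4) * (v 2 + v 3 - v 4 + v 0 - v 1) = 0 := by
  have h0 := hv 0
  have h1 := hv 1
  have h2 := hv 2
  have h3 := hv 3
  have h4 := hv 4
  rcases le_total (v 3) (v 4) with hle | hle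
  · rw [horn_eq1] at h
    have a1 := mul_nonneg h1 h3
    have a2 := mul_nonneg h2 (sub_nonneg.2 hle)
    have a0 := sq_nonneg (v 0 - v 1 + v 2 + v 3 - v 4)
    have b0 : v 0 - v 1 + v 2 + v 3 - v 4 = 0 := by
      apply pow_eq_zero_iff (two_ne_zero) |>.1; linarith
    have : v 2 + v 3 - v 4 + v 0 - v 1 = 0 := by linarith
    rw [this, mul_zero]
  · rw [horn_eq2] at h
    have a1 := mul_nonneg h1 h4
    have a2 := mul_nonneg h0 (sub_nonneg.2 hle)
    have a0 := sq_nonneg (v 0 - v 1 + v 2 - v 3 + v 4)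
    have b0 : v 0 - v 1 + v 2 - v 3 + v 4 = 0 := by
      apply pow_eq_zero_iff (two_ne_zero) |>.1; linarith
    have b1 : v 1 * v 4 = 0 := by linarith
    have b2 : v 0 * (v 3 - v 4) = 0 := by linarith
    have e1 : v 0 + v 1 - v 2 + v 3 - v 4 = 2 * v 0 := by linarith
    have e2 : v 2 + v 3 - v 4 + v 0 - v 1 = 2 * (v 3 - v 4) := by linarith
    rw [e1, e2]
    linarith

theorem horn_shift (v : Fin 5 → ℝ) (k : Fin 5) : horn (fun i => v (k + i)) = horn v := by
  fin_cases k <;> simp [horn, H, Fin.sum_univ_five] <;> ring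

/-- inverse of the matrix with columns `e k + e (k+1)` -/
noncomputable def W : Matrix (Fin 5) (Fin 5) ℝ :=
  !![1/2, 1/2, -1/2, 1/2, -1/2; -1/2, 1/2, 1/2, -1/2, 1/2; 1/2, -1/2, 1/2, 1/2, -1/2;
     -1/2, 1/2, -1/2, 1/2, 1/2; 1/2, -1/2, 1/2, -1/2, 1/2]

theorem W_zero (v : Fin 5 → ℝ) (hv : ∀ i, 0 ≤ v i) (h : horn v = 0) (k : Fin 5) :
    (∑ i, W k i * v i) * (∑ i, W (k + 2) i * v i) = 0 := by
  have h1 := horn_zero (fun i => v (k + i)) (fun i => hv _) (by rw [horn_shift, h])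
  fin_cases k <;> simp [W, Fin.sum_univ_five] at h1 ⊢ <;>
    (rcases h1 with h1 | h1
     · left; linarith
     · right; linarith)

theorem cyc (C : Matrix (Fin 5) (Fin 5) ℝ) (hz : ∀ k j, C k j * C (k + 2) j = 0)
    (h1 : ∀ k, ∑ j, C k j * C (k + 1) j = 1) (h3 : ∀ k, ∑ j, C k j * C k j = 3) :
    ∃ j, (C 0 j * C 0 j) ^ 2 - 3 * (C 0 j * C 0 j) + 1 = 0 := by
  have hex : ∀ k, ∃ j, C k j * C (k + 1) j ≠ 0 := by
    intro k
    by_contra hcon
    push Not at hcon
    have := h1 k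
    simp [hcon] at this
  choose f hf using hex
  have hf1 : ∀ k, C k (f k) ≠ 0 := fun k => left_ne_zero_of_mul (hf k)
  have hf2 : ∀ k, C (k + 1) (f k) ≠ 0 := fun k => right_ne_zero_of_mul (hf k)
  have hz2 : ∀ k, C (k + 2) (f k) = 0 := fun k => (mul_eq_zero.1 (hz k (f k))).resolve_left (hf1 k)
  have hz3 : ∀ k, C (k + 3) (f k) = 0 := fun k => by
    have := (mul_eq_zero.1 (hz (k + 1) (f k))).resolve_left (hf2 k)
    rwa [add_assoc] at this
  have hz4 : ∀ k, C (k + 4) (f k) = 0 := fun k => by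
    have h := hz (k + 4) (f k)
    have e : k + 4 + 2 = k + 1 := by rw [add_assoc]; rfl
    rw [e] at h
    exact (mul_eq_zero.1 h).resolve_right (hf2 k)
  have hoff : ∀ k l, l ≠ k → l ≠ k + 1 → C l (f k) = 0 := by
    intro k l a b
    have : l = k + 2 ∨ l = k + 3 ∨ l = k + 4 := by
      revert k l; decide
    rcases this with rfl | rfl | rfl
    exacts [hz2 k, hz3 k, hz4 k]
  have hinj : Function.Injective f := by
    intro k l hkl
    by_contra hne
    by_cases hl : l = k + 1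
    · apply hf2 l
      rw [← hkl]
      apply hoff <;> rw [hl] <;> clear * - k <;> revert k <;> decide
    · apply hf1 l
      rw [← hkl]
      exact hoff k l (Ne.symm hne) hl
  have hbij : Function.Bijective f := Finite.injective_iff_bijective.1 hinj
  have hs : ∀ g : Fin 5 → ℝ, ∑ j, g j = ∑ k, g (f k) := fun g => (hbij.sum_comp g).symm
  have hxy : ∀ k, C k (f k) * C (k + 1) (f k) = 1 := by
    intro k
    rw [← h1 k, hs, Finset.sum_eq_single k]
    · intro l _ hl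
      by_cases h : k = l + 1
      · rw [hoff l (k + 1), mul_zero] <;> rw [h] <;> clear * - l <;> revert l <;> decide
      · rw [hoff l k (Ne.symm hl) h, zero_mul]
    · simp
  have hsq : ∀ k, C (k + 1) (f (k + 1)) * C (k + 1) (f (k + 1))
      + C (k + 1) (f k) * C (k + 1) (f k) = 3 := by
    intro k
    rw [← h3 (k + 1), hs, Finset.sum_eq_add (k + 1) k]
    · clear * - k; revert k; decide
    · intro l _ hl
      rw [hoff l (k + 1) (Ne.symm hl.1), zero_mul]
      intro h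
      exact hl.2 (add_right_cancel h).symm
    · simp
    · simp
  have hp : ∀ k, (C k (f k) * C k (f k)) * (C (k + 1) (f (k + 1)) * C (k + 1) (f (k + 1)))
      = 3 * (C k (f k) * C k (f k)) - 1 := by
    intro k
    have a := hxy k
    have b := hsq k
    linear_combination (C k (f k) * C k (f k)) * b - (C k (f k) * C (k + 1) (f k) + 1) * a
  have p0 := hp 0
  have p1 := hp 1
  have p2 := hp 2
  have p3 := hp 3
  have p4 := hp 4
  have e0 : (0 + 1 : Fin 5) = 1 := rfl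
  have e1 : (1 + 1 : Fin 5) = 2 := rfl
  have e2 : (2 + 1 : Fin 5) = 3 := rfl
  have e3 : (3 + 1 : Fin 5) = 4 := rfl
  have e4 : (4 + 1 : Fin 5) = 0 := rfl
  rw [e0] at p0
  rw [e1] at p1
  rw [e2] at p2
  rw [e3] at p3
  rw [e4] at p4
  refine ⟨f 0, ?_⟩
  generalize C 0 (f 0) * C 0 (f 0) = a at *
  generalize C 1 (f 1) * C 1 (f 1) = b at *
  generalize C 2 (f 2) * C 2 (f 2) = c at *
  generalize C 3 (f 3) * C 3 (f 3) = d at *
  generalize C 4 (f 4) * C 4 (f 4) = e at *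
  have q2 : a * b * c = 8 * a - 3 := by linear_combination a * p1 + 3 * p0
  have q3 : a * b * c * d = 21 * a - 8 := by linear_combination a * b * p2 + 3 * q2 - p0
  have q4 : a * b * c * d * e = 55 * a - 21 := by linear_combination a * b * c * p3 + 3 * q3 - q2
  have q5 : a * b * c * d * e * a = 144 * a - 55 := by
    linear_combination a * b * c * d * p4 + 3 * q4 - q3
  linear_combination (1 / 55 : ℝ) * q5 - (a / 55) * q4

/-- no square factorisation of `A` is rational in sense (i) -/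
theorem all_irr (D : Matrix (Fin 5) (Fin 5) ℝ) (hD : ∀ i j, 0 ≤ D i j) (hA : A = D * Dᵀ) :
    ∃ j i l : Fin 5, ¬ ∃ r : ℚ, D i j * D l j = (r : ℝ) := by
  by_contra hcon
  push Not at hcon
  have hsum := pair_eq D
  rw [← hA, pair_A] at hsum
  have hzero : ∀ j, horn (fun i => D i j) = 0 := fun j =>
    (Finset.sum_eq_zero_iff_of_nonneg (fun j _ => horn_nonneg _ fun i => hD i j)).1 hsum.symm j
      (Finset.mem_univ j)
  have hY : (W * D) * (W * D)ᵀ = W * A * Wᵀ := by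
    rw [hA, Matrix.transpose_mul]; simp only [Matrix.mul_assoc]
  obtain ⟨j, hj⟩ := cyc (W * D)
    (fun k j => by simpa [Matrix.mul_apply] using W_zero _ (fun i => hD i j) (hzero j) k)
    (fun k => by
      have := congrFun (congrFun hY k) (k + 1)
      rw [Matrix.mul_apply] at this
      simp only [Matrix.transpose_apply] at this
      rw [this]
      fin_cases k <;> simp [W, A, Matrix.mul_apply, Fin.sum_univ_five] <;> norm_num)
    (fun k => by
      have := congrFun (congrFun hY k) k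
      rw [Matrix.mul_apply] at this
      simp only [Matrix.transpose_apply] at this
      rw [this]
      fin_cases k <;> simp [W, A, Matrix.mul_apply, Fin.sum_univ_five] <;> norm_num)
  choose q hq using hcon
  have hrat : ∃ r : ℚ, (W * D) 0 j * (W * D) 0 j = r := by
    refine ⟨∑ i, ∑ l, (![1/2, 1/2, -1/2, 1/2, -1/2] : Fin 5 → ℚ) i *
      (![1/2, 1/2, -1/2, 1/2, -1/2] : Fin 5 → ℚ) l * q j i l, ?_⟩
    push_cast
    simp only [← hq]
    simp [W, Matrix.mul_apply, Fin.sum_univ_five]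
    ring
  obtain ⟨r, hr⟩ := hrat
  rw [hr] at hj
  have h5 : Irrational (√5 : ℝ) := by
    have : Nat.Prime 5 := by norm_num
    simpa using this.irrational_sqrt
  apply h5
  refine ⟨|2 * r - 3|, ?_⟩
  push_cast
  rw [← Real.sqrt_sq_eq_abs]
  congr 1
  linear_combination 4 * hj

end Pool.Agent.H709Z.CP5
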