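import Mathlib
import Pool.Agent.H709Z.CP5

set_option autoImplicit false

open Matrix

namespace Pool.Agent.H709Z.CP5

theorem A_symm : A.IsSymm := by
  ext i j
  fin_cases i <;> fin_cases j <;> simp [A]

theorem near_psd (S : Matrix (Fin 5) (Fin 5) ℝ) (hS : S.IsSymm)
    (h : ∀ i j, |S i j - A i j| < 1 / 50) : S.PosSemidef ∧ ∀ i j, 0 ≤ S i j := by
  constructor
  · refine Matrix.PosSemidef.of_dotProduct_mulVec_nonneg ?_ ?_
    · ext i j
      simpa using hS.apply i j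
    · intro x
      have hq : star x ⬝ᵥ S *ᵥ x =
          (∑ i, ∑ l, A i l * (x i * x l)) + ∑ i, ∑ l, (S i l - A i l) * (x i * x l) := by
        simp only [dotProduct, Matrix.mulVec, star_trivial, Finset.mul_sum,
          ← Finset.sum_add_distrib]
        refine Finset.sum_congr rfl fun i _ => Finset.sum_congr rfl fun l _ => by ring
      have hE : ∑ i, ∑ l, -((1 / 100 : ℝ) * (x i ^ 2 + x l ^ 2)) ≤
          ∑ i, ∑ l, (S i l - A i l) * (x i * x l) := by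
        refine Finset.sum_le_sum fun i _ => Finset.sum_le_sum fun l _ => ?_
        obtain ⟨h1, h2⟩ := abs_lt.1 (h i l)
        nlinarith [mul_nonneg (sub_nonneg.2 h1.le) (sq_nonneg (x i + x l)),
          mul_nonneg (sub_nonneg.2 h2.le) (sq_nonneg (x i - x l))]
      have hA : ∑ i, ∑ l, A i l * (x i * x l) =
          ((x 0 + x 1) + (x 1 + x 2)) ^ 2 + ((x 1 + x 2) + (x 2 + x 3)) ^ 2
          + ((x 2 + x 3) + (x 3 + x 4)) ^ 2 + ((x 3 + x 4) + (x 4 + x 0)) ^ 2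
          + ((x 4 + x 0) + (x 0 + x 1)) ^ 2 +
          ((x 0 + x 1) ^ 2 + (x 1 + x 2) ^ 2 + (x 2 + x 3) ^ 2 + (x 3 + x 4) ^ 2
            + (x 4 + x 0) ^ 2) := by
        simp [A, Fin.sum_univ_five]
        ring
      have key : ∀ a b c d e : ℝ,
          (a - b + c - d + e) ^ 2 ≤ 5 * (a ^ 2 + b ^ 2 + c ^ 2 + d ^ 2 + e ^ 2) := by
        intro a b c d e
        nlinarith [sq_nonneg (a + b), sq_nonneg (a - c), sq_nonneg (a + d), sq_nonneg (a - e),
          sq_nonneg (b + c), sq_nonneg (b - d), sq_nonneg (b + e), sq_nonneg (c + d),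
          sq_nonneg (c - e), sq_nonneg (d + e)]
      have k0 := key (x 0 + x 1) (x 1 + x 2) (x 2 + x 3) (x 3 + x 4) (x 4 + x 0)
      have k1 := key (x 1 + x 2) (x 2 + x 3) (x 3 + x 4) (x 4 + x 0) (x 0 + x 1)
      have k2 := key (x 2 + x 3) (x 3 + x 4) (x 4 + x 0) (x 0 + x 1) (x 1 + x 2)
      have k3 := key (x 3 + x 4) (x 4 + x 0) (x 0 + x 1) (x 1 + x 2) (x 2 + x 3)
      have k4 := key (x 4 + x 0) (x 0 + x 1) (x 1 + x 2) (x 2 + x 3) (x 3 + x 4)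
      have e0 : x 0 + x 1 - (x 1 + x 2) + (x 2 + x 3) - (x 3 + x 4) + (x 4 + x 0) = 2 * x 0 := by
        ring
      have e1 : x 1 + x 2 - (x 2 + x 3) + (x 3 + x 4) - (x 4 + x 0) + (x 0 + x 1) = 2 * x 1 := by
        ring
      have e2 : x 2 + x 3 - (x 3 + x 4) + (x 4 + x 0) - (x 0 + x 1) + (x 1 + x 2) = 2 * x 2 := by
        ring
      have e3 : x 3 + x 4 - (x 4 + x 0) + (x 0 + x 1) - (x 1 + x 2) + (x 2 + x 3) = 2 * x 3 := by
        ring
      have e4 : x 4 + x 0 - (x 0 + x 1) + (x 1 + x 2) - (x 2 + x 3) + (x 3 + x 4) = 2 * x 4 := by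
        ring
      rw [e0] at k0
      rw [e1] at k1
      rw [e2] at k2
      rw [e3] at k3
      rw [e4] at k4
      have hE' : ∑ i, ∑ l, -((1 / 100 : ℝ) * (x i ^ 2 + x l ^ 2)) =
          -((1 / 10) * (x 0 ^ 2 + x 1 ^ 2 + x 2 ^ 2 + x 3 ^ 2 + x 4 ^ 2)) := by
        simp only [Fin.sum_univ_five]; ring
      rw [hq, hA]
      rw [hE'] at hE
      have t0 := sq_nonneg ((x 0 + x 1) + (x 1 + x 2))
      have t1 := sq_nonneg ((x 1 + x 2) + (x 2 + x 3))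
      have t2 := sq_nonneg ((x 2 + x 3) + (x 3 + x 4))
      have t3 := sq_nonneg ((x 3 + x 4) + (x 4 + x 0))
      have t4 := sq_nonneg ((x 4 + x 0) + (x 0 + x 1))
      have u0 := sq_nonneg (x 0)
      have u1 := sq_nonneg (x 1)
      have u2 := sq_nonneg (x 2)
      have u3 := sq_nonneg (x 3)
      have u4 := sq_nonneg (x 4)
      simp only [mul_pow] at k0 k1 k2 k3 k4
      linarith
  · intro i j
    have h1 := (abs_lt.1 (h i j)).1
    have h2 : 1 ≤ A i j := by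
      fin_cases i <;> fin_cases j <;> simp [A]
    linarith

theorem main : ∃ M : {S : Matrix (Fin 5) (Fin 5) ℝ // S.IsSymm},
    (∀ i j, ∃ q : ℚ, M.1 i j = (q : ℝ)) ∧
    M ∈ frontier {S : {S : Matrix (Fin 5) (Fin 5) ℝ // S.IsSymm} |
      ∃ m : ℕ, 1 ≤ m ∧ ∃ C : Matrix (Fin 5) (Fin m) ℝ, (∀ i j, 0 ≤ C i j) ∧ S.1 = C * Cᵀ} ∧
    M ∈ interior {S : {S : Matrix (Fin 5) (Fin 5) ℝ // S.IsSymm} |
      S.1.PosSemidef ∧ ∀ i j, 0 ≤ S.1 i j} ∧
    (∃ D : Matrix (Fin 5) (Fin 5) ℝ, (∀ i j, 0 ≤ D i j) ∧ M.1 = D * Dᵀ) ∧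
    ∀ D : Matrix (Fin 5) (Fin 5) ℝ, (∀ i j, 0 ≤ D i j) → M.1 = D * Dᵀ →
      (∃ j i l, Irrational (D i j * D l j)) ∧ ∃ i j, Irrational (D i j) := by
  refine ⟨⟨A, A_symm⟩, A_rat, ⟨subset_closure ⟨5, by norm_num, B, B_nonneg, A_eq⟩, ?_⟩, ?_,
    ⟨B, B_nonneg, A_eq⟩, ?_⟩
  · intro hint
    have hc : Continuous (fun t : ℝ => (⟨A - t • (1 : Matrix (Fin 5) (Fin 5) ℝ),
        A_symm.sub (Matrix.isSymm_one.smul t)⟩ : {S : Matrix (Fin 5) (Fin 5) ℝ // S.IsSymm})) := by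
      apply Continuous.subtype_mk
      fun_prop
    have hn := hc.continuousAt (x := 0) |>.preimage_mem_nhds
      (t := {S : {S : Matrix (Fin 5) (Fin 5) ℝ // S.IsSymm} |
      ∃ m : ℕ, 1 ≤ m ∧ ∃ C : Matrix (Fin 5) (Fin m) ℝ, (∀ i j, 0 ≤ C i j) ∧ S.1 = C * Cᵀ})
      (by simpa using mem_interior_iff_mem_nhds.1 hint)
    obtain ⟨ε, hε, hb⟩ := Metric.mem_nhds_iff.1 hn
    have hmem := hb (show ε / 2 ∈ Metric.ball (0 : ℝ) ε by
      rw [Metric.mem_ball, Real.dist_eq, sub_zero, abs_lt]; constructor <;> linarith)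
    obtain ⟨m, -, C, hC, hS⟩ := hmem
    have h1 := pair_eq C
    rw [← hS] at h1
    have h2 : 0 ≤ ∑ j, horn (fun i => C i j) :=
      Finset.sum_nonneg fun j _ => horn_nonneg _ fun i => hC i j
    have h3 : ∑ i, ∑ l, H i l * (A - (ε / 2) • (1 : Matrix (Fin 5) (Fin 5) ℝ)) i l
        = -(5 * (ε / 2)) := by
      simp [H, A, Fin.sum_univ_five, Matrix.one_apply]; ring
    linarith
  · rw [mem_interior]
    refine ⟨{S | ∀ i j, |S.1 i j - A i j| < 1 / 50}, fun S hS => near_psd S.1 S.2 hS, ?_, ?_⟩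
    · simp only [Set.ofPred_forall]
      refine isOpen_iInter_of_finite fun i => isOpen_iInter_of_finite fun j => ?_
      refine isOpen_lt (Continuous.abs (Continuous.sub ?_ continuous_const)) continuous_const
      exact continuous_subtype_val.matrix_elem i j
    · intro i j
      simp
  · intro D hD hA
    obtain ⟨j, i, l, h⟩ := all_irr D hD hA
    refine ⟨⟨j, i, l, fun ⟨r, hr⟩ => h ⟨r, hr.symm⟩⟩, ?_⟩
    by_contra hcon
    push Not at hcon
    obtain ⟨a, ha⟩ := not_not.1 (hcon i j)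
    obtain ⟨b, hb⟩ := not_not.1 (hcon l j)
    exact h ⟨a * b, by rw [← ha, ← hb]; push_cast; rfl⟩

end Pool.Agent.H709Z.CP5
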