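import Mathlib

set_option autoImplicit false

namespace Pool.Agent.H709Z.Cjrw

open Module

variable {F : Type} [Field F] {ι κ : Type} [Fintype κ] [DecidableEq κ]

/-- Vectors supported in `S`. -/
def E (F : Type) [Field F] {κ : Type} (S : Finset κ) : Submodule F (κ → F) where
  carrier := {x | ∀ c, c ∉ S → x c = 0}
  add_mem' := by
    intro x y hx hy c hc
    simp [hx c hc, hy c hc]
  zero_mem' := by intro c _; rfl
  smul_mem' := by
    intro r x hx c hc
    simp [hx c hc]

omit [Fintype κ] [DecidableEq κ] in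
theorem mem_E {S : Finset κ} {x : κ → F} : x ∈ E F S ↔ ∀ c, c ∉ S → x c = 0 := Iff.rfl

omit [Fintype κ] [DecidableEq κ] in
theorem E_mono {S T : Finset κ} (h : S ⊆ T) : E F S ≤ E F T :=
  fun _ hx c hc => hx c (fun h' => hc (h h'))

/-- `L` can be the kernel of a completion of the pattern `T`. -/
def Valid (T : Set (ι × κ)) (a : Matrix ι κ F) (L : Submodule F (κ → F)) : Prop :=
  ∀ x ∈ L, ∀ i, (∀ c, x c ≠ 0 → (i, c) ∈ T) → a i ⬝ᵥ x = 0

omit [DecidableEq κ] in
theorem Valid.mono {T T' : Set (ι × κ)} {a : Matrix ι κ F} {L : Submodule F (κ → F)}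
    (h : Valid T' a L) (hT : T ⊆ T') : Valid T a L :=
  fun x hx i hi => h x hx i (fun c hc => hT (hi c hc))

/-- dimension of the part of `L` supported in `S`. -/
noncomputable def d (L : Submodule F (κ → F)) (S : Finset κ) : ℕ := finrank F ↥(L ⊓ E F S)

omit [DecidableEq κ] in
theorem d_mono {L L' : Submodule F (κ → F)} {S S' : Finset κ} (hL : L ≤ L') (hS : S ⊆ S') :
    d L S ≤ d L' S' :=
  Submodule.finrank_mono (inf_le_inf hL (E_mono hS))

omit [DecidableEq κ] in
theorem d_lt {L L' : Submodule F (κ → F)} {S S' : Finset κ} (hL : L ≤ L') (hS : S ⊆ S')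
    (x : κ → F) (hx : x ∈ L') (hx' : x ∈ E F S') (c : κ) (hc : c ∉ S) (hxc : x c ≠ 0) :
    d L S + 1 ≤ d L' S' := by
  apply Submodule.finrank_lt_finrank_of_lt
  refine lt_of_le_of_ne (inf_le_inf hL (E_mono hS)) ?_
  intro h
  have : x ∈ L ⊓ E F S := by rw [h]; exact ⟨hx, hx'⟩
  exact hxc (this.2 c hc)

theorem d_insert_le (L : Submodule F (κ → F)) (S : Finset κ) (c : κ) :
    d L (insert c S) ≤ d L S + 1 := by
  by_cases hall : ∀ x ∈ L ⊓ E F (insert c S), x ∈ E F S
  · have : L ⊓ E F (insert c S) ≤ L ⊓ E F S := fun x hx => ⟨hx.1, hall x hx⟩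
    exact le_trans (Submodule.finrank_mono this) (Nat.le_succ _)
  · push Not at hall
    obtain ⟨x, hx, hxS⟩ := hall
    have hcS : c ∉ S := by
      intro h
      apply hxS
      rw [Finset.insert_eq_of_mem h] at hx
      exact hx.2
    have hxc : x c ≠ 0 := by
      intro h
      apply hxS
      intro e he
      by_cases hec : e = c
      · rw [hec]; exact h
      · exact hx.2 e (by simp [hec, he])
    have hle : L ⊓ E F (insert c S) ≤ (L ⊓ E F S) ⊔ Submodule.span F {x} := by
      intro y hy
      have h1 : y - (y c / x c) • x ∈ L ⊓ E F S := by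
        refine ⟨L.sub_mem hy.1 (L.smul_mem _ hx.1), ?_⟩
        intro e he
        by_cases hec : e = c
        · subst hec
          simp [div_mul_cancel₀ _ hxc]
        · have h2 : y e = 0 := hy.2 e (by simp [hec, he])
          have h3 : x e = 0 := hx.2 e (by simp [hec, he])
          simp [h2, h3]
      have h2 : y = (y - (y c / x c) • x) + (y c / x c) • x := by simp
      rw [h2]
      exact Submodule.add_mem_sup h1 (Submodule.smul_mem _ _ (Submodule.mem_span_singleton_self x))
    have h3 := Submodule.finrank_add_le_finrank_add_finrank (L ⊓ E F S) (Submodule.span F {x})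
    have h4 : finrank F ↥(Submodule.span F {x}) ≤ 1 := by
      simpa using finrank_span_le_card (R := F) ({x} : Set (κ → F))
    have h5 := Submodule.finrank_mono hle
    unfold d
    omega

theorem d_le_card (L : Submodule F (κ → F)) (S : Finset κ) : d L S ≤ S.card := by
  induction S using Finset.induction_on with
  | empty =>
    have : L ⊓ E F (∅ : Finset κ) = ⊥ := by
      rw [eq_bot_iff]
      intro x hx
      rw [Submodule.mem_bot]
      funext c
      exact hx.2 c (by simp)
    unfold d
    rw [this]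
    simp
  | insert c S hc ih =>
    rw [Finset.card_insert_of_notMem hc]
    have := d_insert_le L S c
    omega

/-- Triangular patterns. -/
def Tri (T : Set (ι × κ)) : Prop := ∀ p ∈ T, ∀ q ∈ T, (p.1, q.2) ∈ T ∨ (q.1, p.2) ∈ T

/-- `k` is a triangular lower bound for the rank of the columns `D`. -/
def Low (J : Set (ι × κ)) (a : Matrix ι κ F) (D : Finset κ) (k : ℕ) : Prop :=
  ∃ T : Set (ι × κ), T ⊆ J ∧ Tri T ∧ (∀ p ∈ T, p.2 ∈ D) ∧
    ∀ L : Submodule F (κ → F), Valid T a L → k + d L D ≤ D.card

theorem low_zero (J : Set (ι × κ)) (a : Matrix ι κ F) (D : Finset κ) : Low J a D 0 :=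
  ⟨∅, Set.empty_subset _, fun p hp => absurd hp (Set.notMem_empty _),
    fun p hp => absurd hp (Set.notMem_empty _), fun L _ => by simpa using d_le_card L D⟩

open Classical in
/-- the triangular minimal rank of the columns `D`. -/
noncomputable def tau (J : Set (ι × κ)) (a : Matrix ι κ F) (D : Finset κ) : ℕ :=
  Nat.findGreatest (Low J a D) D.card

theorem low_tau (J : Set (ι × κ)) (a : Matrix ι κ F) (D : Finset κ) : Low J a D (tau J a D) := by
  classical
  unfold tau
  exact Nat.findGreatest_spec (P := Low J a D) (Nat.zero_le _) (low_zero J a D)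

omit [DecidableEq κ] in
theorem le_tau {J : Set (ι × κ)} {a : Matrix ι κ F} {D : Finset κ} {k : ℕ} (h : Low J a D k) :
    k ≤ tau J a D := by
  classical
  unfold tau
  apply Nat.le_findGreatest _ h
  obtain ⟨T, -, -, -, h⟩ := h
  have := h ⊥ (by
    intro x hx i _
    rw [Submodule.mem_bot] at hx
    simp [hx])
  omega

theorem tau_add_le {J : Set (ι × κ)} {a : Matrix ι κ F} {L : Submodule F (κ → F)}
    (hL : Valid J a L) (D : Finset κ) : tau J a D + d L D ≤ D.card := by
  obtain ⟨T, hT, -, -, h⟩ := low_tau J a D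
  exact h L (hL.mono hT)

theorem tau_le_insert (J : Set (ι × κ)) (a : Matrix ι κ F) (D : Finset κ) (c : κ) :
    tau J a D ≤ tau J a (insert c D) := by
  by_cases hc : c ∈ D
  · rw [Finset.insert_eq_of_mem hc]
  apply le_tau
  obtain ⟨T, hT, hT2, hT3, h⟩ := low_tau J a D
  refine ⟨T, hT, hT2, fun p hp => Finset.mem_insert_of_mem (hT3 p hp), fun L hL => ?_⟩
  have h1 := h L hL
  have h2 := d_insert_le L D c
  rw [Finset.card_insert_of_notMem hc]
  omega

/-- the kernel of the rows that are known on all of `D`, restricted to the columns `D`. -/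
def K (J : Set (ι × κ)) (a : Matrix ι κ F) (D : Finset κ) (x : κ → F) : Prop :=
  x ∈ E F D ∧ ∀ i, (∀ c ∈ D, (i, c) ∈ J) → a i ⬝ᵥ x = 0

theorem tau_insert_succ {J : Set (ι × κ)} {a : Matrix ι κ F} {D : Finset κ} {c : κ}
    (hc : c ∉ D) (h : ∀ x, K J a (insert c D) x → x c = 0) :
    tau J a D + 1 ≤ tau J a (insert c D) := by
  apply le_tau
  obtain ⟨T, hT, hT2, hT3, hT4⟩ := low_tau J a D
  refine ⟨T ∪ {p | p.2 ∈ insert c D ∧ ∀ e ∈ insert c D, (p.1, e) ∈ J}, ?_, ?_, ?_, ?_⟩
  · rintro p (hp | hp)
    · exact hT hp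
    · exact hp.2 p.2 hp.1
  · rintro p (hp | hp) q (hq | hq)
    · rcases hT2 p hp q hq with h1 | h1
      · exact Or.inl (Or.inl h1)
      · exact Or.inr (Or.inl h1)
    · exact Or.inr (Or.inr ⟨Finset.mem_insert_of_mem (hT3 p hp), hq.2⟩)
    · exact Or.inl (Or.inr ⟨Finset.mem_insert_of_mem (hT3 q hq), hp.2⟩)
    · exact Or.inl (Or.inr ⟨hq.1, hp.2⟩)
  · rintro p (hp | hp)
    · exact Finset.mem_insert_of_mem (hT3 p hp)
    · exact hp.1
  · intro L hL
    have h1 := hT4 L (hL.mono Set.subset_union_left)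
    have h2 : d L (insert c D) ≤ d L D := by
      apply Submodule.finrank_mono
      intro x hx
      refine ⟨hx.1, ?_⟩
      have hxc : x c = 0 := by
        apply h
        refine ⟨hx.2, fun i hi => hL x hx.1 i (fun e he => Or.inr ⟨?_, hi⟩)⟩
        by_contra hcon
        exact he (hx.2 e hcon)
      intro e he
      by_cases hec : e = c
      · rw [hec]; exact hxc
      · exact hx.2 e (by simp [hec, he])
    rw [Finset.card_insert_of_notMem hc]
    omega

/-- A valid kernel gives a completion. -/
theorem exists_completion {J : Set (ι × κ)} {a : Matrix ι κ F} {L : Submodule F (κ → F)}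
    (hL : Valid J a L) :
    ∃ B : Matrix ι κ F, (∀ p ∈ J, B p.1 p.2 = a p.1 p.2) ∧ ∀ x ∈ L, B.mulVec x = 0 := by
  classical
  have key : ∀ i, ∃ b : κ → F, (∀ c, (i, c) ∈ J → b c = a i c) ∧ ∀ x ∈ L, b ⬝ᵥ x = 0 := by
    intro i
    let S : Finset κ := Finset.univ.filter (fun c => (i, c) ∈ J)
    let φ : Module.Dual F (κ → F) := (dotProductBilin F F) (a i)
    have hφ : φ ∈ (L ⊓ E F S).dualAnnihilator := by
      rw [Submodule.mem_dualAnnihilator]
      intro x hx
      apply hL x hx.1 i
      intro c hc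
      by_contra hcon
      exact hc (hx.2 c (by simp [S, hcon]))
    rw [Subspace.dualAnnihilator_inf_eq, Submodule.mem_sup] at hφ
    obtain ⟨ψ, hψ, χ, hχ, hsum⟩ := hφ
    rw [Submodule.mem_dualAnnihilator] at hψ hχ
    refine ⟨fun c => ψ (Pi.single c 1), fun c hc => ?_, fun x hx => ?_⟩
    · have h1 : χ (Pi.single c 1) = 0 := by
        apply hχ
        intro e he
        have : e ≠ c := by
          rintro rfl
          exact he (by simp [S, hc])
        simp [this]
      have h2 : ψ (Pi.single c 1) + χ (Pi.single c 1) = φ (Pi.single c 1) := by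
        rw [← hsum]; rfl
      rw [h1, add_zero] at h2
      show ψ (Pi.single c 1) = a i c
      rw [h2]
      simp [φ]
    · have h1 := hψ x hx
      have h2 : x = ∑ c, x c • (Pi.single c (1 : F) : κ → F) := by
        funext e
        simp [Finset.sum_apply, Pi.single_apply]
      rw [h2, map_sum] at h1
      simp only [map_smul, smul_eq_mul] at h1
      rw [← h1]
      unfold dotProduct
      exact Finset.sum_congr rfl (fun c _ => mul_comm _ _)
  choose b hb1 hb2 using key
  refine ⟨Matrix.of b, fun p hp => hb1 p.1 p.2 hp, fun x hx => ?_⟩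
  funext i
  exact hb2 i x hx

omit [DecidableEq κ] in
theorem valid_ker {T : Set (ι × κ)} {a B : Matrix ι κ F} (hB : ∀ p ∈ T, B p.1 p.2 = a p.1 p.2) :
    Valid T a (LinearMap.ker B.mulVecLin) := by
  intro x hx i hi
  have h1 : B i ⬝ᵥ x = 0 := by
    have := congrFun (LinearMap.mem_ker.1 hx) i
    simpa [Matrix.mulVec] using this
  rw [← h1]
  unfold dotProduct
  refine Finset.sum_congr rfl (fun c _ => ?_)
  by_cases hc : x c = 0
  · simp [hc]
  · rw [hB (i, c) (hi c hc)]

omit [DecidableEq κ] in
theorem d_univ (L : Submodule F (κ → F)) : d L Finset.univ = finrank F L := by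
  have : L ⊓ E F (Finset.univ : Finset κ) = L := by
    apply inf_eq_left.2
    intro x _ c hc
    exact absurd (Finset.mem_univ c) hc
  unfold d
  rw [this]

omit [DecidableEq κ] in
theorem rank_add_ker (B : Matrix ι κ F) :
    B.rank + finrank F (LinearMap.ker B.mulVecLin) = Fintype.card κ := by
  have := LinearMap.finrank_range_add_finrank_ker B.mulVecLin
  rw [Module.finrank_fintype_fun_eq_card] at this
  exact this

end Pool.Agent.H709Z.Cjrw
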