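import Mathlib
import Pool.Agent.H709Z.CjrwLin

set_option autoImplicit false

namespace Pool.Agent.H709Z.Cjrw

open Module

/-- Interpolation property of a family of finite sets. -/
def Interp {κ : Type} (H : Finset (Finset κ)) : Prop :=
  ∀ A ∈ H, ∀ B ∈ H, A ⊆ B → A.card + 2 ≤ B.card → ∃ C ∈ H, A ⊂ C ∧ C ⊂ B

/-- Chains of finite sets. -/
def Chn {κ : Type} (T : Finset (Finset κ)) : Prop := ∀ A ∈ T, ∀ B ∈ T, A ⊆ B ∨ B ⊆ A

theorem exists_sat_chain {κ : Type} [DecidableEq κ] (H C : Finset (Finset κ)) (V : Finset κ)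
    (hH : Interp H) (h0 : ∅ ∈ H) (hV : V ∈ H) (hsub : ∀ S ∈ H, S ⊆ V)
    (hC : C ⊆ H) (hCc : Chn C) :
    ∃ T : Finset (Finset κ), C ⊆ T ∧ T ⊆ H ∧ Chn T ∧ ∅ ∈ T ∧ V ∈ T ∧ Interp T := by
  classical
  have hne : (H.powerset.filter (fun T => C ⊆ T ∧ Chn T)).Nonempty :=
    ⟨C, by simp [hC, hCc]⟩
  obtain ⟨T, hT, hmax⟩ := Finset.exists_max_image _ Finset.card hne
  simp only [Finset.mem_filter, Finset.mem_powerset] at hT hmax
  obtain ⟨hTH, hCT, hTc⟩ := hT
  have key : ∀ X ∈ H, (∀ D ∈ T, D ⊆ X ∨ X ⊆ D) → X ∈ T := by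
    intro X hX hcomp
    by_contra hXT
    have h1 : (insert X T).card ≤ T.card := by
      apply hmax
      refine ⟨Finset.insert_subset hX hTH, hCT.trans (Finset.subset_insert _ _), ?_⟩
      intro A hA B hB
      rcases Finset.mem_insert.1 hA with hAX | hA
      · rcases Finset.mem_insert.1 hB with hBX | hB
        · rw [hAX, hBX]; exact Or.inl (Finset.Subset.refl _)
        · rw [hAX]; exact (hcomp B hB).symm
      · rcases Finset.mem_insert.1 hB with hBX | hB
        · rw [hBX]; exact hcomp A hA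
        · exact hTc A hA B hB
    rw [Finset.card_insert_of_notMem hXT] at h1
    omega
  refine ⟨T, hCT, hTH, hTc, key ∅ h0 (fun D _ => Or.inr (Finset.empty_subset _)),
    key V hV (fun D hD => Or.inl (hsub D (hTH hD))), ?_⟩
  intro A hA B hB hAB hcard
  by_contra hcon
  push Not at hcon
  obtain ⟨X, hX, hAX, hXB⟩ := hH A (hTH hA) B (hTH hB) hAB hcard
  refine hcon X (key X hX ?_) hAX hXB
  intro D hD
  by_cases h1 : D ⊆ A
  · exact Or.inl (h1.trans hAX.subset)
  by_cases h2 : B ⊆ D
  · exact Or.inr (hXB.subset.trans h2)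
  exfalso
  have h3 : A ⊆ D := (hTc A hA D hD).resolve_right h1
  have h4 : D ⊆ B := (hTc D hD B hB).resolve_right h2
  exact hcon D hD ⟨h3, h1⟩ ⟨h4, h2⟩

theorem exists_pred {κ : Type} [DecidableEq κ] {T : Finset (Finset κ)} (hTc : Chn T)
    (h0 : ∅ ∈ T) (hI : Interp T) {S : Finset κ} (hS : S ∈ T) (hne : S ≠ ∅) :
    ∃ P ∈ T, ∃ c, c ∉ P ∧ S = insert c P ∧ ∀ D ∈ T, D ⊂ S → D ⊆ P := by
  classical
  have hne' : (T.filter (fun D => D ⊂ S)).Nonempty :=
    ⟨∅, by simp [h0, Finset.nonempty_iff_ne_empty.2 hne]⟩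
  obtain ⟨P, hP, hmax⟩ := Finset.exists_max_image _ Finset.card hne'
  simp only [Finset.mem_filter] at hP hmax
  have hall : ∀ D ∈ T, D ⊂ S → D ⊆ P := by
    intro D hD hDS
    rcases hTc D hD P hP.1 with h | h
    · exact h
    · exact (Finset.eq_of_subset_of_card_le h (hmax D ⟨hD, hDS⟩)).symm.subset
  have hcard : S.card ≤ P.card + 1 := by
    by_contra hcon
    obtain ⟨X, hX, hPX, hXS⟩ := hI P hP.1 S hS hP.2.subset (by omega)
    exact hPX.2 (hall X hX hXS)
  obtain ⟨c, hcS, hcP⟩ := Finset.exists_of_ssubset hP.2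
  refine ⟨P, hP.1, c, hcP, ?_, hall⟩
  symm
  apply Finset.eq_of_subset_of_card_le (Finset.insert_subset hcS hP.2.subset)
  rw [Finset.card_insert_of_notMem hcP]
  exact hcard

variable {F : Type} [Field F] {ι κ : Type} [Fintype κ] [DecidableEq κ]

theorem step {J : Set (ι × κ)} {a : Matrix ι κ F} {L' : Submodule F (κ → F)} {V' : Finset κ}
    {v : κ} (hv : v ∉ V') (hL' : Valid J a L') (hLV : L' ≤ E F V') {T : Finset (Finset κ)}
    (hTc : Chn T) (h0 : ∅ ∈ T) (hI : Interp T) (hTV : ∀ S ∈ T, S ⊆ V')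
    (hopt : ∀ S ∈ T, S.card ≤ tau J a S + d L' S)
    (hrow : ∀ i, (i, v) ∈ J → ∃ S ∈ T, ∀ c, c ∈ S ↔ c ∈ V' ∧ (i, c) ∈ J) :
    ∃ L : Submodule F (κ → F), Valid J a L ∧ L' ≤ L ∧ L ≤ E F (insert v V') ∧
      ∀ S ∈ T, (insert v S).card ≤ tau J a (insert v S) + d L (insert v S) := by
  classical
  have hvS : ∀ S ∈ T, v ∉ S := fun S hS h => hv (hTV S hS h)
  -- sets on which `tau` jumps are fine for every larger kernel
  have hjump : ∀ L : Submodule F (κ → F), L' ≤ L → ∀ S ∈ T,
      tau J a S + 1 ≤ tau J a (insert v S) →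
      (insert v S).card ≤ tau J a (insert v S) + d L (insert v S) := by
    intro L hL S hS hj
    have h1 := hopt S hS
    have h2 : d L' S ≤ d L (insert v S) := d_mono hL (Finset.subset_insert _ _)
    rw [Finset.card_insert_of_notMem (hvS S hS)]
    omega
  by_cases hex : (T.filter (fun S => tau J a (insert v S) ≤ tau J a S)).Nonempty
  swap
  · refine ⟨L', hL', le_rfl, hLV.trans (E_mono (Finset.subset_insert _ _)), fun S hS => ?_⟩
    apply hjump L' le_rfl S hS
    by_contra hcon
    exact hex ⟨S, Finset.mem_filter.2 ⟨hS, by omega⟩⟩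
  obtain ⟨S0, hS0, hmin⟩ := Finset.exists_min_image _ Finset.card hex
  simp only [Finset.mem_filter] at hS0 hmin
  obtain ⟨hS0T, hS0tau⟩ := hS0
  have hbelow : ∀ S ∈ T, S ⊂ S0 → tau J a S + 1 ≤ tau J a (insert v S) := by
    intro S hS hlt
    by_contra hcon
    have := hmin S ⟨hS, by omega⟩
    have := Finset.card_lt_card hlt
    omega
  -- a vector with nonzero `v` coordinate
  obtain ⟨x0, hx0, hx0v⟩ : ∃ x, K J a (insert v S0) x ∧ x v ≠ 0 := by
    by_contra hcon
    push Not at hcon
    have := tau_insert_succ (hvS S0 hS0T) hcon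
    omega
  -- the good vector
  obtain ⟨x, hx, hxv, hgood⟩ : ∃ x, K J a (insert v S0) x ∧ x v ≠ 0 ∧
      ∀ S ∈ T, S ⊂ S0 → ∀ w ∈ L', ∀ t : F, t ≠ 0 → w + t • x ∉ E F (insert v S) := by
    by_cases hS0e : S0 = ∅
    · refine ⟨x0, hx0, hx0v, fun S _ hlt => ?_⟩
      rw [hS0e] at hlt
      exact absurd hlt (Finset.not_ssubset_empty S)
    obtain ⟨P, hP, c, hcP, hSc, hall⟩ := exists_pred hTc h0 hI hS0T hS0e
    have hPS : P ⊂ S0 := by rw [hSc]; exact Finset.ssubset_insert hcP
    have hcv : c ≠ v := by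
      rintro rfl
      apply hvS S0 hS0T
      rw [hSc]; exact Finset.mem_insert_self _ _
    have hcard : S0.card = P.card + 1 := by rw [hSc, Finset.card_insert_of_notMem hcP]
    have hins : insert v S0 = insert c (insert v P) := by rw [hSc, Finset.insert_comm]
    have hcvP : c ∉ insert v P := by simp [hcv, hcP]
    have e1 := hbelow P hP hPS
    have e2 := tau_add_le hL' S0
    have e3 := hopt P hP
    have e4 : d L' P ≤ d L' S0 := d_mono le_rfl hPS.subset
    have e5 : tau J a (insert v P) ≤ tau J a (insert v S0) := by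
      rw [hins]; exact tau_le_insert J a _ c
    obtain ⟨y, hy, hyc⟩ : ∃ y, K J a (insert v S0) y ∧ y c ≠ 0 := by
      by_contra hcon
      push Not at hcon
      rw [hins] at hcon
      have := tau_insert_succ hcvP hcon
      rw [← hins] at this
      omega
    obtain ⟨x, hx, hxv, hxc⟩ : ∃ x, K J a (insert v S0) x ∧ x v ≠ 0 ∧ x c ≠ 0 := by
      by_cases h1 : x0 c = 0
      · by_cases h2 : y v = 0
        · refine ⟨x0 + y, ⟨(E F _).add_mem hx0.1 hy.1, fun i hi => ?_⟩, ?_, ?_⟩
          · rw [dotProduct_add, hx0.2 i hi, hy.2 i hi, add_zero]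
          · simpa [h2] using hx0v
          · simpa [h1] using hyc
        · exact ⟨y, hy, h2, hyc⟩
      · exact ⟨x0, hx0, hx0v, h1⟩
    refine ⟨x, hx, hxv, fun S hS hlt w hw t ht hmem => ?_⟩
    have hSP : S ⊆ P := hall S hS hlt
    have hwE : w ∈ E F S0 := by
      intro e he
      by_cases hev : e = v
      · rw [hev]; exact hLV hw v hv
      · have h1 : x e = 0 := hx.1 e (by simp [hev, he])
        have h2 := hmem e (by
          simp only [Finset.mem_insert, not_or]
          exact ⟨hev, fun h => he (hlt.subset h)⟩)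
        simpa [h1] using h2
    have hwc : w c ≠ 0 := by
      intro h
      have h2 := hmem c (by
        simp only [Finset.mem_insert, not_or]
        exact ⟨hcv, fun h => hcP (hSP h)⟩)
      simp [h, ht, hxc] at h2
    have e6 := d_lt (L := L') le_rfl hPS.subset w hw hwE c hcP hwc
    omega
  refine ⟨L' ⊔ Submodule.span F {x}, ?_, le_sup_left, ?_, ?_⟩
  · intro z hz i hi
    obtain ⟨w, hw, u, hu, hsum⟩ := Submodule.mem_sup.1 hz
    obtain ⟨t, rfl⟩ := Submodule.mem_span_singleton.1 hu
    by_cases ht : t = 0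
    · have : z = w := by rw [← hsum, ht]; simp
      rw [this] at hi ⊢
      exact hL' w hw i hi
    have hwv : w v = 0 := hLV hw v hv
    have hzv : z v ≠ 0 := by
      rw [← hsum]
      simp [hwv, ht, hxv]
    obtain ⟨S, hS, hSmem⟩ := hrow i (hi v hzv)
    have hzE : z ∈ E F (insert v V') := by
      rw [← hsum]
      refine (E F _).add_mem (E_mono (Finset.subset_insert _ _) (hLV hw)) ((E F _).smul_mem _ ?_)
      exact E_mono (Finset.insert_subset_insert _ (hTV S0 hS0T)) hx.1
    by_cases hS0S : S0 ⊆ S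
    · have hxJ : ∀ c ∈ insert v S0, (i, c) ∈ J := by
        intro c hc
        rcases Finset.mem_insert.1 hc with h | h
        · rw [h]; exact hi v hzv
        · exact ((hSmem c).1 (hS0S h)).2
      have h1 : a i ⬝ᵥ x = 0 := hx.2 i hxJ
      have h2 : a i ⬝ᵥ w = 0 := by
        apply hL' w hw i
        intro c hc
        by_cases hzc : z c = 0
        · apply hxJ c
          by_contra hcon
          have h3 : x c = 0 := hx.1 c hcon
          rw [← hsum] at hzc
          simp [h3] at hzc
          exact hc hzc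
        · exact hi c hzc
      rw [← hsum, dotProduct_add, dotProduct_smul, h1, h2]
      simp
    · exfalso
      have hlt : S ⊂ S0 := ⟨(hTc S hS S0 hS0T).resolve_right hS0S, hS0S⟩
      apply hgood S hS hlt w hw t ht
      rw [hsum]
      intro e he
      by_contra hze
      simp only [Finset.mem_insert, not_or] at he
      have h1 : e ∈ insert v V' := by
        by_contra hcon
        exact hze (hzE e hcon)
      have h2 : e ∈ V' := (Finset.mem_insert.1 h1).resolve_left he.1
      exact he.2 ((hSmem e).2 ⟨h2, hi e hze⟩)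
  · apply sup_le (hLV.trans (E_mono (Finset.subset_insert _ _)))
    rw [Submodule.span_le, Set.singleton_subset_iff]
    exact E_mono (Finset.insert_subset_insert _ (hTV S0 hS0T)) hx.1
  · intro S hS
    by_cases hS0S : S0 ⊆ S
    · have h1 := hopt S hS
      have h2 : d L' S + 1 ≤ d (L' ⊔ Submodule.span F {x}) (insert v S) :=
        d_lt le_sup_left (Finset.subset_insert _ _) x
          (Submodule.mem_sup_right (Submodule.mem_span_singleton_self x))
          (E_mono (Finset.insert_subset_insert _ hS0S) hx.1) v (hvS S hS) hxv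
      have h3 := tau_le_insert J a S v
      rw [Finset.card_insert_of_notMem (hvS S hS)]
      omega
    · have hlt : S ⊂ S0 := ⟨(hTc S hS S0 hS0T).resolve_right hS0S, hS0S⟩
      exact hjump _ le_sup_left S hS (hbelow S hS hlt)

/-- every nonempty set of columns has a nest point. -/
def Nest (J : Set (ι × κ)) : Prop :=
  ∀ V : Finset κ, V.Nonempty → ∃ v ∈ V, ∀ i i', (i, v) ∈ J → (i', v) ∈ J →
    (∀ c ∈ V, (i, c) ∈ J → (i', c) ∈ J) ∨ (∀ c ∈ V, (i', c) ∈ J → (i, c) ∈ J)

theorem main_ind [Fintype ι] {J : Set (ι × κ)} (a : Matrix ι κ F) (hN : Nest J) :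
    ∀ (n : ℕ) (V : Finset κ), V.card = n →
      ∃ (L : Submodule F (κ → F)) (H : Finset (Finset κ)), Valid J a L ∧ L ≤ E F V ∧
        Interp H ∧ ∅ ∈ H ∧ V ∈ H ∧ (∀ S ∈ H, S ⊆ V) ∧
        (∀ i, ∃ S ∈ H, ∀ c, c ∈ S ↔ c ∈ V ∧ (i, c) ∈ J) ∧
        ∀ S ∈ H, S.card ≤ tau J a S + d L S := by
  classical
  intro n
  induction n with
  | zero =>
    intro V hV
    rw [Finset.card_eq_zero] at hV
    subst hV
    refine ⟨⊥, {∅}, ?_, bot_le, ?_, by simp, by simp, by simp, fun i => ⟨∅, by simp, by simp⟩,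
      by simp⟩
    · intro x hx i _
      rw [Submodule.mem_bot] at hx
      simp [hx]
    · intro A hA B hB _ hc
      rw [Finset.mem_singleton] at hB
      rw [hB] at hc
      simp at hc
  | succ n ih =>
    intro V hV
    obtain ⟨v, hvV, hnest⟩ := hN V (Finset.card_pos.1 (by omega))
    have hV' : (V.erase v).card = n := by rw [Finset.card_erase_of_mem hvV]; omega
    obtain ⟨L', H', hL', hLV, hI, h0, hVH, hsub, hrow, hopt⟩ := ih (V.erase v) hV'
    set V' := V.erase v with hV'def
    have hv : v ∉ V' := Finset.notMem_erase v V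
    have hVins : V = insert v V' := (Finset.insert_erase hvV).symm
    choose R hRH hR using hrow
    obtain ⟨T, hCT, hTH, hTc, hT0, hTV, hTI⟩ := exists_sat_chain H'
      ((Finset.univ.filter (fun i => (i, v) ∈ J)).image R) V' hI h0 hVH hsub
      (by
        intro S hS
        obtain ⟨i, -, rfl⟩ := Finset.mem_image.1 hS
        exact hRH i)
      (by
        intro A hA B hB
        obtain ⟨i, hi, rfl⟩ := Finset.mem_image.1 hA
        obtain ⟨i', hi', rfl⟩ := Finset.mem_image.1 hB
        simp only [Finset.mem_filter, Finset.mem_univ, true_and] at hi hi'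
        rcases hnest i i' hi hi' with h | h
        · left
          intro c hc
          have := (hR i c).1 hc
          exact (hR i' c).2 ⟨this.1, h c (Finset.mem_of_mem_erase this.1) this.2⟩
        · right
          intro c hc
          have := (hR i' c).1 hc
          exact (hR i c).2 ⟨this.1, h c (Finset.mem_of_mem_erase this.1) this.2⟩)
    have hRT : ∀ i, (i, v) ∈ J → R i ∈ T := fun i hi =>
      hCT (Finset.mem_image.2 ⟨i, by simp [hi], rfl⟩)
    obtain ⟨L, hL, hLL, hLE, hopt2⟩ := step hv hL' hLV hTc hT0 hTI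
      (fun S hS => hsub S (hTH hS)) (fun S hS => hopt S (hTH hS))
      (fun i hi => ⟨R i, hRT i hi, hR i⟩)
    have hvS : ∀ S ∈ H', v ∉ S := fun S hS h => hv (hsub S hS h)
    refine ⟨L, H' ∪ T.image (insert v), hL, by rw [hVins]; exact hLE, ?_,
      Finset.mem_union_left _ h0, ?_, ?_, ?_, ?_⟩
    · intro A hA B hB hAB hcard
      rcases Finset.mem_union.1 hB with hB | hB
      · rcases Finset.mem_union.1 hA with hA | hA
        · obtain ⟨C, hC, h1, h2⟩ := hI A hA B hB hAB hcard
          exact ⟨C, Finset.mem_union_left _ hC, h1, h2⟩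
        · obtain ⟨A', hA', rfl⟩ := Finset.mem_image.1 hA
          exact absurd (hAB (Finset.mem_insert_self _ _)) (hvS B hB)
      · obtain ⟨B', hB', rfl⟩ := Finset.mem_image.1 hB
        have hvB := hvS B' (hTH hB')
        rw [Finset.card_insert_of_notMem hvB] at hcard
        rcases Finset.mem_union.1 hA with hA | hA
        · have hAB' : A ⊆ B' := (Finset.subset_insert_iff_of_notMem (hvS A hA)).1 hAB
          refine ⟨B', Finset.mem_union_left _ (hTH hB'), ⟨hAB', fun h => ?_⟩,
            Finset.ssubset_insert hvB⟩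
          have := Finset.card_le_card h
          omega
        · obtain ⟨A', hA', rfl⟩ := Finset.mem_image.1 hA
          have hvA := hvS A' (hTH hA')
          rw [Finset.card_insert_of_notMem hvA] at hcard
          have hAB' : A' ⊆ B' :=
            (Finset.subset_insert_iff_of_notMem hvA).1 ((Finset.subset_insert _ _).trans hAB)
          obtain ⟨C, hC, h1, h2⟩ := hTI A' hA' B' hB' hAB' (by omega)
          have hvC := hvS C (hTH hC)
          refine ⟨insert v C, Finset.mem_union_right _ (Finset.mem_image_of_mem _ hC),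
            ⟨Finset.insert_subset_insert _ h1.subset, fun h => h1.2 ?_⟩,
            ⟨Finset.insert_subset_insert _ h2.subset, fun h => h2.2 ?_⟩⟩
          · exact (Finset.subset_insert_iff_of_notMem hvC).1 ((Finset.subset_insert _ _).trans h)
          · exact (Finset.subset_insert_iff_of_notMem hvB).1 ((Finset.subset_insert _ _).trans h)
    · rw [hVins]
      exact Finset.mem_union_right _ (Finset.mem_image_of_mem _ hTV)
    · intro S hS
      rcases Finset.mem_union.1 hS with hS | hS
      · exact (hsub S hS).trans (Finset.erase_subset _ _)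
      · obtain ⟨S', hS', rfl⟩ := Finset.mem_image.1 hS
        rw [hVins]
        exact Finset.insert_subset_insert _ (hsub S' (hTH hS'))
    · intro i
      by_cases hi : (i, v) ∈ J
      · refine ⟨insert v (R i), Finset.mem_union_right _ (Finset.mem_image_of_mem _ (hRT i hi)),
          fun c => ?_⟩
        rw [Finset.mem_insert, hR i c, hVins, Finset.mem_insert]
        constructor
        · rintro (h | h)
          · exact ⟨Or.inl h, by rw [h]; exact hi⟩
          · exact ⟨Or.inr h.1, h.2⟩
        · rintro ⟨h | h, h'⟩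
          · exact Or.inl h
          · exact Or.inr ⟨h, h'⟩
      · refine ⟨R i, Finset.mem_union_left _ (hRH i), fun c => ?_⟩
        rw [hR i c, hVins, Finset.mem_insert]
        constructor
        · rintro ⟨h, h'⟩
          exact ⟨Or.inr h, h'⟩
        · rintro ⟨h | h, h'⟩
          · rw [h] at h'; exact absurd h' hi
          · exact ⟨h, h'⟩
    · intro S hS
      rcases Finset.mem_union.1 hS with hS | hS
      · have h1 := hopt S hS
        have h2 : d L' S ≤ d L S := d_mono hLL (Finset.Subset.refl _)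
        omega
      · obtain ⟨S', hS', rfl⟩ := Finset.mem_image.1 hS
        exact hopt2 S' hS'

/-- The main theorem for patterns with nest points. -/
theorem exists_tri [Fintype ι] {J : Set (ι × κ)} (a : Matrix ι κ F) (hN : Nest J) :
    ∃ (B : Matrix ι κ F) (T : Set (ι × κ)), (∀ p ∈ J, B p.1 p.2 = a p.1 p.2) ∧ T ⊆ J ∧ Tri T ∧
      ∀ B' : Matrix ι κ F, (∀ p ∈ T, B' p.1 p.2 = a p.1 p.2) → B.rank ≤ B'.rank := by
  obtain ⟨L, H, hL, -, -, -, hVH, -, -, hopt⟩ := main_ind a hN _ Finset.univ rfl
  obtain ⟨B, hB, hBL⟩ := exists_completion hL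
  obtain ⟨T, hT, hT2, -, hT4⟩ := low_tau J a Finset.univ
  refine ⟨B, T, hB, hT, hT2, fun B' hB' => ?_⟩
  have h1 := hopt _ hVH
  have h2 := hT4 _ (valid_ker hB')
  rw [d_univ] at h1 h2
  have h3 := rank_add_ker B
  have h4 := rank_add_ker B'
  have h5 : finrank F L ≤ finrank F (LinearMap.ker B.mulVecLin) :=
    Submodule.finrank_mono (fun x hx => by simpa using hBL x hx)
  rw [Finset.card_univ] at h1 h2
  omega

end Pool.Agent.H709Z.Cjrw
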