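import Mathlib
import Pool.Agent.H709Z.CjrwInd

set_option autoImplicit false

namespace Pool.Agent.H709Z.Cjrw

theorem swap_le {α : Type} [Fintype α] [DecidableEq α] (g val : α → ℤ) (a b : α)
    (h : ∑ k, g (Equiv.swap a b k) * val k ≤ ∑ k, g k * val k) (hg : g a < g b) :
    val a ≤ val b := by
  have hab : a ≠ b := by
    rintro rfl
    exact lt_irrefl _ hg
  have h1 : ∑ k, (g (Equiv.swap a b k) - g k) * val k =
      (g (Equiv.swap a b a) - g a) * val a + (g (Equiv.swap a b b) - g b) * val b := by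
    apply Fintype.sum_eq_add a b hab
    intro x hx
    rw [Equiv.swap_apply_of_ne_of_ne hx.1 hx.2]
    simp
  rw [Equiv.swap_apply_left, Equiv.swap_apply_right] at h1
  have h2 : ∑ k, (g (Equiv.swap a b k) - g k) * val k ≤ 0 := by
    simp only [sub_mul, Finset.sum_sub_distrib]
    linarith
  rw [h1] at h2
  by_contra hcon
  push Not at hcon
  nlinarith

open Classical in
theorem colex_step {β : Type} [Fintype β] (ρ : β → ℕ) (hρ : Function.Injective ρ)
    (P Q : β → Prop)
    (h : ∑ k, (if P k then (2 : ℤ) ^ ρ k else 0) ≤ ∑ k, (if Q k then (2 : ℤ) ^ ρ k else 0))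
    (j : β) (hP : P j) (hQ : ¬ Q j) :
    ∃ l, ρ j < ρ l ∧ ¬ P l ∧ Q l ∧ ∀ k, ρ l < ρ k → (P k ↔ Q k) := by
  have hne : (Finset.univ.filter (fun k => ¬ (P k ↔ Q k))).Nonempty :=
    ⟨j, by simp [hP, hQ]⟩
  obtain ⟨l, hl, hmax⟩ := Finset.exists_max_image _ ρ hne
  simp only [Finset.mem_filter, Finset.mem_univ, true_and] at hl hmax
  have hagree : ∀ k, ρ l < ρ k → (P k ↔ Q k) := by
    intro k hk
    by_contra hcon
    have := hmax k hcon
    omega
  by_cases hPl : P l
  · exfalso
    have hQl : ¬ Q l := fun hq => hl ⟨fun _ => hq, fun _ => hPl⟩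
    have h1 : ∑ k, ((if Q k then (2 : ℤ) ^ ρ k else 0) + (if k = l then (2 : ℤ) ^ ρ k else 0)) ≤
        ∑ k, ((if P k then (2 : ℤ) ^ ρ k else 0) + (if ρ k < ρ l then (2 : ℤ) ^ ρ k else 0)) := by
      apply Finset.sum_le_sum
      intro k _
      have hp : (0 : ℤ) < 2 ^ ρ k := by positivity
      rcases lt_trichotomy (ρ k) (ρ l) with hk | hk | hk
      · have hkl : k ≠ l := by rintro rfl; exact lt_irrefl _ hk
        simp only [hk, hkl, if_true, if_false]
        split_ifs <;> linarith
      · have hkl : k = l := hρ hk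
        subst hkl
        simp [hPl, hQl]
      · have hkl : k ≠ l := by rintro rfl; exact lt_irrefl _ hk
        have h3 : ¬ ρ k < ρ l := by omega
        simp only [h3, hkl, if_false, hagree k hk]
        exact le_rfl
    rw [Finset.sum_add_distrib, Finset.sum_add_distrib] at h1
    have h2 : ∑ k, (if k = l then (2 : ℤ) ^ ρ k else 0) = 2 ^ ρ l := by simp
    have h3 : ∑ k, (if ρ k < ρ l then (2 : ℤ) ^ ρ k else 0) < 2 ^ ρ l := by
      rw [← Finset.sum_filter]
      have h4 := Nat.geomSum_lt (m := 2) (n := ρ l)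
        (s := (Finset.univ.filter (fun k => ρ k < ρ l)).image ρ) le_rfl (by
          intro x hx
          obtain ⟨k, hk, rfl⟩ := Finset.mem_image.1 hx
          exact (Finset.mem_filter.1 hk).2)
      rw [Finset.sum_image (fun x _ y _ hxy => hρ hxy)] at h4
      exact_mod_cast h4
    linarith
  · have hQl : Q l := by
      by_contra hq
      exact hl ⟨fun hp => absurd hp hPl, fun hq' => absurd hq' hq⟩
    refine ⟨l, ?_, hPl, hQl, hagree⟩
    have h1 := hmax j (by simp [hP, hQ])
    have h2 : ρ j ≠ ρ l := by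
      intro h2
      rw [hρ h2] at hP
      exact hPl hP
    omega

/-- one half of the doubly lexical property. -/
def Lex {ι κ : Type} (M : ι → κ → Prop) (σ : ι → ℕ) (π : κ → ℕ) : Prop :=
  ∀ i i' j, σ i < σ i' → M i j → ¬ M i' j →
    ∃ l, π j < π l ∧ ¬ M i l ∧ M i' l ∧ ∀ k, π l < π k → (M i k ↔ M i' k)

open Classical in
theorem exists_doubly_lex {ι κ : Type} [Fintype ι] [Fintype κ] (M : ι → κ → Prop) :
    ∃ (σ : ι → ℕ) (π : κ → ℕ), Function.Injective σ ∧ Function.Injective π ∧
      Lex M σ π ∧ Lex (fun j i => M i j) π σ := by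
  let e := Fintype.equivFin ι
  let e' := Fintype.equivFin κ
  let Φ : Equiv.Perm ι × Equiv.Perm κ → ℤ := fun st =>
    ∑ i, ∑ j, if M i j then (2 : ℤ) ^ (e (st.1 i)).val * 2 ^ (e' (st.2 j)).val else 0
  obtain ⟨⟨s, t⟩, -, hmax⟩ := Finset.exists_max_image Finset.univ Φ Finset.univ_nonempty
  have hσ : Function.Injective (fun i => (e (s i)).val) := by
    intro i i' h
    exact s.injective (e.injective (Fin.ext h))
  have hπ : Function.Injective (fun j => (e' (t j)).val) := by
    intro i i' h
    exact t.injective (e'.injective (Fin.ext h))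
  have hrow : ∀ s' : Equiv.Perm ι, Φ (s', t) = ∑ i, (2 : ℤ) ^ (e (s' i)).val *
      ∑ j, if M i j then (2 : ℤ) ^ (e' (t j)).val else 0 := by
    intro s'
    simp only [Φ, Finset.mul_sum, mul_ite, mul_zero]
  have hcol : ∀ t' : Equiv.Perm κ, Φ (s, t') = ∑ j, (2 : ℤ) ^ (e' (t' j)).val *
      ∑ i, if M i j then (2 : ℤ) ^ (e (s i)).val else 0 := by
    intro t'
    simp only [Φ, Finset.mul_sum, mul_ite, mul_zero]
    rw [Finset.sum_comm]
    simp only [mul_comm]
  refine ⟨fun i => (e (s i)).val, fun j => (e' (t j)).val, hσ, hπ, ?_, ?_⟩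
  · intro i i' j hii' hM hM'
    refine colex_step _ hπ (M i) (M i') ?_ j hM hM'
    apply swap_le (fun i => (2 : ℤ) ^ (e (s i)).val)
      (fun i => ∑ j, if M i j then (2 : ℤ) ^ (e' (t j)).val else 0) i i'
    · have := hmax (s * Equiv.swap i i', t) (Finset.mem_univ _)
      rw [hrow, hrow] at this
      exact this
    · exact pow_lt_pow_right₀ (by norm_num) hii'
  · intro j j' i hjj' hM hM'
    refine colex_step _ hσ (fun i => M i j) (fun i => M i j') ?_ i hM hM'
    apply swap_le (fun j => (2 : ℤ) ^ (e' (t j)).val)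
      (fun j => ∑ i, if M i j then (2 : ℤ) ^ (e (s i)).val else 0) j j'
    · have := hmax (s, t * Equiv.swap j j') (Finset.mem_univ _)
      rw [hcol, hcol] at this
      exact this
    · exact pow_lt_pow_right₀ (by norm_num) hjj'

/-- no induced cycle of length at least six, in matrix form. -/
def NoHole {ι κ : Type} (M : ι → κ → Prop) : Prop :=
  ∀ (k : ℕ) (r : ℕ → ι) (c : ℕ → κ), 2 ≤ k →
    (∀ a b, a ≤ k → b ≤ k → r a = r b → a = b) → (∀ a b, a ≤ k → b ≤ k → c a = c b → a = b) →
    ¬ (∀ a b, a ≤ k → b ≤ k →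
      (M (r a) (c b) ↔ (a = b + 1 ∨ b = a + 1 ∨ (a = 0 ∧ b = 0) ∨ (a = k ∧ b = k))))

/-- growing configuration. -/
def Conf {ι κ : Type} (M : ι → κ → Prop) (σ : ι → ℕ) (π : κ → ℕ) (k : ℕ) (r : ℕ → ι)
    (c : ℕ → κ) : Prop :=
  1 ≤ k ∧ (∀ a b, a < b → b ≤ k → σ (r a) < σ (r b)) ∧ (∀ a b, a < b → b ≤ k → π (c a) < π (c b)) ∧
    (∀ a b, a ≤ k → b ≤ k → (M (r a) (c b) ↔ (a = b + 1 ∨ b = a + 1 ∨ (a = 0 ∧ b = 0)))) ∧
    (∀ a, a < k → ∀ j, π (c k) < π j → (M (r a) j ↔ M (r 0) j)) ∧
    (∀ b, b < k → ∀ i, σ (r k) < σ i → (M i (c b) ↔ M i (c 0)))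

theorem conf_step {ι κ : Type} {M : ι → κ → Prop} {σ : ι → ℕ} {π : κ → ℕ}
    (h1 : Lex M σ π) (h2 : Lex (fun j i => M i j) π σ) (hN : NoHole M) {k : ℕ} {r : ℕ → ι}
    {c : ℕ → κ} (h : Conf M σ π k r c) : ∃ r' c', Conf M σ π (k + 1) r' c' := by
  obtain ⟨hk, hr, hc, hM, hra, hca⟩ := h
  obtain ⟨l, hl1, hl2, hl3, hl4⟩ := h1 (r (k - 1)) (r k) (c k) (hr _ _ (by omega) le_rfl)
    ((hM _ _ (by omega) le_rfl).2 (by omega)) (fun h => by
      have := (hM _ _ le_rfl le_rfl).1 h
      omega)
  obtain ⟨i, hi1, hi2, hi3, hi4⟩ := h2 (c (k - 1)) (c k) (r k) (hc _ _ (by omega) le_rfl)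
    ((hM _ _ le_rfl (by omega)).2 (by omega)) (fun h => by
      have := (hM _ _ le_rfl le_rfl).1 h
      omega)
  let r' : ℕ → ι := fun a => if a ≤ k then r a else i
  let c' : ℕ → κ := fun a => if a ≤ k then c a else l
  have er : ∀ a, a ≤ k → r' a = r a := fun a ha => by simp [r', ha]
  have ec : ∀ a, a ≤ k → c' a = c a := fun a ha => by simp [c', ha]
  have er' : r' (k + 1) = i := by simp [r']
  have ec' : c' (k + 1) = l := by simp [c']
  have hr' : ∀ a b, a < b → b ≤ k + 1 → σ (r' a) < σ (r' b) := by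
    intro a b hab hb
    by_cases hbk : b ≤ k
    · rw [er a (by omega), er b hbk]; exact hr a b hab hbk
    · have hb' : b = k + 1 := by omega
      rw [hb', er', er a (by omega)]
      by_cases hak : a = k
      · rw [hak]; exact hi1
      · exact lt_trans (hr a k (by omega) le_rfl) hi1
  have hc' : ∀ a b, a < b → b ≤ k + 1 → π (c' a) < π (c' b) := by
    intro a b hab hb
    by_cases hbk : b ≤ k
    · rw [ec a (by omega), ec b hbk]; exact hc a b hab hbk
    · have hb' : b = k + 1 := by omega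
      rw [hb', ec', ec a (by omega)]
      by_cases hak : a = k
      · rw [hak]; exact hl1
      · exact lt_trans (hc a k (by omega) le_rfl) hl1
  have hrl : ∀ a, a ≤ k → (M (r a) l ↔ a = k) := by
    intro a ha
    by_cases hak : a = k
    · rw [hak]; simp [hl3]
    · have e1 := hra a (by omega) l hl1
      have e2 := hra (k - 1) (by omega) l hl1
      simp only [hak, iff_false]
      intro hh
      exact hl2 (e2.2 (e1.1 hh))
  have hic : ∀ b, b ≤ k → (M i (c b) ↔ b = k) := by
    intro b hb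
    by_cases hbk : b = k
    · rw [hbk]; simpa using hi3
    · have e1 := hca b (by omega) i hi1
      have e2 := hca (k - 1) (by omega) i hi1
      simp only [hbk, iff_false]
      intro hh
      exact hi2 (e2.2 (e1.1 hh))
  have hM' : ∀ a b, a ≤ k + 1 → b ≤ k + 1 → ¬ (a = k + 1 ∧ b = k + 1) →
      (M (r' a) (c' b) ↔ (a = b + 1 ∨ b = a + 1 ∨ (a = 0 ∧ b = 0))) := by
    intro a b ha hb hab
    by_cases hak : a ≤ k
    · by_cases hbk : b ≤ k
      · rw [er a hak, ec b hbk]; exact hM a b hak hbk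
      · have hb' : b = k + 1 := by omega
        rw [hb', ec', er a hak, hrl a hak]
        omega
    · have ha' : a = k + 1 := by omega
      have hbk : b ≤ k := by omega
      rw [ha', er', ec b hbk, hic b hbk]
      omega
  have hil : ¬ M i l := by
    intro hil
    apply hN (k + 1) r' c' (by omega)
    · intro a b ha hb hab
      rcases lt_trichotomy a b with h | h | h
      · have := hr' a b h hb
        rw [hab] at this
        exact absurd this (lt_irrefl _)
      · exact h
      · have := hr' b a h ha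
        rw [hab] at this
        exact absurd this (lt_irrefl _)
    · intro a b ha hb hab
      rcases lt_trichotomy a b with h | h | h
      · have := hc' a b h hb
        rw [hab] at this
        exact absurd this (lt_irrefl _)
      · exact h
      · have := hc' b a h ha
        rw [hab] at this
        exact absurd this (lt_irrefl _)
    · intro a b ha hb
      by_cases hab : a = k + 1 ∧ b = k + 1
      · rw [hab.1, hab.2, er', ec']
        simp [hil]
      · rw [hM' a b ha hb hab]
        omega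
  refine ⟨r', c', by omega, hr', hc', ?_, ?_, ?_⟩
  · intro a b ha hb
    by_cases hab : a = k + 1 ∧ b = k + 1
    · rw [hab.1, hab.2, er', ec']
      simp [hil]
    · exact hM' a b ha hb hab
  · intro a ha j hj
    rw [ec'] at hj
    rw [er a (by omega), er 0 (by omega)]
    by_cases hak : a = k
    · rw [hak, ← hl4 j hj]
      exact hra (k - 1) (by omega) j (lt_trans hl1 hj)
    · exact hra a (by omega) j (lt_trans hl1 hj)
  · intro b hb i' hi'
    rw [er'] at hi'
    rw [ec b (by omega), ec 0 (by omega)]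
    by_cases hbk : b = k
    · have := hi4 i' hi'
      simp only at this
      rw [hbk, ← this]
      exact hca (k - 1) (by omega) i' (lt_trans hi1 hi')
    · exact hca b (by omega) i' (lt_trans hi1 hi')

theorem gamma_free {ι κ : Type} [Fintype ι] {M : ι → κ → Prop} {σ : ι → ℕ} {π : κ → ℕ}
    (h1 : Lex M σ π) (h2 : Lex (fun j i => M i j) π σ) (hN : NoHole M)
    {i i' : ι} {j j' : κ} (hi : σ i < σ i') (hj : π j < π j') (e1 : M i j) (e2 : M i j')
    (e3 : M i' j) : M i' j' := by
  by_contra e4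
  have hall : ∀ k, ∃ r c, Conf M σ π (k + 1) r c := by
    intro k
    induction k with
    | zero =>
      refine ⟨fun a => if a = 0 then i else i', fun a => if a = 0 then j else j', le_rfl,
        ?_, ?_, ?_, ?_, ?_⟩
      · intro a b hab hb
        have ha : a = 0 := by omega
        have hb' : b = 1 := by omega
        simp [ha, hb', hi]
      · intro a b hab hb
        have ha : a = 0 := by omega
        have hb' : b = 1 := by omega
        simp [ha, hb', hj]
      · intro a b ha hb
        have ha' : a = 0 ∨ a = 1 := by omega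
        have hb' : b = 0 ∨ b = 1 := by omega
        rcases ha' with ha' | ha' <;> rcases hb' with hb' | hb' <;> simp [ha', hb', e1, e2, e3, e4]
      · intro a ha j _
        have ha' : a = 0 := by omega
        rw [ha']
      · intro a ha j _
        have ha' : a = 0 := by omega
        rw [ha']
    | succ k ih =>
      obtain ⟨r, c, h⟩ := ih
      exact conf_step h1 h2 hN h
  obtain ⟨r, c, -, hr, -⟩ := hall (Fintype.card ι)
  have hinj : Function.Injective (fun a : Fin (Fintype.card ι + 1) => r a) := by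
    intro a b hab
    simp only at hab
    apply Fin.ext
    rcases lt_trichotomy a.val b.val with h | h | h
    · have := hr a b h (by omega)
      rw [hab] at this
      exact absurd this (lt_irrefl _)
    · exact h
    · have := hr b a h (by omega)
      rw [hab] at this
      exact absurd this (lt_irrefl _)
  have := Fintype.card_le_of_injective _ hinj
  simp at this

theorem nest_of_noHole {ι κ : Type} [Fintype ι] [Fintype κ] [DecidableEq κ] {J : Set (ι × κ)}
    (hN : NoHole (fun i j => (i, j) ∈ J)) : Nest J := by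
  obtain ⟨σ, π, hσ, hπ, h1, h2⟩ := exists_doubly_lex (fun i j => (i, j) ∈ J)
  intro V hV
  obtain ⟨v, hv, hmin⟩ := Finset.exists_min_image V π hV
  have key : ∀ i i', σ i < σ i' → (i, v) ∈ J → (i', v) ∈ J →
      ∀ c ∈ V, (i, c) ∈ J → (i', c) ∈ J := by
    intro i i' hlt hi hi' c hc hic
    by_cases hcv : c = v
    · rw [hcv]; exact hi'
    · have h3 : π v < π c := lt_of_le_of_ne (hmin c hc) (fun h => hcv (hπ h).symm)
      exact gamma_free h1 h2 hN hlt h3 hi hic hi'
  refine ⟨v, hv, fun i i' hi hi' => ?_⟩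
  rcases lt_trichotomy (σ i) (σ i') with h | h | h
  · exact Or.inl (key i i' h hi hi')
  · rw [hσ h]; exact Or.inl (fun _ _ h => h)
  · exact Or.inr (key i' i h hi' hi)

theorem exists_walk {V : Type} (G : SimpleGraph V) : ∀ (n : ℕ) (f : ℕ → V) (u v : V),
    f 0 = u → f n = v → (∀ i, i < n → G.Adj (f i) (f (i + 1))) →
    ∃ p : G.Walk u v, p.length = n ∧ ∀ i, i ≤ n → p.getVert i = f i := by
  intro n
  induction n with
  | zero =>
    intro f u v hu hv _
    subst hu
    subst hv
    refine ⟨SimpleGraph.Walk.nil, rfl, fun i hi => ?_⟩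
    have : i = 0 := by omega
    simp [this]
  | succ n ih =>
    intro f u v hu hv h
    obtain ⟨p, hp1, hp2⟩ := ih (fun i => f (i + 1)) (f 1) v rfl hv
      (fun i hi => h (i + 1) (by omega))
    subst hu
    refine ⟨SimpleGraph.Walk.cons (h 0 (by omega)) p, by simp [hp1], fun i hi => ?_⟩
    cases i with
    | zero => simp
    | succ i =>
      rw [SimpleGraph.Walk.getVert_cons_succ]
      exact hp2 i (by omega)

theorem noHole_of_chord {ι κ : Type} {J : Set (ι × κ)} (G : SimpleGraph (ι ⊕ κ))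
    (hG : G = SimpleGraph.fromRel (fun x y : ι ⊕ κ =>
      ∃ i j, x = Sum.inl i ∧ y = Sum.inr j ∧ (i, j) ∈ J))
    (h : ∀ (u : ι ⊕ κ) (c : G.Walk u u), c.IsCycle → 6 ≤ c.length →
      ∃ i j : ℕ, i + 1 < j ∧ j < c.length ∧ ¬ (i = 0 ∧ j + 1 = c.length) ∧
        G.Adj (c.getVert i) (c.getVert j)) :
    NoHole (fun i j => (i, j) ∈ J) := by
  intro k r c hk hr hc hM
  have a1 : ∀ i j, G.Adj (Sum.inl i) (Sum.inr j) ↔ (i, j) ∈ J := by
    intro i j
    simp [hG, SimpleGraph.fromRel_adj]
  have a2 : ∀ i j, G.Adj (Sum.inr j) (Sum.inl i) ↔ (i, j) ∈ J := by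
    intro i j
    rw [G.adj_comm, a1]
  have a3 : ∀ i i', ¬ G.Adj (Sum.inl i) (Sum.inl i') := by
    intro i i'
    simp [hG, SimpleGraph.fromRel_adj]
  have a4 : ∀ j j', ¬ G.Adj (Sum.inr j) (Sum.inr j') := by
    intro j j'
    simp [hG, SimpleGraph.fromRel_adj]
  let idx : ℕ → ℕ := fun t => if t ≤ k then t else 2 * k + 1 - t
  have hidx : ∀ t, (t ≤ k ∧ idx t = t) ∨ (k < t ∧ idx t = 2 * k + 1 - t) := by
    intro t
    by_cases ht : t ≤ k
    · left; simp [idx, ht]
    · right; simp only [idx, ht, if_false, and_true]; omega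
  have hidxle : ∀ t, idx t ≤ k := by
    intro t
    have := hidx t
    omega
  let f : ℕ → ι ⊕ κ := fun t => if t % 2 = 0 then Sum.inl (r (idx t)) else Sum.inr (c (idx t))
  have f0 : ∀ t, t % 2 = 0 → f t = Sum.inl (r (idx t)) := fun t ht => by simp [f, ht]
  have f1 : ∀ t, t % 2 = 1 → f t = Sum.inr (c (idx t)) := fun t ht => by simp [f, ht]
  have hadj : ∀ s t, G.Adj (f s) (f t) ↔ (s % 2 ≠ t % 2 ∧
      (idx s = idx t + 1 ∨ idx t = idx s + 1 ∨ (idx s = 0 ∧ idx t = 0) ∨
        (idx s = k ∧ idx t = k))) := by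
    intro s t
    rcases Nat.mod_two_eq_zero_or_one s with hs | hs <;>
      rcases Nat.mod_two_eq_zero_or_one t with ht | ht
    · rw [f0 s hs, f0 t ht]; simp [a3, hs, ht]
    · rw [f0 s hs, f1 t ht, a1]
      have := hM _ _ (hidxle s) (hidxle t)
      simp only at this
      rw [this]; omega
    · rw [f1 s hs, f0 t ht, a2]
      have := hM _ _ (hidxle t) (hidxle s)
      simp only at this
      rw [this]; omega
    · rw [f1 s hs, f1 t ht]; simp [a4, hs, ht]
  have hinj : ∀ s t, f s = f t → s % 2 = t % 2 ∧ idx s = idx t := by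
    intro s t hst
    rcases Nat.mod_two_eq_zero_or_one s with hs | hs <;>
      rcases Nat.mod_two_eq_zero_or_one t with ht | ht
    · rw [f0 s hs, f0 t ht] at hst
      exact ⟨by omega, hr _ _ (hidxle s) (hidxle t) (Sum.inl_injective hst)⟩
    · rw [f0 s hs, f1 t ht] at hst; simp at hst
    · rw [f1 s hs, f0 t ht] at hst; simp at hst
    · rw [f1 s hs, f1 t ht] at hst
      exact ⟨by omega, hc _ _ (hidxle s) (hidxle t) (Sum.inr_injective hst)⟩
  have hend : f (2 * k + 2) = f 0 := by
    rw [f0 _ (by omega), f0 0 rfl]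
    have e1 := hidx (2 * k + 2)
    have e2 := hidx 0
    have : idx (2 * k + 2) = idx 0 := by omega
    rw [this]
  obtain ⟨p, hp1, hp2⟩ := exists_walk G (2 * k + 2) f (f 0) (f 0) rfl hend (by
    intro i hi
    rw [hadj]
    have e1 := hidx i
    have e2 := hidx (i + 1)
    omega)
  have hcyc : p.IsCycle := by
    rw [SimpleGraph.Walk.isCycle_iff_isPath_tail_and_le_length]
    refine ⟨?_, by omega⟩
    have hnil : ¬ p.Nil := by
      rw [SimpleGraph.Walk.not_nil_iff_lt_length]; omega
    have hlen := SimpleGraph.Walk.length_tail_add_one hnil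
    rw [← SimpleGraph.Walk.IsPath.getVert_injOn_iff]
    intro s hs t ht hst
    simp only [Set.mem_ofPred_eq] at hs ht
    rw [SimpleGraph.Walk.getVert_tail, SimpleGraph.Walk.getVert_tail, hp2 _ (by omega),
      hp2 _ (by omega)] at hst
    have e0 := hinj _ _ hst
    have e1 := hidx (s + 1)
    have e2 := hidx (t + 1)
    omega
  obtain ⟨i, j, h1, h2, h3, h4⟩ := h _ p hcyc (by omega)
  rw [hp2 _ (by omega), hp2 _ (by omega), hadj] at h4
  have e1 := hidx i
  have e2 := hidx j
  omega

end Pool.Agent.H709Z.Cjrw
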