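import Mathlib

set_option autoImplicit false

open Finset

namespace Pool.Agent.H709Z.Consec

/-- a permutation of `Fin n` as a sequence -/
def X (n : ℕ) (π : Equiv.Perm (Fin n)) : ℕ → ℕ :=
  fun i => if h : i < n then ((π ⟨i, h⟩ : Fin n) : ℕ) else 0

/-- `φ` depends only on the relative order of the first `i` terms -/
def Inv (i : ℕ) (φ : (ℕ → ℕ) → ℤ) : Prop :=
  ∀ x y : ℕ → ℕ, (∀ a b, a < i → b < i → (x a < x b ↔ y a < y b)) → φ x = φ y

theorem exists_std {n : ℕ} {α : Type} [LinearOrder α] (y : Fin n → α) :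
    ∃ ρ : Equiv.Perm (Fin n), ∀ a b, y a < y b → ρ a < ρ b := by
  refine ⟨(Tuple.sort y).symm, fun a b h => ?_⟩
  have hm := Tuple.monotone_sort y
  by_contra hc
  have := hm (not_lt.1 hc)
  simp only [Function.comp, Equiv.apply_symm_apply] at this
  exact absurd h (not_lt.2 this)

theorem exists_std_inj {n : ℕ} (y : Fin n → ℕ) (hy : Function.Injective y) :
    ∃ ρ : Equiv.Perm (Fin n), ∀ a b, y a < y b ↔ ρ a < ρ b := by
  obtain ⟨ρ, h⟩ := exists_std y
  refine ⟨ρ, fun a b => ⟨h a b, fun hab => ?_⟩⟩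
  rcases lt_trichotomy (y a) (y b) with h1 | h1 | h1
  · exact h1
  · rw [hy h1] at hab; exact absurd hab (lt_irrefl _)
  · exact absurd (h b a h1) (not_lt.2 hab.le)

/-- block sum of two permutations -/
def T {i j : ℕ} (τ₁ : Equiv.Perm (Fin i)) (τ₂ : Equiv.Perm (Fin j)) : Equiv.Perm (Fin (i + j)) :=
  finSumFinEquiv.permCongr (Equiv.sumCongr τ₁ τ₂)

theorem T_left {i j : ℕ} (τ₁ : Equiv.Perm (Fin i)) (τ₂ : Equiv.Perm (Fin j)) (a : Fin i) :
    T τ₁ τ₂ (Fin.castAdd j a) = Fin.castAdd j (τ₁ a) := by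
  simp [T]

theorem T_right {i j : ℕ} (τ₁ : Equiv.Perm (Fin i)) (τ₂ : Equiv.Perm (Fin j)) (a : Fin j) :
    T τ₁ τ₂ (Fin.natAdd i a) = Fin.natAdd i (τ₂ a) := by
  simp [T]

theorem X_left {i j : ℕ} (π : Equiv.Perm (Fin (i + j))) (a : ℕ) (ha : a < i) :
    X (i + j) π a = π (Fin.castAdd j ⟨a, ha⟩) := by
  have : a < i + j := by omega
  simp only [X, this, dif_pos]
  rfl

theorem X_right {i j : ℕ} (π : Equiv.Perm (Fin (i + j))) (a : ℕ) (ha : a < j) :
    X (i + j) π (i + a) = π (Fin.natAdd i ⟨a, ha⟩) := by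
  have : i + a < i + j := by omega
  simp only [X, this, dif_pos]
  rfl

theorem X_lt {n : ℕ} (π : Equiv.Perm (Fin n)) (a : ℕ) (ha : a < n) :
    X n π a = π ⟨a, ha⟩ := by
  simp only [X, ha, dif_pos]

theorem prod_lemma (i j : ℕ) (φ ψ : (ℕ → ℕ) → ℤ) (hφ : Inv i φ) (hψ : Inv j ψ) :
    (i.factorial : ℤ) * (j.factorial : ℤ) *
      ∑ π : Equiv.Perm (Fin (i + j)), φ (X (i + j) π) * ψ (fun t => X (i + j) π (i + t)) =
    ((i + j).factorial : ℤ) * ((∑ ρ : Equiv.Perm (Fin i), φ (X i ρ)) *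
      ∑ ρ : Equiv.Perm (Fin j), ψ (X j ρ)) := by
  set F : Equiv.Perm (Fin (i + j)) → ℤ :=
    fun π => φ (X (i + j) π) * ψ (fun t => X (i + j) π (i + t)) with hF
  have h1 : ∀ τ₁ τ₂, ∑ π, F π = ∑ π, F (π * T τ₁ τ₂) := fun τ₁ τ₂ =>
    (Equiv.sum_comp (Equiv.mulRight (T τ₁ τ₂)) F).symm
  have h2 : ∀ π, ∑ τ₁ : Equiv.Perm (Fin i), ∑ τ₂ : Equiv.Perm (Fin j), F (π * T τ₁ τ₂) =
      (∑ ρ : Equiv.Perm (Fin i), φ (X i ρ)) * ∑ ρ : Equiv.Perm (Fin j), ψ (X j ρ) := by
    intro π
    obtain ⟨ρ₁, hρ₁⟩ := exists_std_inj (fun a : Fin i => (π (Fin.castAdd j a) : ℕ))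
      (fun a b h => Fin.castAdd_injective _ _ (π.injective (Fin.ext h)))
    obtain ⟨ρ₂, hρ₂⟩ := exists_std_inj (fun a : Fin j => (π (Fin.natAdd i a) : ℕ))
      (fun a b h => Fin.natAdd_injective _ _ (π.injective (Fin.ext h)))
    rw [← Equiv.sum_comp (Equiv.mulLeft ρ₁) (fun ρ => φ (X i ρ)),
      ← Equiv.sum_comp (Equiv.mulLeft ρ₂) (fun ρ => ψ (X j ρ)), Finset.sum_mul_sum]
    refine Finset.sum_congr rfl fun τ₁ _ => Finset.sum_congr rfl fun τ₂ _ => ?_
    simp only [hF, Equiv.coe_mulLeft]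
    congr 1
    · apply hφ
      intro a b ha hb
      rw [X_left _ a ha, X_left _ b hb, X_lt _ a ha, X_lt _ b hb]
      simp only [Equiv.Perm.mul_apply, T_left]
      exact hρ₁ _ _
    · apply hψ
      intro a b ha hb
      rw [X_right _ a ha, X_right _ b hb, X_lt _ a ha, X_lt _ b hb]
      simp only [Equiv.Perm.mul_apply, T_right]
      exact hρ₂ _ _
  calc (i.factorial : ℤ) * (j.factorial : ℤ) * ∑ π, F π
      = ∑ τ₁ : Equiv.Perm (Fin i), ∑ τ₂ : Equiv.Perm (Fin j), ∑ π, F π := by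
        simp [Fintype.card_perm, mul_assoc]
    _ = ∑ τ₁ : Equiv.Perm (Fin i), ∑ τ₂ : Equiv.Perm (Fin j), ∑ π, F (π * T τ₁ τ₂) :=
        Finset.sum_congr rfl fun τ₁ _ => Finset.sum_congr rfl fun τ₂ _ => h1 τ₁ τ₂
    _ = ∑ π, ∑ τ₁ : Equiv.Perm (Fin i), ∑ τ₂ : Equiv.Perm (Fin j), F (π * T τ₁ τ₂) := by
        rw [Finset.sum_comm (s := Finset.univ (α := Equiv.Perm (Fin (i + j))))]
        refine Finset.sum_congr rfl fun τ₁ _ => ?_
        rw [Finset.sum_comm]
    _ = _ := by
        simp only [h2]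
        simp [Fintype.card_perm]

/-- signed number of chains of overlapping marked occurrences from `0` to `q` -/
def G (o : ℕ → ℤ) : ℕ → ℤ
  | 0 => o 0
  | q + 1 => -o (q + 1) * ∑ r : Fin (q + 1), if q + 1 ≤ r.1 + 5 then G o r.1 else 0
  decreasing_by exact r.2

theorem G_zero (o : ℕ → ℤ) : G o 0 = o 0 := by rw [G]

theorem G_succ (o : ℕ → ℤ) (q : ℕ) : G o (q + 1) =
    -o (q + 1) * ∑ r ∈ range (q + 1), if q + 1 ≤ r + 5 then G o r else 0 := by
  rw [G, Finset.sum_range (fun r => if q + 1 ≤ r + 5 then G o r else 0)]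

theorem G_congr (o o' : ℕ → ℤ) (p : ℕ) (h : ∀ q, q ≤ p → o q = o' q) : G o p = G o' p := by
  induction p using Nat.strong_induction_on with
  | _ p ih =>
    cases p with
    | zero => rw [G_zero, G_zero, h 0 le_rfl]
    | succ q =>
      rw [G_succ, G_succ, h _ le_rfl]
      congr 1
      refine Finset.sum_congr rfl fun r hr => ?_
      rw [ih r (mem_range.1 hr) (fun t ht => h t (by have := mem_range.1 hr; omega))]

theorem telescope (o u : ℕ → ℤ) (M : ℕ) (ho : ∀ q, M ≤ q → o q = 0)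
    (hu : ∀ q, u q = (1 - o q) * u (q + 1)) :
    u 0 = u 1 - ∑ p ∈ range M, G o p * u (p + 6) := by
  have h1 : ∀ p, u (p + 6) = u (p + 1) +
      ∑ q ∈ range M, if p < q ∧ q ≤ p + 5 then o q * u (q + 1) else 0 := by
    intro p
    have e : ∑ q ∈ range M, (if p < q ∧ q ≤ p + 5 then o q * u (q + 1) else 0) =
        ∑ q ∈ Ioc p (p + 5), o q * u (q + 1) := by
      rw [← Finset.sum_filter]
      apply Finset.sum_subset
      · intro q hq
        simp only [mem_filter, mem_Ioc] at hq ⊢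
        exact hq.2
      · intro q hq hq'
        simp only [mem_filter, mem_Ioc, mem_range] at hq hq'
        rw [ho q (by omega), zero_mul]
    rw [e, Finset.sum_Ioc_succ_top (by omega), Finset.sum_Ioc_succ_top (by omega),
      Finset.sum_Ioc_succ_top (by omega), Finset.sum_Ioc_succ_top (by omega),
      Finset.sum_Ioc_succ_top (by omega)]
    simp only [Ioc_self, sum_empty]
    have a1 := hu (p + 1)
    have a2 := hu (p + 2)
    have a3 := hu (p + 3)
    have a4 := hu (p + 4)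
    have a5 := hu (p + 5)
    simp only [add_assoc] at *
    norm_num at *
    linear_combination -a1 - a2 - a3 - a4 - a5
  have h2 : ∑ p ∈ range M, G o p *
      (∑ q ∈ range M, if p < q ∧ q ≤ p + 5 then o q * u (q + 1) else 0) =
      ∑ q ∈ range M, if q = 0 then 0 else -(G o q * u (q + 1)) := by
    simp only [Finset.mul_sum]
    rw [Finset.sum_comm]
    refine Finset.sum_congr rfl fun q hq => ?_
    cases q with
    | zero => simp
    | succ q =>
      rw [if_neg (by omega), G_succ]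
      have e : ∑ r ∈ range (q + 1), (if q + 1 ≤ r + 5 then G o r else 0) =
          ∑ r ∈ range M, (if r < q + 1 ∧ q + 1 ≤ r + 5 then G o r else 0) := by
        rw [← Finset.sum_filter, ← Finset.sum_filter]
        congr 1
        ext r
        have := mem_range.1 hq
        simp only [mem_filter, mem_range]
        omega
      rw [e]
      rw [neg_mul, neg_mul, neg_neg, Finset.mul_sum, Finset.sum_mul]
      refine Finset.sum_congr rfl fun r _ => ?_
      split_ifs <;> ring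
  have h3 : ∑ p ∈ range M, G o p * u (p + 6) = o 0 * u 1 := by
    simp only [h1, mul_add, Finset.sum_add_distrib, h2]
    rw [← Finset.sum_add_distrib]
    cases M with
    | zero => simp [ho 0 le_rfl]
    | succ M =>
      rw [Finset.sum_range_succ']
      simp [G_zero]
  rw [h3, hu 0]
  ring

theorem G_sign (o : ℕ → ℤ) (h0 : ∀ q, 0 ≤ o q)
    (hs : ∀ r q, r < q → q ≤ r + 5 → (q - r) % 2 = 0 → o r = 0 ∨ o q = 0) (p : ℕ) :
    0 ≤ (-1) ^ p * G o p ∧ (o p = 0 → G o p = 0) ∧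
      ∀ r, r < p → p ≤ r + 5 → o p = 1 → (p - r) % 2 = 1 →
        (-1) ^ r * G o r ≤ (-1) ^ p * G o p := by
  induction p using Nat.strong_induction_on with
  | _ p ih =>
    cases p with
    | zero =>
      refine ⟨by simpa [G_zero] using h0 0, fun h => by rw [G_zero, h], fun r hr => by omega⟩
    | succ q =>
      have key : (-1) ^ (q + 1) * G o (q + 1) = ∑ r ∈ range (q + 1),
          if q + 1 ≤ r + 5 ∧ (q + 1 - r) % 2 = 1 then o (q + 1) * ((-1) ^ r * G o r) else 0 := by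
        rw [G_succ, Finset.mul_sum, Finset.mul_sum]
        refine Finset.sum_congr rfl fun r hr => ?_
        have hr' := mem_range.1 hr
        by_cases h1 : q + 1 ≤ r + 5
        · by_cases h2 : (q + 1 - r) % 2 = 1
          · rw [if_pos h1, if_pos ⟨h1, h2⟩]
            obtain ⟨k, hk⟩ : ∃ k, q + 1 = r + 2 * k + 1 := ⟨(q + 1 - r) / 2, by omega⟩
            rw [show (-1 : ℤ) ^ (q + 1) = (-1) ^ r * -1 by
              rw [hk, pow_succ, pow_add, pow_mul]; simp]
            ring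
          · rw [if_pos h1, if_neg (fun h => h2 h.2)]
            rcases hs r (q + 1) hr' h1 (by omega) with h | h
            · rw [(ih r hr').2.1 h]; simp
            · rw [h]; simp
        · rw [if_neg h1, if_neg (fun h => h1 h.1)]; simp
      have hnn : ∀ r ∈ range (q + 1), 0 ≤ (if q + 1 ≤ r + 5 ∧ (q + 1 - r) % 2 = 1 then
          o (q + 1) * ((-1) ^ r * G o r) else 0) := by
        intro r hr
        split_ifs
        · exact mul_nonneg (h0 _) (ih r (mem_range.1 hr)).1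
        · exact le_rfl
      refine ⟨by rw [key]; exact Finset.sum_nonneg hnn, fun h => by rw [G_succ, h]; simp, ?_⟩
      intro r hr h1 h2 h3
      rw [key]
      have := Finset.single_le_sum hnn (mem_range.2 hr)
      rw [if_pos ⟨h1, h3⟩] at this
      calc (-1) ^ r * G o r = o (q + 1) * ((-1) ^ r * G o r) := by rw [h2, one_mul]
        _ ≤ _ := this

end Pool.Agent.H709Z.Consec
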