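import Mathlib
import Pool.Agent.H709Z.ConsecA

set_option autoImplicit false

open Finset

namespace Pool.Agent.H709Z.Consec

/-- the pattern 254163 -/
def σ : Equiv.Perm (Fin 6) := ⟨![1, 4, 3, 0, 5, 2], ![3, 0, 5, 2, 1, 4], by decide, by decide⟩

def occ (x : ℕ → ℕ) (i : ℕ) : Prop :=
  ∀ a b : Fin 6, σ a < σ b ↔ x (i + (a : ℕ)) < x (i + (b : ℕ))

open Classical in
noncomputable def o (n : ℕ) (x : ℕ → ℕ) (q : ℕ) : ℤ := if q + 6 ≤ n ∧ occ x q then 1 else 0

open Classical in
noncomputable def u (n : ℕ) (x : ℕ → ℕ) (q : ℕ) : ℤ :=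
  if ∀ i, q ≤ i → ¬ (i + 6 ≤ n ∧ occ x i) then 1 else 0

theorem u_rec (n : ℕ) (x : ℕ → ℕ) (q : ℕ) : u n x q = (1 - o n x q) * u n x (q + 1) := by
  unfold u o
  by_cases h : q + 6 ≤ n ∧ occ x q
  · rw [if_pos h, if_neg (fun h' => h' q le_rfl h)]; simp
  · rw [if_neg h]
    simp only [sub_zero, one_mul]
    congr 1
    apply propext
    constructor
    · intro h' i hi; exact h' i (by omega)
    · intro h' i hi
      rcases Nat.eq_or_lt_of_le hi with rfl | hi
      · exact h
      · exact h' i hi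

theorem ite_iff {p q : Prop} {dp : Decidable p} {dq : Decidable q} (h : p ↔ q) :
    @ite ℤ p dp 1 0 = @ite ℤ q dq 1 0 := by
  by_cases hp : p
  · rw [if_pos hp, if_pos (h.1 hp)]
  · rw [if_neg hp, if_neg (fun hq => hp (h.2 hq))]

theorem occ_congr (x y : ℕ → ℕ) (n i : ℕ) (hi : i + 6 ≤ n)
    (h : ∀ a b, a < n → b < n → (x a < x b ↔ y a < y b)) : occ x i ↔ occ y i := by
  unfold occ
  refine forall_congr' fun a => forall_congr' fun b => ?_
  rw [h _ _ (by have := a.2; omega) (by have := b.2; omega)]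

theorem o_congr (x y : ℕ → ℕ) (n q : ℕ)
    (h : ∀ a b, a < n → b < n → (x a < x b ↔ y a < y b)) : o n x q = o n y q := by
  unfold o
  exact ite_iff (and_congr_right fun hq => occ_congr x y n q hq h)

theorem inv_u (n : ℕ) : Inv n (fun x => u n x 0) := by
  intro x y h
  unfold u
  have : (∀ i, 0 ≤ i → ¬ (i + 6 ≤ n ∧ occ x i)) ↔ ∀ i, 0 ≤ i → ¬ (i + 6 ≤ n ∧ occ y i) := by
    refine forall_congr' fun i => imp_congr_right fun _ => not_congr ?_
    exact and_congr_right fun hi => occ_congr x y n i hi h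
  exact ite_iff this

theorem inv_G (p : ℕ) : Inv (p + 6) (fun x => G (o (p + 6) x) p) := by
  intro x y h
  exact G_congr _ _ p fun q _ => o_congr x y _ q h

theorem u_shift (i j : ℕ) (x : ℕ → ℕ) : u (i + j) x i = u j (fun t => x (i + t)) 0 := by
  unfold u
  have e : ∀ t, occ (fun t => x (i + t)) t ↔ occ x (i + t) := by
    intro t; unfold occ; simp only [add_assoc]
  have : (∀ k, i ≤ k → ¬ (k + 6 ≤ i + j ∧ occ x k)) ↔
      ∀ t, 0 ≤ t → ¬ (t + 6 ≤ j ∧ occ (fun t => x (i + t)) t) := by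
    constructor
    · intro h t _ ht
      exact h (i + t) (by omega) ⟨by omega, (e t).1 ht.2⟩
    · intro h k hk hk'
      obtain ⟨t, rfl⟩ := Nat.exists_eq_add_of_le hk
      exact h t (Nat.zero_le _) ⟨by omega, (e t).2 hk'.2⟩
  exact ite_iff this

theorem G_len (n p : ℕ) (x : ℕ → ℕ) (h : p + 6 ≤ n) : G (o n x) p = G (o (p + 6) x) p := by
  refine G_congr _ _ p fun q hq => ?_
  unfold o
  have h1 : q + 6 ≤ n := by omega
  have h2 : q + 6 ≤ p + 6 := by omega
  exact ite_iff (and_congr_left fun _ => ⟨fun _ => h2, fun _ => h1⟩)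

noncomputable def al (n : ℕ) : ℤ := ∑ π : Equiv.Perm (Fin n), u n (X n π) 0

noncomputable def g (p : ℕ) : ℤ := ∑ ρ : Equiv.Perm (Fin (p + 6)), G (o (p + 6) (X (p + 6) ρ)) p

noncomputable def a (n : ℕ) : ℝ := (al n : ℝ) / n.factorial

noncomputable def w (n : ℕ) : ℝ :=
  if n = 0 then 1 else if n = 1 then -1 else if 6 ≤ n then (g (n - 6) : ℝ) / n.factorial else 0

theorem sum_one (n : ℕ) (hn : 1 ≤ n) :
    ((∑ π : Equiv.Perm (Fin n), u n (X n π) 1 : ℤ) : ℝ) / n.factorial = a (n - 1) := by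
  obtain ⟨j, rfl⟩ := Nat.exists_eq_add_of_le hn
  have h := prod_lemma 1 j (fun _ => 1) (fun x => u j x 0) (fun _ _ _ => rfl) (inv_u j)
  simp only [← u_shift, one_mul] at h
  have h' := congrArg (Int.cast : ℤ → ℝ) h
  simp only [Nat.factorial_one, Nat.cast_one, one_mul, univ_unique, sum_const, card_singleton,
    one_smul, Int.cast_mul, Int.cast_natCast] at h'
  rw [show 1 + j - 1 = j by omega, a, al]
  have f1 : ((1 + j).factorial : ℝ) ≠ 0 := by positivity
  have f2 : (j.factorial : ℝ) ≠ 0 := by positivity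
  rw [div_eq_div_iff f1 f2]
  linarith

theorem sum_G (n p : ℕ) (hn : p + 6 ≤ n) :
    ((∑ π : Equiv.Perm (Fin n), G (o n (X n π)) p * u n (X n π) (p + 6) : ℤ) : ℝ) / n.factorial
      = w (6 + p) * a (n - (6 + p)) := by
  obtain ⟨j, rfl⟩ := Nat.exists_eq_add_of_le hn
  have h := prod_lemma (p + 6) j (fun x => G (o (p + 6) x) p) (fun x => u j x 0) (inv_G p)
    (inv_u j)
  simp only [← u_shift] at h
  simp only [G_len (p + 6 + j) p _ hn]
  have h' := congrArg (Int.cast : ℤ → ℝ) h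
  simp only [Int.cast_mul, Int.cast_natCast] at h'
  rw [show p + 6 + j - (6 + p) = j by omega, a, al, w, if_neg (by omega), if_neg (by omega),
    if_pos (by omega), show 6 + p - 6 = p by omega, g, add_comm 6 p]
  have f1 : ((p + 6 + j).factorial : ℝ) ≠ 0 := by positivity
  have f2 : (j.factorial : ℝ) ≠ 0 := by positivity
  have f3 : ((p + 6).factorial : ℝ) ≠ 0 := by positivity
  rw [div_mul_div_comm, div_eq_div_iff f1 (mul_ne_zero f3 f2)]
  linarith

theorem a_rec (n : ℕ) (hn : 1 ≤ n) :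
    a n = a (n - 1) - ∑ p ∈ range (n + 1 - 6), w (6 + p) * a (n - (6 + p)) := by
  have h : al n = (∑ π : Equiv.Perm (Fin n), u n (X n π) 1) - ∑ p ∈ range (n + 1 - 6),
      ∑ π : Equiv.Perm (Fin n), G (o n (X n π)) p * u n (X n π) (p + 6) := by
    rw [al, Finset.sum_comm, ← Finset.sum_sub_distrib]
    refine Finset.sum_congr rfl fun π _ => ?_
    refine telescope _ _ _ (fun q hq => ?_) (u_rec n _)
    unfold o
    rw [if_neg (fun h => by omega)]
  rw [← sum_one n hn]
  have e : ∑ p ∈ range (n + 1 - 6), w (6 + p) * a (n - (6 + p)) = ∑ p ∈ range (n + 1 - 6),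
      ((∑ π : Equiv.Perm (Fin n), G (o n (X n π)) p * u n (X n π) (p + 6) : ℤ) : ℝ)
        / n.factorial :=
    Finset.sum_congr rfl fun p hp => (sum_G n p (by have := mem_range.1 hp; omega)).symm
  rw [e, ← Finset.sum_div, ← sub_div, a, h]
  push_cast
  rfl

theorem a_zero : a 0 = 1 := by
  simp [a, al, u]

theorem conv (n : ℕ) : ∑ i ∈ range (n + 1), w i * a (n - i) = if n = 0 then 1 else 0 := by
  split_ifs with hn
  · subst hn; simp [w, a_zero]
  · have hn1 : 1 ≤ n := by omega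
    have e1 : ∑ i ∈ range (n + 1), w i * a (n - i) =
        ∑ i ∈ range 2, w i * a (n - i) + ∑ i ∈ Ico 2 (n + 1), w i * a (n - i) :=
      (Finset.sum_range_add_sum_Ico _ (by omega)).symm
    have e2 : ∑ i ∈ Ico 2 (n + 1), w i * a (n - i) = ∑ i ∈ Ico 6 (n + 1), w i * a (n - i) := by
      symm
      apply Finset.sum_subset
      · exact Finset.Ico_subset_Ico (by omega) le_rfl
      · intro i hi hi'
        simp only [mem_Ico] at hi hi'
        rw [w, if_neg (by omega), if_neg (by omega), if_neg (by omega), zero_mul]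
    rw [e1, e2, Finset.sum_Ico_eq_sum_range]
    have := a_rec n hn1
    simp only [Finset.sum_range_succ, Finset.sum_range_zero, w]
    simp only [w] at this
    norm_num at this ⊢
    linarith

theorem u_bd (n : ℕ) (x : ℕ → ℕ) (q : ℕ) : 0 ≤ u n x q ∧ u n x q ≤ 1 := by
  unfold u; split_ifs <;> simp

theorem a_abs (n : ℕ) : |a n| ≤ 1 := by
  have h0 : 0 ≤ al n := Finset.sum_nonneg fun π _ => (u_bd _ _ _).1
  have h1 : al n ≤ n.factorial := by
    have := Finset.sum_le_card_nsmul Finset.univ (fun π : Equiv.Perm (Fin n) => u n (X n π) 0) 1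
      (fun π _ => (u_bd _ _ _).2)
    simpa [Fintype.card_perm, al] using this
  have f1 : (0 : ℝ) < n.factorial := by positivity
  rw [a, abs_of_nonneg (div_nonneg (by exact_mod_cast h0) f1.le), div_le_one f1]
  exact_mod_cast h1

theorem w_abs (n : ℕ) : |w n| ≤ 2 ^ n := by
  induction n using Nat.strong_induction_on with
  | _ n ih =>
    cases n with
    | zero => simp [w]
    | succ n =>
      have h := conv (n + 1)
      rw [if_neg (by omega), Finset.sum_range_succ, Nat.sub_self, a_zero, mul_one] at h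
      have h2 : w (n + 1) = -∑ i ∈ range (n + 1), w i * a (n + 1 - i) := by linarith
      rw [h2, abs_neg]
      calc |∑ i ∈ range (n + 1), w i * a (n + 1 - i)|
          ≤ ∑ i ∈ range (n + 1), |w i * a (n + 1 - i)| := Finset.abs_sum_le_sum_abs _ _
        _ ≤ ∑ i ∈ range (n + 1), (2 : ℝ) ^ i := by
            refine Finset.sum_le_sum fun i hi => ?_
            rw [abs_mul]
            calc |w i| * |a (n + 1 - i)| ≤ 2 ^ i * 1 :=
                  mul_le_mul (ih i (mem_range.1 hi)) (a_abs _) (abs_nonneg _) (by positivity)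
              _ = 2 ^ i := mul_one _
        _ ≤ 2 ^ (n + 1) := by
            rw [geom_sum_eq (by norm_num)]; norm_num

theorem occ_overlap (x : ℕ → ℕ) (r q : ℕ) (h1 : r < q) (h2 : q ≤ r + 5) (h3 : (q - r) % 2 = 0)
    (hr : occ x r) (hq : occ x q) : False := by
  have : q = r + 2 ∨ q = r + 4 := by omega
  rcases this with rfl | rfl
  · have a1 := (hr 3 4).1 (by decide)
    have a2 := (hq 2 1).1 (by decide)
    simp only [add_assoc] at a1 a2
    norm_num at a1 a2
    omega
  · have a1 := (hr 5 4).1 (by decide)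
    have a2 := (hq 0 1).1 (by decide)
    simp only [add_assoc] at a1 a2
    norm_num at a1 a2
    omega

theorem G_sign' (n : ℕ) (x : ℕ → ℕ) (p : ℕ) :
    0 ≤ (-1) ^ p * G (o n x) p ∧ (o n x p = 0 → G (o n x) p = 0) ∧
      ∀ r, r < p → p ≤ r + 5 → o n x p = 1 → (p - r) % 2 = 1 →
        (-1) ^ r * G (o n x) r ≤ (-1) ^ p * G (o n x) p := by
  refine G_sign _ (fun q => by unfold o; split_ifs <;> simp) (fun r q h1 h2 h3 => ?_) p
  unfold o
  by_cases hr : r + 6 ≤ n ∧ occ x r
  · right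
    exact if_neg fun hq => occ_overlap x r q h1 h2 h3 hr.2 hq.2
  · left
    exact if_neg hr

/-- the periodic level function -/
def lev (i : ℕ) : Fin 8 := (![2, 5, 4, 1, 6, 3, 0, 7] : Fin 8 → Fin 8) ⟨i % 8, Nat.mod_lt _ (by norm_num)⟩

theorem lev_add (k i : ℕ) : lev (8 * k + i) = lev i := by
  simp [lev]

theorem occ_of_lev (x : ℕ → ℕ) (n : ℕ) (h : ∀ a b, a < n → b < n → lev a < lev b → x a < x b)
    (k c : ℕ) (hc : c = 0 ∨ c = 3) (hn : 8 * k + c + 6 ≤ n) : occ x (8 * k + c) := by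
  have key : ∀ a b : Fin 6, σ a < σ b → x (8 * k + c + a) < x (8 * k + c + b) := by
    intro a b hab
    apply h _ _ (by have := a.2; omega) (by have := b.2; omega)
    rw [add_assoc, add_assoc, lev_add, lev_add]
    rcases hc with rfl | rfl <;> revert a b <;> decide
  intro a b
  refine ⟨key a b, fun hab => ?_⟩
  rcases lt_trichotomy (σ a) (σ b) with h1 | h1 | h1
  · exact h1
  · rw [σ.injective h1] at hab; exact absurd hab (lt_irrefl _)
  · exact absurd (key b a h1) (not_lt.2 hab.le)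

theorem G_ge (x : ℕ → ℕ) (n : ℕ) (h : ∀ a b, a < n → b < n → lev a < lev b → x a < x b)
    (k : ℕ) (hk : 8 * k + 6 ≤ n) : 1 ≤ (-1) ^ (8 * k) * G (o n x) (8 * k) := by
  induction k with
  | zero =>
    have := occ_of_lev x n h 0 0 (Or.inl rfl) (by omega)
    simp only [mul_zero, pow_zero, one_mul, G_zero, o]
    rw [if_pos ⟨by omega, by simpa using this⟩]
  | succ k ih =>
    have h1 := occ_of_lev x n h k 3 (Or.inr rfl) (by omega)
    have h2 := occ_of_lev x n h (k + 1) 0 (Or.inl rfl) (by omega)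
    have e1 := (G_sign' n x (8 * k + 3)).2.2 (8 * k) (by omega) (by omega)
      (by unfold o; exact if_pos ⟨by omega, h1⟩) (by omega)
    have e2 := (G_sign' n x (8 * (k + 1))).2.2 (8 * k + 3) (by omega) (by omega)
      (by unfold o; exact if_pos ⟨by omega, by simpa using h2⟩) (by omega)
    exact (ih (by omega)).trans (e1.trans e2)

theorem count_good (n : ℕ) : ∃ S : Finset (Equiv.Perm (Fin n)),
    n.factorial ≤ S.card * 8 ^ n ∧
      ∀ π ∈ S, ∀ a b, a < n → b < n → lev a < lev b → X n π a < X n π b := by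
  classical
  let L : Fin n → Fin 8 := fun i => lev i
  obtain ⟨π₀, h₀⟩ := exists_std L
  refine ⟨Finset.univ.filter fun π => ∀ a b, L a < L b → π a < π b, ?_, ?_⟩
  · have hc := Finset.card_le_mul_card_image_of_maps_to
      (f := fun τ : Equiv.Perm (Fin n) => L ∘ τ) (s := Finset.univ) (t := Finset.univ)
      (fun _ _ => Finset.mem_univ _)
      (Finset.univ.filter fun π : Equiv.Perm (Fin n) => ∀ a b, L a < L b → π a < π b).card
      (fun f _ => ?_)
    · simpa [Fintype.card_perm] using hc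
    · by_cases hf : ∃ τ₀ : Equiv.Perm (Fin n), L ∘ τ₀ = f
      · obtain ⟨τ₀, rfl⟩ := hf
        refine Finset.card_le_card_of_injOn (fun τ => π₀ * (τ₀ * τ⁻¹)) ?_ ?_
        · intro τ hτ
          simp only [coe_filter, mem_univ, true_and, Set.mem_ofPred_eq] at hτ ⊢
          intro a b hab
          have e : ∀ c, L (τ₀ (τ⁻¹ c)) = L c := fun c => by
            have := congrFun hτ (τ⁻¹ c)
            simpa using this.symm
          apply h₀
          simp only [Equiv.Perm.mul_apply]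
          rw [e, e]; exact hab
        · intro τ _ τ' _ h
          simpa using h
      · rw [Finset.filter_eq_empty_iff.2 (fun τ _ h => hf ⟨τ, h⟩)]
        simp
  · intro π hπ a b ha hb hab
    rw [X_lt _ a ha, X_lt _ b hb]
    exact (Finset.mem_filter.1 hπ).2 ⟨a, ha⟩ ⟨b, hb⟩ hab

theorem w_ge (k : ℕ) : 1 ≤ |w (8 * k + 6)| * 8 ^ (8 * k + 6) := by
  obtain ⟨S, hS, hS'⟩ := count_good (8 * k + 6)
  have h1 : (S.card : ℤ) ≤ (-1) ^ (8 * k) * g (8 * k) := by
    rw [g, Finset.mul_sum]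
    calc (S.card : ℤ) = ∑ _π ∈ S, (1 : ℤ) := by simp
      _ ≤ ∑ π ∈ S, (-1) ^ (8 * k) * G (o (8 * k + 6) (X (8 * k + 6) π)) (8 * k) :=
          Finset.sum_le_sum fun π hπ => G_ge _ _ (hS' π hπ) k le_rfl
      _ ≤ _ := Finset.sum_le_sum_of_subset_of_nonneg (Finset.subset_univ _)
          fun π _ _ => (G_sign' _ _ _).1
  have h2 : (-1 : ℤ) ^ (8 * k) = 1 := by rw [pow_mul]; norm_num
  rw [h2, one_mul] at h1
  have f1 : (0 : ℝ) < (8 * k + 6).factorial := by positivity
  have h3 : (S.card : ℝ) ≤ g (8 * k) := by exact_mod_cast h1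
  have h4 : ((8 * k + 6).factorial : ℝ) ≤ S.card * 8 ^ (8 * k + 6) := by exact_mod_cast hS
  rw [w, if_neg (by omega), if_neg (by omega), if_pos (by omega), Nat.add_sub_cancel,
    abs_of_nonneg (div_nonneg ((Nat.cast_nonneg _).trans h3) f1.le), div_mul_eq_mul_div,
    le_div_iff₀ f1, one_mul]
  exact h4.trans (mul_le_mul_of_nonneg_right h3 (by positivity))

theorem summ (c : ℕ → ℝ) (hc : ∀ n, |c n| ≤ 2 ^ n) (z : ℂ) (hz : ‖z‖ < 1 / 2) :
    Summable fun n => ‖(c n : ℂ) * z ^ n‖ := by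
  have h : Summable fun n : ℕ => (2 * ‖z‖) ^ n :=
    summable_geometric_of_lt_one (by positivity) (by linarith)
  refine Summable.of_nonneg_of_le (fun _ => norm_nonneg _) (fun n => ?_) h
  rw [norm_mul, norm_pow, mul_pow, Complex.norm_real, Real.norm_eq_abs]
  exact mul_le_mul_of_nonneg_right (hc n) (by positivity)

theorem prod_one (z : ℂ) (hz : ‖z‖ < 1 / 2) :
    (∑' n, (w n : ℂ) * z ^ n) * (∑' n, (a n : ℂ) * z ^ n) = 1 := by
  rw [tsum_mul_tsum_eq_tsum_sum_range_of_summable_norm (summ w w_abs z hz)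
    (summ a (fun n => (a_abs n).trans (one_le_pow₀ (by norm_num))) z hz)]
  have : ∀ n, ∑ k ∈ range (n + 1), (w k : ℂ) * z ^ k * ((a (n - k) : ℂ) * z ^ (n - k)) =
      if n = 0 then 1 else 0 := by
    intro n
    have h := congrArg (fun t : ℝ => (t : ℂ) * z ^ n) (conv n)
    simp only [Complex.ofReal_sum, Complex.ofReal_mul, Finset.sum_mul] at h
    rw [show ∑ k ∈ range (n + 1), (w k : ℂ) * z ^ k * ((a (n - k) : ℂ) * z ^ (n - k)) =
      ∑ k ∈ range (n + 1), (w k : ℂ) * (a (n - k) : ℂ) * z ^ n from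
        Finset.sum_congr rfl fun k hk => by
          have : z ^ n = z ^ k * z ^ (n - k) := by
            rw [← pow_add]; congr 1; have := mem_range.1 hk; omega
          rw [this]; ring, h]
    split_ifs with h0
    · subst h0; simp
    · simp
  simp only [this]
  exact tsum_ite_eq 0 (fun _ => (1 : ℂ))

theorem not_entire (f : ℂ → ℂ) (hf : Differentiable ℂ f)
    (h : ∀ᶠ z in nhds (0 : ℂ), f z * (∑' n, (a n : ℂ) * z ^ n) = 1) : False := by
  set p : FormalMultilinearSeries ℂ ℂ ℂ :=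
    FormalMultilinearSeries.ofScalars ℂ (fun n => (w n : ℂ)) with hp
  have hnorm : ∀ n, ‖p n‖ = |w n| := fun n => by
    rw [hp, FormalMultilinearSeries.ofScalars_norm, Complex.norm_real, Real.norm_eq_abs]
  have hrad : 0 < p.radius := by
    have : ((1 / 2 : NNReal) : ENNReal) ≤ p.radius := by
      refine p.le_radius_of_bound 1 fun n => ?_
      rw [hnorm]
      have := w_abs n
      calc |w n| * ((1 / 2 : NNReal) : ℝ) ^ n ≤ 2 ^ n * ((1 / 2 : NNReal) : ℝ) ^ n :=
            mul_le_mul_of_nonneg_right this (by positivity)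
        _ = 1 := by rw [← mul_pow]; norm_num
    exact lt_of_lt_of_le (by norm_num) this
  have h1 : HasFPowerSeriesAt p.sum p 0 := (p.hasFPowerSeriesOnBall hrad).hasFPowerSeriesAt
  have hb : ∀ᶠ z in nhds (0 : ℂ), ‖z‖ < 1 / 2 := by
    have := Metric.ball_mem_nhds (0 : ℂ) (show (0 : ℝ) < 1 / 2 by norm_num)
    filter_upwards [this] with z hz
    simpa using hz
  have h2 : p.sum =ᶠ[nhds 0] f := by
    filter_upwards [h, hb] with z hz hz'
    have e : p.sum z = ∑' n, (w n : ℂ) * z ^ n := by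
      simp only [FormalMultilinearSeries.sum, hp, FormalMultilinearSeries.ofScalars_apply_eq,
        smul_eq_mul]
    rw [e]
    have hne : (∑' n, (a n : ℂ) * z ^ n) ≠ 0 := right_ne_zero_of_mul_eq_one hz
    exact mul_right_cancel₀ hne ((prod_one z hz').trans hz.symm)
  have h3 : HasFPowerSeriesAt f p 0 := h1.congr h2
  have h4 := hf.hasFPowerSeriesOnBall 0 (R := 1) one_pos
  have h5 : p = cauchyPowerSeries f 0 (1 : NNReal) :=
    h3.eq_formalMultilinearSeries h4.hasFPowerSeriesAt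
  have h6 : ((16 : NNReal) : ENNReal) < p.radius := by
    rw [h5]
    exact lt_of_lt_of_le ENNReal.coe_lt_top h4.r_le
  obtain ⟨C, -, hC⟩ := p.norm_mul_pow_le_of_lt_radius h6
  obtain ⟨k, hk⟩ := pow_unbounded_of_one_lt C (show (1 : ℝ) < 2 by norm_num)
  have h7 := hC (8 * k + 6)
  rw [hnorm] at h7
  have h8 := w_ge k
  have h9 : (2 : ℝ) ^ k ≤ 2 ^ (8 * k + 6) := pow_le_pow_right₀ (by norm_num) (by omega)
  have h10 : (((16 : NNReal) : ℝ)) ^ (8 * k + 6) = 8 ^ (8 * k + 6) * 2 ^ (8 * k + 6) := by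
    rw [← mul_pow]; norm_num
  rw [h10, ← mul_assoc] at h7
  have h11 : (1 : ℝ) * 2 ^ (8 * k + 6) ≤ |w (8 * k + 6)| * 8 ^ (8 * k + 6) * 2 ^ (8 * k + 6) :=
    mul_le_mul_of_nonneg_right h8 (by positivity)
  linarith

theorem card_eq (n : ℕ) :
    (Nat.card {π : Equiv.Perm (Fin n) // ¬ ∃ i : ℕ, i + 6 ≤ n ∧ occ (X n π) i} : ℤ) = al n := by
  classical
  rw [Nat.card_eq_fintype_card, Fintype.card_subtype, al, Finset.card_filter]
  push_cast
  refine Finset.sum_congr rfl fun π _ => ?_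
  unfold u
  exact ite_iff ⟨fun h i _ hi => h ⟨i, hi⟩, fun h ⟨i, hi⟩ => h i (Nat.zero_le _) hi⟩

end Pool.Agent.H709Z.Consec
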